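import Pool.Agent.Lib.MP_04143b_an.Defs

section

/-! # Basic facts on the best approximation -/

open Set

namespace Pool.Agent.Lib.MP_04143b_an

theorem EF_nonneg (n : ℕ) (F : Set (ℝ × ℝ)) : 0 ≤ EF n F := by
  refine Real.sInf_nonneg ?_
  rintro x ⟨G, -, rfl⟩
  exact Metric.hausdorffDist_nonneg

theorem EF_le {n : ℕ} {F G : Set (ℝ × ℝ)} (hG : G ∈ MnSq n) : EF n F ≤ Metric.hausdorffDist F G := by
  refine csInf_le ⟨0, ?_⟩ ⟨G, hG, rfl⟩
  rintro x ⟨G', -, rfl⟩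
  exact Metric.hausdorffDist_nonneg

/-- A point is a curve of length `0`. -/
theorem gamma1_nonempty : Gamma1.Nonempty := by
  refine ⟨_, fun _ => (0, 0), continuousOn_const, ?_, rfl⟩
  have h1 : length (fun _ : ℝ => ((0 : ℝ), (0 : ℝ))) = 0 := by
    unfold length
    refine eVariationOn.constant_on ?_
    rintro a ⟨x, -, rfl⟩ b ⟨y, -, rfl⟩
    rfl
  rw [h1]
  exact zero_le_one

end Pool.Agent.Lib.MP_04143b_an
end

section

/-! # The best approximation is at most 1 -/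

open Set

namespace Pool.Agent.Lib.MP_04143b_an

private theorem EF_le_one_const {n : ℕ} (hn : 1 ≤ n) (c : ℝ) : (fun _ : ℝ => c) ∈ Mn n := by
  refine ⟨continuousOn_const, 1, hn, fun i => (i : ℝ), by simp, by simp, ?_, ?_⟩
  · intro i hi
    push_cast
    linarith
  · intro i hi
    left
    exact monotoneOn_const

theorem EF_le_one {n : ℕ} (hn : 1 ≤ n) {F : Set (ℝ × ℝ)} (hF : F ∈ Gamma1) : EF n F ≤ 1 := by
  obtain ⟨f, hf, hl, rfl⟩ := hF
  have hG : ((fun _ : ℝ => ((f 0).1, (f 0).2)) '' Icc (0 : ℝ) 1) ∈ MnSq n :=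
    ⟨fun _ => (f 0).1, EF_le_one_const hn _, fun _ => (f 0).2, EF_le_one_const hn _, rfl⟩
  refine (EF_le hG).trans ?_
  have key : ∀ t ∈ Icc (0 : ℝ) 1, dist (f t) (f 0) ≤ 1 := by
    intro t ht
    have h1 : edist (WithLp.toLp 2 (f t)) (WithLp.toLp 2 (f 0)) ≤ 1 :=
      (eVariationOn.edist_le (fun t => WithLp.toLp 2 (f t)) ht
        (left_mem_Icc.2 zero_le_one)).trans hl
    have h2 : dist (WithLp.toLp 2 (f t)) (WithLp.toLp 2 (f 0)) ≤ 1 := by
      rw [edist_dist] at h1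
      have := ENNReal.ofReal_le_one.1 h1
      exact this
    rw [WithLp.prod_dist_eq_of_L2] at h2
    have h2 : √(dist (f t).1 (f 0).1 ^ 2 + dist (f t).2 (f 0).2 ^ 2) ≤ 1 := h2
    rw [Prod.dist_eq]
    apply max_le
    · refine le_trans ?_ h2
      apply Real.le_sqrt_of_sq_le
      nlinarith [sq_nonneg (dist (f t).2 (f 0).2)]
    · refine le_trans ?_ h2
      apply Real.le_sqrt_of_sq_le
      nlinarith [sq_nonneg (dist (f t).1 (f 0).1)]
  apply Metric.hausdorffDist_le_of_mem_dist zero_le_one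
  · rintro _ ⟨t, ht, rfl⟩
    exact ⟨f 0, ⟨0, left_mem_Icc.2 zero_le_one, rfl⟩, key t ht⟩
  · rintro _ ⟨t, ht, rfl⟩
    refine ⟨f 0, ⟨0, left_mem_Icc.2 zero_le_one, rfl⟩, ?_⟩
    simp

end Pool.Agent.Lib.MP_04143b_an
end
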