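import Pool.Agent.Lib.MP_04143b_an.Defs
import Pool.Agent.Lib.MP_04143b_an.CostB
import Pool.Agent.Lib.MP_04143b_an.CostT

section

/-! # Variation and length of chains -/

namespace Pool.Agent.Lib.MP_04143b_an

variable {x y : ℕ → ℝ} {a b c d : ℕ}

theorem xv_nonneg : 0 ≤ xv x a b :=
  Finset.sum_nonneg fun _ _ => abs_nonneg _

theorem ln_nonneg : 0 ≤ ln x y a b :=
  Finset.sum_nonneg fun _ _ => Real.sqrt_nonneg _

theorem xv_add (h1 : a ≤ b) (h2 : b ≤ c) : xv x a b + xv x b c = xv x a c :=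
  Finset.sum_Ico_consecutive _ h1 h2

theorem ln_add (h1 : a ≤ b) (h2 : b ≤ c) : ln x y a b + ln x y b c = ln x y a c :=
  Finset.sum_Ico_consecutive _ h1 h2

theorem xv_mono (h1 : a ≤ b) (h2 : c ≤ d) : xv x b c ≤ xv x a d :=
  Finset.sum_le_sum_of_subset_of_nonneg (Finset.Ico_subset_Ico h1 h2) fun _ _ _ => abs_nonneg _

theorem ln_mono (h1 : a ≤ b) (h2 : c ≤ d) : ln x y b c ≤ ln x y a d :=
  Finset.sum_le_sum_of_subset_of_nonneg (Finset.Ico_subset_Ico h1 h2)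
    fun _ _ _ => Real.sqrt_nonneg _

theorem xv_ge (h : a ≤ b) : |x b - x a| ≤ xv x a b := by
  rw [← Finset.sum_Ico_sub x h]
  exact Finset.abs_sum_le_sum_abs _ _

private theorem CostA_mink (A B a b : ℝ) :
    √((A + a) ^ 2 + (B + b) ^ 2) ≤ √(A ^ 2 + B ^ 2) + √(a ^ 2 + b ^ 2) := by
  have h1 : 0 ≤ √(A ^ 2 + B ^ 2) := Real.sqrt_nonneg _
  have h2 : 0 ≤ √(a ^ 2 + b ^ 2) := Real.sqrt_nonneg _
  have h3 : √(A ^ 2 + B ^ 2) ^ 2 = A ^ 2 + B ^ 2 := Real.sq_sqrt (by positivity)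
  have h4 : √(a ^ 2 + b ^ 2) ^ 2 = a ^ 2 + b ^ 2 := Real.sq_sqrt (by positivity)
  have h5 : A * a + B * b ≤ √(A ^ 2 + B ^ 2) * √(a ^ 2 + b ^ 2) := by
    rw [← Real.sqrt_mul (by positivity)]
    refine (le_abs_self _).trans (Real.abs_le_sqrt ?_)
    nlinarith [sq_nonneg (A * b - B * a)]
  apply Real.sqrt_le_iff.2
  exact ⟨by positivity, by nlinarith⟩

theorem ln_ge : √(xv x a b ^ 2 + xv y a b ^ 2) ≤ ln x y a b := by
  unfold xv ln
  induction (Finset.Ico a b) using Finset.induction_on with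
  | empty => simp
  | insert t s ht ih =>
    rw [Finset.sum_insert ht, Finset.sum_insert ht, Finset.sum_insert ht]
    refine (CostA_mink _ _ _ _).trans ?_
    rw [sq_abs, sq_abs]
    linarith

theorem xv_le_ln : xv x a b ≤ ln x y a b := by
  refine Finset.sum_le_sum fun t _ => ?_
  apply Real.abs_le_sqrt
  nlinarith [sq_nonneg (y (t + 1) - y t)]

theorem yv_le_ln : xv y a b ≤ ln x y a b := by
  refine Finset.sum_le_sum fun t _ => ?_
  apply Real.abs_le_sqrt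
  nlinarith [sq_nonneg (x (t + 1) - x t)]

theorem xv_sg (s : Bool) : xv (sg s x) a b = xv x a b := by
  refine Finset.sum_congr rfl fun t _ => ?_
  cases s
  · simp only [sg, Bool.false_eq_true, if_false]
    rw [← abs_neg]
    congr 1
    ring
  · simp [sg]

theorem ln_sg (s : Bool) : ln (sg s x) y a b = ln x y a b := by
  refine Finset.sum_congr rfl fun t _ => ?_
  cases s
  · simp only [sg, Bool.false_eq_true, if_false]
    congr 2
    ring
  · simp [sg]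

theorem ln_swap : ln y x a b = ln x y a b := by
  refine Finset.sum_congr rfl fun t _ => ?_
  rw [add_comm]

theorem xv_two {p q : ℕ} (ha : p ≤ a) (ha' : a ≤ q) (hb : p ≤ b) (hb' : b ≤ q)
    (h : 2 < y a - y b) : 2 ≤ xv y p q := by
  rcases le_total a b with hab | hab
  · have h1 := xv_ge (x := y) hab
    have h2 : xv y a b ≤ xv y p q := xv_mono ha hb'
    have h3 := neg_abs_le (y b - y a)
    linarith
  · have h1 := xv_ge (x := y) hab
    have h2 : xv y b a ≤ xv y p q := xv_mono hb ha'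
    have h3 := le_abs_self (y a - y b)
    linarith

private theorem CostA_pos {p q : ℕ} {z : ℕ → ℝ} (ha : p ≤ a) (hab : a ≤ b) (hb : b ≤ q) :
    z b - z a ≤ ∑ t ∈ Finset.Ico p q, max (z (t + 1) - z t) 0 := by
  rw [← Finset.sum_Ico_sub z hab]
  calc ∑ t ∈ Finset.Ico a b, (z (t + 1) - z t)
      ≤ ∑ t ∈ Finset.Ico a b, max (z (t + 1) - z t) 0 :=
        Finset.sum_le_sum fun _ _ => le_max_left _ _
    _ ≤ _ := Finset.sum_le_sum_of_subset_of_nonneg (Finset.Ico_subset_Ico ha hb)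
        fun _ _ _ => le_max_right _ _

theorem xv_four {p q : ℕ} (ha : p ≤ a) (hab : a ≤ b) (hb : b ≤ q) (h : 2 < y a - y b)
    (hc : p ≤ c) (hcd : c ≤ d) (hd : d ≤ q) (h' : 2 < y d - y c) : 4 ≤ xv y p q := by
  have h1 := CostA_pos (z := fun t => - y t) ha hab hb
  have h2 := CostA_pos (z := y) hc hcd hd
  have h3 : xv y p q = (∑ t ∈ Finset.Ico p q, max (y (t + 1) - y t) 0) +
      ∑ t ∈ Finset.Ico p q, max (- y (t + 1) - - y t) 0 := by
    rw [← Finset.sum_add_distrib]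
    refine Finset.sum_congr rfl fun t _ => ?_
    rcases le_total 0 (y (t + 1) - y t) with h4 | h4
    · rw [abs_of_nonneg h4, max_eq_left h4, max_eq_right (by linarith), add_zero]
    · rw [abs_of_nonpos h4, max_eq_right h4, max_eq_left (by linarith)]
      ring
  rw [h3]
  linarith

theorem xv_add_le_sqrt_two : xv x a b + xv y a b ≤ √2 * ln x y a b := by
  unfold xv ln
  rw [← Finset.sum_add_distrib, Finset.mul_sum]
  refine Finset.sum_le_sum fun t _ => ?_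
  rw [← Real.sqrt_mul (by norm_num)]
  apply Real.le_sqrt_of_sq_le
  have h1 := sq_abs (x (t + 1) - x t)
  have h2 := sq_abs (y (t + 1) - y t)
  nlinarith [sq_nonneg (|x (t + 1) - x t| - |y (t + 1) - y t|)]

end Pool.Agent.Lib.MP_04143b_an
end

section

/-! # Lattice cells: columns -/

namespace Pool.Agent.Lib.MP_04143b_an

/-- The column of `x t` in the partition of `ℝ` into the intervals `[θ + 2 c, θ + 2 c + 2)`. -/
noncomputable def col (θ : ℝ) (x : ℕ → ℝ) (t : ℕ) : ℤ := ⌊(x t - θ) / 2⌋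

theorem col_step {θ : ℝ} {x : ℕ → ℝ} {t : ℕ} (h : |x (t + 1) - x t| ≤ 1) :
    |col θ x (t + 1) - col θ x t| ≤ 1 := by
  unfold col
  have h1 := Int.floor_le ((x t - θ) / 2)
  have h2 := Int.lt_floor_add_one ((x t - θ) / 2)
  have h3 := Int.floor_le ((x (t + 1) - θ) / 2)
  have h4 := Int.lt_floor_add_one ((x (t + 1) - θ) / 2)
  rw [abs_le] at h ⊢
  constructor
  · have h5 : ((⌊(x t - θ) / 2⌋ : ℤ) : ℝ) < ((⌊(x (t + 1) - θ) / 2⌋ : ℤ) : ℝ) + 2 := by
      linarith [h.1, h.2]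
    have h6 : ⌊(x t - θ) / 2⌋ < ⌊(x (t + 1) - θ) / 2⌋ + 2 := by exact_mod_cast h5
    omega
  · have h5 : ((⌊(x (t + 1) - θ) / 2⌋ : ℤ) : ℝ) < ((⌊(x t - θ) / 2⌋ : ℤ) : ℝ) + 2 := by
      linarith [h.1, h.2]
    have h6 : ⌊(x (t + 1) - θ) / 2⌋ < ⌊(x t - θ) / 2⌋ + 2 := by exact_mod_cast h5
    omega

theorem col_lt {θ : ℝ} {x : ℕ → ℝ} {a b : ℕ} (h : col θ x a ≤ col θ x b) : x a - x b ≤ 2 := by
  unfold col at h
  have h2 := Int.lt_floor_add_one ((x a - θ) / 2)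
  have h3 := Int.floor_le ((x b - θ) / 2)
  have h4 : ((⌊(x a - θ) / 2⌋ : ℤ) : ℝ) ≤ ((⌊(x b - θ) / 2⌋ : ℤ) : ℝ) := by exact_mod_cast h
  linarith

end Pool.Agent.Lib.MP_04143b_an
end

section

/-! # The cost of a single leg -/

namespace Pool.Agent.Lib.MP_04143b_an

/-- The transfer at a tip of depth `d`. -/
noncomputable def trf (η d vm vp : ℝ) : ℝ :=
  if d ≤ 2 - η then (√(d ^ 2 + vp ^ 2) - √(d ^ 2 + vm ^ 2)) / 2 else 0

/-- The data of a leg from `a` to `b` with the notches at both ends. -/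
structure LD (F y : ℕ → ℝ) (η : ℝ) (p a b q e1 g1 e2 g2 : ℕ) : Prop where
  pos : 0 < η
  small : η ≤ 1 / 20
  step : ∀ t, p ≤ t → t < q → |F (t + 1) - F t| ≤ η
  l1 : Leg (fun t => - F t) p a
  l2 : Leg F a b
  l3 : Leg (fun t => - F t) b q
  n1 : Notch F p a b e1 g1
  n2 : Notch (fun t => - F t) a b q e2 g2

/-- depth of the first tip -/
noncomputable def dd1 (F : ℕ → ℝ) (p a b : ℕ) : ℝ := min (F p) (F b) - 2 - F a

/-- depth of the second tip -/
noncomputable def dd2 (F : ℕ → ℝ) (a b q : ℕ) : ℝ := min (- F a) (- F q) - 2 - (- F b)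

/-- the value of the leg -/
noncomputable def bval (F y : ℕ → ℝ) (η : ℝ) (p a b q e1 g1 e2 g2 : ℕ) : ℝ :=
  ln F y a b + trf η (dd2 F a b q) (xv y e2 b) (xv y b g2) -
    trf η (dd1 F p a b) (xv y e1 a) (xv y a g1)

variable {F y : ℕ → ℝ} {η : ℝ} {p a b q e1 g1 e2 g2 : ℕ}

/-- the basic inequalities -/
theorem LD.basic (D : LD F y η p a b q e1 g1 e2 g2) :
    0 < dd1 F p a b ∧ 0 < dd2 F a b q ∧ 2 + dd1 F p a b ≤ F b - F a ∧
      2 + dd2 F a b q ≤ F b - F a ∧ F a + dd1 F p a b ≤ F g1 ∧ F g1 ≤ F a + dd1 F p a b + η ∧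
      F e2 ≤ F b - dd2 F a b q ∧ F b - dd2 F a b q - η ≤ F e2 ∧ F a + 2 - η ≤ F e2 ∧
      F g1 ≤ F b - 2 + η := by
  have p1 := D.l1.lt
  have p2 := D.l2.lt
  have p3 := D.l3.lt
  have q1 := D.n1.ae
  have q2 := D.n1.ec
  have q3 := D.n1.cg
  have q4 := D.n1.gb
  have r1 := D.n2.ae
  have r2 := D.n2.ec
  have r3 := D.n2.cg
  have r4 := D.n2.gb
  have h1 := D.l1.high (e1 + 1) (by omega) (by omega)
  have h2 := D.l2.high (e2 + 1) (by omega) (by omega)
  have h3 := D.n1.le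
  have h4 := D.n2.le
  have h5 := D.n1.right g1 le_rfl q4
  have h6 := D.n1.ge
  have h7 := D.n2.left e2 r1 le_rfl
  have h8 := D.step (g1 - 1) (by omega) (by omega)
  have h9 := D.step e2 (by omega) (by omega)
  rw [show g1 - 1 + 1 = g1 by omega] at h8
  rw [abs_le] at h8 h9
  have m1 := min_le_right (F p) (F b)
  have m2 := min_le_left (- F a) (- F q)
  unfold dd1 dd2
  refine ⟨?_, ?_, ?_, ?_, ?_, ?_, ?_, ?_, ?_, ?_⟩ <;> linarith

theorem trf_le {d vm vp : ℝ} (hd : 0 ≤ d) (hm : 0 ≤ vm) (hp : 0 ≤ vp) :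
    trf η d vm vp ≤ vp / 2 ∧ - (vm / 2) ≤ trf η d vm vp := by
  unfold trf
  have h1 := ineq_sub hd hm
  have h2 := ineq_sub hd hp
  have h3 : d ≤ √(d ^ 2 + vm ^ 2) := Real.le_sqrt_of_sq_le (by nlinarith [sq_nonneg vm])
  have h4 : d ≤ √(d ^ 2 + vp ^ 2) := Real.le_sqrt_of_sq_le (by nlinarith [sq_nonneg vp])
  split_ifs with h
  · constructor <;> linarith
  · constructor <;> linarith

end Pool.Agent.Lib.MP_04143b_an
end
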