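import Pool.Agent.Lib.MP_04143b_an.Mg.G002
import Pool.Agent.Lib.MP_04143b_an.LowFar
import Pool.Agent.Lib.MP_04143b_an.Mg.G001
import Pool.Agent.Lib.MP_04143b_an.Mg.G005

section

/-! # The lower bound -/

open Set

namespace Pool.Agent.Lib.MP_04143b_an

private theorem Lower_mn {n : ℕ} (hn : 1 ≤ n) (c : ℝ) : (fun _ : ℝ => c) ∈ Mn n := by
  refine ⟨continuousOn_const, 1, hn, fun i => (i : ℝ), by simp, by simp, ?_, ?_⟩
  · intro i _
    push_cast
    linarith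
  · intro i _
    exact Or.inl fun _ _ _ _ _ => le_rfl

theorem lower {n : ℕ} (hn : 1 ≤ n) : 1 / (3 * (n : ℝ) + 10) ≤ EE n := by
  obtain ⟨m, hm1, hm2⟩ : ∃ m : ℕ, n < 2 * m ∧ 2 * m ≤ n + 2 := ⟨n / 2 + 1, by omega, by omega⟩
  obtain ⟨F, hF, hF1, hF2⟩ := comb m
  have hb : Bornology.IsBounded F := by
    obtain ⟨f, hf, -, rfl⟩ := hF
    exact (isCompact_Icc.image_of_continuousOn hf).isBounded
  have h1 : 1 / (3 * (m : ℝ) + 2) / 2 ≤ EF n F := by
    refine le_csInf ?_ ?_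
    · exact ⟨_, (fun t => ((0 : ℝ), (0 : ℝ))) '' Icc (0 : ℝ) 1,
        ⟨fun _ => 0, Lower_mn hn 0, fun _ => 0, Lower_mn hn 0, rfl⟩, rfl⟩
    · rintro b ⟨G, hG, rfl⟩
      by_contra hcon
      push Not at hcon
      have := comb_far hF1 hF2 hb hG hcon
      omega
  have h2 : EF n F ≤ EE n := by
    refine le_csSup ⟨1, ?_⟩ ⟨F, hF, rfl⟩
    rintro b ⟨F', hF', rfl⟩
    exact EF_le_one hn hF'
  refine le_trans ?_ (h1.trans h2)
  have hm' : 2 * (m : ℝ) ≤ n + 2 := by exact_mod_cast hm2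
  rw [div_div]
  apply one_div_le_one_div_of_le
  · positivity
  · nlinarith

end Pool.Agent.Lib.MP_04143b_an
end

section

/-! # Lattice cells: the offset -/

namespace Pool.Agent.Lib.MP_04143b_an

private theorem lato_card (a b : ℝ) (hab : a ≤ b) (K : ℕ) (hK : 0 < K) :
    (((Finset.range K).filter
      (fun j : ℕ => ⌊a - (j : ℝ) / K⌋ ≠ ⌊b - (j : ℝ) / K⌋)).card : ℝ) ≤ K * (b - a) + 1 := by
  have hK' : (0 : ℝ) < K := by exact_mod_cast hK
  have h1 : ((Finset.range K).filter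
      (fun j : ℕ => ⌊a - (j : ℝ) / K⌋ ≠ ⌊b - (j : ℝ) / K⌋)).card ≤
      (Finset.Ioc ⌊K * a⌋ ⌊K * b⌋).card := by
    apply Finset.card_le_card_of_injOn (fun j : ℕ => ⌊b - (j : ℝ) / K⌋ * (K : ℤ) + (j : ℤ))
    · intro j hj
      simp only [Finset.coe_filter, Finset.mem_range, Set.mem_ofPred_eq] at hj
      obtain ⟨hj, hne⟩ := hj
      have hle : ⌊a - (j : ℝ) / K⌋ ≤ ⌊b - (j : ℝ) / K⌋ := Int.floor_le_floor (by linarith)
      have hlt : ⌊a - (j : ℝ) / K⌋ < ⌊b - (j : ℝ) / K⌋ := lt_of_le_of_ne hle hne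
      rw [Int.floor_lt] at hlt
      have h2 := Int.floor_le (b - (j : ℝ) / K)
      simp only [Finset.coe_Ioc, Set.mem_Ioc]
      constructor
      · rw [Int.floor_lt]
        push_cast
        have h3 := mul_lt_mul_of_pos_left hlt hK'
        have e : (K : ℝ) * (a - j / K) = K * a - j := by field_simp
        rw [e] at h3
        linarith
      · rw [Int.le_floor]
        push_cast
        have h3 := mul_le_mul_of_nonneg_left h2 hK'.le
        have e : (K : ℝ) * (b - j / K) = K * b - j := by field_simp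
        rw [e] at h3
        linarith
    · intro i hi j hj hij
      simp only [Finset.coe_filter, Finset.mem_range, Set.mem_ofPred_eq] at hi hj
      simp only at hij
      have h3 : (i : ℤ) - j = (K : ℤ) * (⌊b - (j : ℝ) / K⌋ - ⌊b - (i : ℝ) / K⌋) := by
        rw [mul_sub, mul_comm (K : ℤ), mul_comm (K : ℤ)]
        linarith
      have h5 : |(i : ℤ) - j| < K := by
        rw [abs_lt]
        have := hi.1
        have := hj.1
        constructor <;> omega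
      have := Int.eq_zero_of_abs_lt_dvd ⟨_, h3⟩ h5
      omega
  have hfl : ⌊(K : ℝ) * a⌋ ≤ ⌊(K : ℝ) * b⌋ :=
    Int.floor_le_floor (mul_le_mul_of_nonneg_left hab hK'.le)
  have h4 : (((Finset.Ioc ⌊(K : ℝ) * a⌋ ⌊(K : ℝ) * b⌋).card : ℕ) : ℤ) =
      ⌊(K : ℝ) * b⌋ - ⌊(K : ℝ) * a⌋ := by
    rw [Int.card_Ioc, Int.toNat_of_nonneg (sub_nonneg.2 hfl)]
  have h5 : ((Finset.Ioc ⌊(K : ℝ) * a⌋ ⌊(K : ℝ) * b⌋).card : ℝ) =
      (⌊(K : ℝ) * b⌋ : ℝ) - (⌊(K : ℝ) * a⌋ : ℝ) := by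
    exact_mod_cast congrArg (Int.cast : ℤ → ℝ) h4
  have h6 : (((Finset.range K).filter
      (fun j : ℕ => ⌊a - (j : ℝ) / K⌋ ≠ ⌊b - (j : ℝ) / K⌋)).card : ℝ) ≤
      ((Finset.Ioc ⌊(K : ℝ) * a⌋ ⌊(K : ℝ) * b⌋).card : ℝ) := by exact_mod_cast h1
  have h7 := Int.floor_le ((K : ℝ) * b)
  have h8 := Int.lt_floor_add_one ((K : ℝ) * a)
  rw [h5] at h6
  linarith [mul_sub (K : ℝ) b a]

/-- For a random offset a step of length `d` changes the column with probability `d / 2`. -/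
theorem exists_offset (x : ℕ → ℝ) (N : ℕ) (hx : ∀ t < N, |x (t + 1) - x t| ≤ 1) :
    ∃ θ : ℝ, (((Finset.range N).filter (fun t => col θ x t ≠ col θ x (t + 1))).card : ℝ) ≤
      xv x 0 N / 2 + 1 := by
  by_contra hcon
  push Not at hcon
  have hKpos : (0 : ℝ) < ((N + 1 : ℕ) : ℝ) := by positivity
  have e : ∀ (j : ℕ) (t : ℕ), col (2 * (j : ℝ) / ((N + 1 : ℕ) : ℝ)) x t =
      ⌊x t / 2 - (j : ℝ) / ((N + 1 : ℕ) : ℝ)⌋ := by
    intro j t
    unfold col
    congr 1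
    field_simp
  have h1 : ∀ t, (((Finset.range (N + 1)).filter (fun j : ℕ =>
      col (2 * (j : ℝ) / ((N + 1 : ℕ) : ℝ)) x t ≠
        col (2 * (j : ℝ) / ((N + 1 : ℕ) : ℝ)) x (t + 1))).card : ℝ) ≤
      ((N + 1 : ℕ) : ℝ) * (|x (t + 1) - x t| / 2) + 1 := by
    intro t
    simp only [e]
    rcases le_total (x t) (x (t + 1)) with h | h
    · have h2 := lato_card (x t / 2) (x (t + 1) / 2) (by linarith) (N + 1) (Nat.succ_pos N)
      rw [abs_of_nonneg (by linarith)]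
      refine h2.trans (le_of_eq ?_)
      ring
    · have h2 := lato_card (x (t + 1) / 2) (x t / 2) (by linarith) (N + 1) (Nat.succ_pos N)
      rw [abs_of_nonpos (by linarith)]
      refine le_trans (le_of_eq ?_) (h2.trans (le_of_eq ?_))
      · congr 2
        ext j
        simp only [Finset.mem_filter, ne_comm]
      · ring
  have h2 : ∑ j ∈ Finset.range (N + 1), (((Finset.range N).filter (fun t =>
      col (2 * (j : ℝ) / ((N + 1 : ℕ) : ℝ)) x t ≠
        col (2 * (j : ℝ) / ((N + 1 : ℕ) : ℝ)) x (t + 1))).card : ℝ) =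
      ∑ t ∈ Finset.range N, (((Finset.range (N + 1)).filter (fun j : ℕ =>
      col (2 * (j : ℝ) / ((N + 1 : ℕ) : ℝ)) x t ≠
        col (2 * (j : ℝ) / ((N + 1 : ℕ) : ℝ)) x (t + 1))).card : ℝ) := by
    simp only [Finset.card_filter, Nat.cast_sum]
    exact Finset.sum_comm
  have h3 : ∑ t ∈ Finset.range N, (((Finset.range (N + 1)).filter (fun j : ℕ =>
      col (2 * (j : ℝ) / ((N + 1 : ℕ) : ℝ)) x t ≠
        col (2 * (j : ℝ) / ((N + 1 : ℕ) : ℝ)) x (t + 1))).card : ℝ) ≤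
      ((N + 1 : ℕ) : ℝ) * (xv x 0 N / 2) + N := by
    refine (Finset.sum_le_sum fun t _ => h1 t).trans (le_of_eq ?_)
    rw [Finset.sum_add_distrib, ← Finset.mul_sum, ← Finset.sum_div, Finset.sum_const,
      Finset.card_range, nsmul_eq_mul, mul_one]
    unfold xv
    rw [Finset.range_eq_Ico]
  have h4 : ((N + 1 : ℕ) : ℝ) * (xv x 0 N / 2 + 1) ≤
      ∑ j ∈ Finset.range (N + 1), (((Finset.range N).filter (fun t =>
      col (2 * (j : ℝ) / ((N + 1 : ℕ) : ℝ)) x t ≠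
        col (2 * (j : ℝ) / ((N + 1 : ℕ) : ℝ)) x (t + 1))).card : ℝ) := by
    have h5 := Finset.card_nsmul_le_sum (Finset.range (N + 1)) (fun j : ℕ =>
      (((Finset.range N).filter (fun t =>
      col (2 * (j : ℝ) / ((N + 1 : ℕ) : ℝ)) x t ≠
        col (2 * (j : ℝ) / ((N + 1 : ℕ) : ℝ)) x (t + 1))).card : ℝ)) (xv x 0 N / 2 + 1)
      (fun j _ => (hcon _).le)
    rwa [Finset.card_range, nsmul_eq_mul] at h5
  rw [h2] at h4
  have h6 := h4.trans h3
  push_cast at h6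
  linarith

end Pool.Agent.Lib.MP_04143b_an
end
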