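import Pool.Agent.Lib.MP_04143b_an.Defs

section

/-! # Piecewise linear interpolation -/

open Set

namespace Pool.Agent.Lib.MP_04143b_an

/-- truncation to `[0,1]` -/
noncomputable def clamp (z : ℝ) : ℝ := max 0 (min z 1)

/-- The piecewise linear function on `[0,1]` with value `X i` at `i / M`, for `i = 0, ..., M`. -/
noncomputable def lin (X : ℕ → ℝ) (M : ℕ) (t : ℝ) : ℝ :=
  X 0 + ∑ i ∈ Finset.range M, (X (i + 1) - X i) * clamp (t * M - i)

theorem clamp_mono : Monotone clamp := by
  intro a b h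
  unfold clamp
  gcongr

theorem clamp_of_le {z : ℝ} (h : z ≤ 0) : clamp z = 0 := by
  unfold clamp
  rw [max_eq_left]
  exact (min_le_left _ _).trans h

theorem clamp_of_ge {z : ℝ} (h : 1 ≤ z) : clamp z = 1 := by
  unfold clamp
  rw [min_eq_right h, max_eq_right zero_le_one]

theorem clamp_of_mem {z : ℝ} (h0 : 0 ≤ z) (h1 : z ≤ 1) : clamp z = z := by
  unfold clamp
  rw [min_eq_left h1, max_eq_right h0]

private theorem clamp_continuous : Continuous clamp := by
  unfold clamp
  fun_prop

theorem lin_continuous (X : ℕ → ℝ) (M : ℕ) : Continuous (lin X M) := by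
  unfold lin
  refine continuous_const.add (continuous_finsetSum _ fun i _ => continuous_const.mul ?_)
  exact clamp_continuous.comp (by fun_prop)

/-- the sum when `i ≤ z ≤ i + 1`, `z = t * M` -/
private theorem lin_sum_aux (X : ℕ → ℝ) {z : ℝ} {i : ℕ} (h0 : (i : ℝ) ≤ z) (h1 : z ≤ i + 1) :
    ∀ n : ℕ, ∑ j ∈ Finset.range n, (X (j + 1) - X j) * clamp (z - j) =
      if n ≤ i then X n - X 0 else X i - X 0 + (z - i) * (X (i + 1) - X i) := by
  intro n
  induction n with
  | zero => simp
  | succ n ih =>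
    rw [Finset.sum_range_succ, ih]
    rcases lt_trichotomy n i with h | h | h
    · have e1 : n ≤ i := h.le
      have e2 : n + 1 ≤ i := h
      have e3 : ((n : ℝ) + 1) ≤ i := by exact_mod_cast h
      rw [if_pos e1, if_pos e2, clamp_of_ge (by linarith)]
      ring
    · subst h
      rw [if_pos le_rfl, if_neg (by omega), clamp_of_mem (by linarith) (by linarith)]
      ring
    · have e3 : ((i : ℝ) + 1) ≤ n := by exact_mod_cast h
      rw [if_neg (by omega), if_neg (by omega), clamp_of_le (by linarith)]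
      ring

theorem lin_at (X : ℕ → ℝ) {M i : ℕ} (hM : 1 ≤ M) (hi : i ≤ M) : lin X M ((i : ℝ) / M) = X i := by
  have hM0 : (M : ℝ) ≠ 0 := by positivity
  unfold lin
  have e : (i : ℝ) / M * M = i := by field_simp
  rw [e]
  rcases hi.lt_or_eq with h | h
  · rw [lin_sum_aux X (z := i) (i := i) le_rfl (by linarith), if_neg (by omega)]
    ring
  · subst h
    rw [lin_sum_aux X (z := i) (i := i) le_rfl (by linarith), if_pos le_rfl]
    ring

/-- On each piece the function is linear; the index `i` and the parameter `u` do not depend on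
`X`. -/
theorem lin_piece {M : ℕ} (hM : 1 ≤ M) {t : ℝ} (ht : t ∈ Icc (0 : ℝ) 1) :
    ∃ i < M, ∃ u ∈ Icc (0 : ℝ) 1, t = (i + u) / M ∧
      ∀ X : ℕ → ℝ, lin X M t = (1 - u) * X i + u * X (i + 1) := by
  have hMpos : (0 : ℝ) < M := by exact_mod_cast hM
  have hz0 : 0 ≤ t * M := mul_nonneg ht.1 hMpos.le
  have hz1 : t * M ≤ M := by nlinarith [ht.2]
  have hex : ∃ i < M, (i : ℝ) ≤ t * M ∧ t * M ≤ i + 1 := by
    rcases lt_or_ge (t * M) M with h | h
    · refine ⟨⌊t * M⌋₊, (Nat.floor_lt hz0).2 h, Nat.floor_le hz0, (Nat.lt_floor_add_one _).le⟩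
    · refine ⟨M - 1, by omega, ?_, ?_⟩
      · rw [Nat.cast_sub hM]; push_cast; linarith
      · rw [Nat.cast_sub hM]; push_cast; linarith
  obtain ⟨i, hi, h0, h1⟩ := hex
  refine ⟨i, hi, t * M - i, ⟨by linarith, by linarith⟩, ?_, ?_⟩
  · field_simp
    ring
  · intro X
    unfold lin
    rw [lin_sum_aux X h0 h1, if_neg (by omega)]
    ring

theorem sum_clamp {M : ℕ} {t : ℝ} (ht : t ∈ Icc (0 : ℝ) 1) :
    ∑ i ∈ Finset.range M, clamp (t * M - i) = t * M := by
  rcases Nat.eq_zero_or_pos M with h | h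
  · subst h
    simp
  · obtain ⟨i, hi, u, hu, htu, hl⟩ := lin_piece h ht
    have hM0 : (M : ℝ) ≠ 0 := by positivity
    have h1 := hl (fun j => (j : ℝ))
    unfold lin at h1
    push_cast at h1
    simp only [add_sub_cancel_left, one_mul, zero_add] at h1
    rw [h1, htu]
    field_simp
    ring

end Pool.Agent.Lib.MP_04143b_an
end

section

/-! # The comb -/

open Set

namespace Pool.Agent.Lib.MP_04143b_an

private theorem comb_diff (X : ℕ → ℝ) (M : ℕ) (s t : ℝ) :
    lin X M t - lin X M s =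
      ∑ i ∈ Finset.range M, (X (i + 1) - X i) * (clamp (t * M - i) - clamp (s * M - i)) := by
  unfold lin
  rw [add_sub_add_left_eq_sub, ← Finset.sum_sub_distrib]
  apply Finset.sum_congr rfl
  intro i _
  ring

/-- The comb with the teeth `k = 0, ..., m` of length `l = 1 / (3 m + 2)`. -/
theorem comb (m : ℕ) : ∃ F ∈ Gamma1, (∀ k ≤ m, ((1 / (3 * m + 2 : ℝ)), (k : ℝ) / (3 * m + 2)) ∈ F) ∧
    ∀ p ∈ F, p.1 = 0 ∨ ∃ k : ℕ, p.2 = (k : ℝ) / (3 * m + 2) := by
  set M : ℕ := 3 * m + 2 with hM
  have hM1 : 1 ≤ M := by omega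
  have hMr : (M : ℝ) = 3 * m + 2 := by rw [hM]; push_cast; ring
  have hMpos : (0 : ℝ) < M := by exact_mod_cast hM1
  set l : ℝ := 1 / (M : ℝ) with hl
  have hl0 : 0 < l := by positivity
  set X : ℕ → ℝ := fun i => if i % 3 = 1 then l else 0 with hX
  set Y : ℕ → ℝ := fun i => ((i / 3 : ℕ) : ℝ) * l with hY
  set f : ℝ → ℝ × ℝ := fun t => (lin X M t, lin Y M t) with hf
  have hstep : ∀ i, |X (i + 1) - X i| + |Y (i + 1) - Y i| ≤ l := by
    intro i
    have h3 : i % 3 = 0 ∨ i % 3 = 1 ∨ i % 3 = 2 := by omega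
    rcases h3 with h | h | h
    · have e1 : (i + 1) % 3 = 1 := by omega
      have e2 : (i + 1) / 3 = i / 3 := by omega
      simp only [hX, hY, e1, e2, h]
      simp [abs_of_pos hl0]
    · have e1 : (i + 1) % 3 = 2 := by omega
      have e2 : (i + 1) / 3 = i / 3 := by omega
      simp only [hX, hY, e1, e2, h]
      simp [abs_of_pos hl0]
    · have e1 : (i + 1) % 3 = 0 := by omega
      have e2 : (i + 1) / 3 = i / 3 + 1 := by omega
      simp only [hX, hY, e1, e2, h]
      push_cast
      have : ((i / 3 : ℕ) + 1 : ℝ) * l - ((i / 3 : ℕ) : ℝ) * l = l := by ring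
      rw [this]
      simp [abs_of_pos hl0]
  have hlip : ∀ s ∈ Icc (0 : ℝ) 1, ∀ t ∈ Icc (0 : ℝ) 1, s ≤ t →
      edist (WithLp.toLp 2 (f t)) (WithLp.toLp 2 (f s)) ≤ ENNReal.ofReal (t - s) := by
    intro s hs t ht hst
    rw [edist_dist]
    apply ENNReal.ofReal_le_ofReal
    rw [WithLp.prod_dist_eq_of_L2]
    have h1 : dist (f t).1 (f s).1 + dist (f t).2 (f s).2 ≤ t - s := by
      have hmono : ∀ i : ℕ, 0 ≤ clamp (t * M - i) - clamp (s * M - i) := by
        intro i
        rw [sub_nonneg]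
        apply clamp_mono
        gcongr
      have a1 : dist (f t).1 (f s).1 ≤
          ∑ i ∈ Finset.range M, |X (i + 1) - X i| * (clamp (t * M - i) - clamp (s * M - i)) := by
        rw [Real.dist_eq]
        simp only [hf]
        rw [comb_diff]
        refine (Finset.abs_sum_le_sum_abs _ _).trans (le_of_eq ?_)
        apply Finset.sum_congr rfl
        intro i _
        rw [abs_mul, abs_of_nonneg (hmono i)]
      have a2 : dist (f t).2 (f s).2 ≤
          ∑ i ∈ Finset.range M, |Y (i + 1) - Y i| * (clamp (t * M - i) - clamp (s * M - i)) := by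
        rw [Real.dist_eq]
        simp only [hf]
        rw [comb_diff]
        refine (Finset.abs_sum_le_sum_abs _ _).trans (le_of_eq ?_)
        apply Finset.sum_congr rfl
        intro i _
        rw [abs_mul, abs_of_nonneg (hmono i)]
      refine (add_le_add a1 a2).trans ?_
      rw [← Finset.sum_add_distrib]
      have a3 : ∑ i ∈ Finset.range M, (|X (i + 1) - X i| * (clamp (t * M - i) - clamp (s * M - i)) +
          |Y (i + 1) - Y i| * (clamp (t * M - i) - clamp (s * M - i))) ≤
          ∑ i ∈ Finset.range M, l * (clamp (t * M - i) - clamp (s * M - i)) := by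
        apply Finset.sum_le_sum
        intro i _
        rw [← add_mul]
        exact mul_le_mul_of_nonneg_right (hstep i) (hmono i)
      refine a3.trans (le_of_eq ?_)
      rw [← Finset.mul_sum, Finset.sum_sub_distrib, sum_clamp ht, sum_clamp hs, hl]
      field_simp
    have hb1 : (0 : ℝ) ≤ dist (f t).1 (f s).1 := dist_nonneg
    have hb2 : (0 : ℝ) ≤ dist (f t).2 (f s).2 := dist_nonneg
    refine le_trans ?_ h1
    apply Real.sqrt_le_iff.2
    constructor
    · positivity
    · show dist (f t).1 (f s).1 ^ 2 + dist (f t).2 (f s).2 ^ 2 ≤ _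
      nlinarith [mul_nonneg hb1 hb2]
  have hcont : ContinuousOn f (Icc 0 1) :=
    ((lin_continuous X M).prodMk (lin_continuous Y M)).continuousOn
  have hlen : length f ≤ 1 := by
    unfold length eVariationOn
    apply iSup_le
    rintro ⟨n, u, hu, hmem⟩
    show ∑ i ∈ Finset.range n, edist (WithLp.toLp 2 (f (u (i + 1)))) (WithLp.toLp 2 (f (u i))) ≤ 1
    calc ∑ i ∈ Finset.range n, edist (WithLp.toLp 2 (f (u (i + 1)))) (WithLp.toLp 2 (f (u i)))
        ≤ ∑ i ∈ Finset.range n, ENNReal.ofReal (u (i + 1) - u i) := by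
          apply Finset.sum_le_sum
          intro i _
          exact hlip _ (hmem i) _ (hmem (i + 1)) (hu (Nat.le_succ i))
      _ = ENNReal.ofReal (∑ i ∈ Finset.range n, (u (i + 1) - u i)) := by
          rw [ENNReal.ofReal_sum_of_nonneg]
          intro i _
          rw [sub_nonneg]
          exact hu (Nat.le_succ i)
      _ = ENNReal.ofReal (u n - u 0) := by rw [Finset.sum_range_sub]
      _ ≤ 1 := by
          rw [ENNReal.ofReal_le_one]
          have := (hmem n).2
          have := (hmem 0).1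
          linarith
  refine ⟨f '' Icc 0 1, ⟨f, hcont, hlen, rfl⟩, ?_, ?_⟩
  · intro k hk
    have hi : 3 * k + 1 ≤ M := by omega
    refine ⟨((3 * k + 1 : ℕ) : ℝ) / M, ⟨by positivity, ?_⟩, ?_⟩
    · rw [div_le_one hMpos]
      exact_mod_cast hi
    · simp only [hf]
      rw [lin_at X hM1 hi, lin_at Y hM1 hi]
      have e1 : (3 * k + 1) % 3 = 1 := by omega
      have e2 : (3 * k + 1) / 3 = k := by omega
      simp only [hX, hY, e1, e2, hl, hMr]
      ext
      · simp
      · simp
        ring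
  · rintro p ⟨t, ht, rfl⟩
    obtain ⟨i, hi, u, hu, htu, hlin⟩ := lin_piece hM1 ht
    simp only [hf]
    rw [hlin X, hlin Y]
    have h3 : i % 3 = 0 ∨ i % 3 = 1 ∨ i % 3 = 2 := by omega
    rcases h3 with h | h | h
    · right
      refine ⟨i / 3, ?_⟩
      have e2 : (i + 1) / 3 = i / 3 := by omega
      simp only [hY, e2, hl, hMr]
      ring
    · right
      refine ⟨i / 3, ?_⟩
      have e2 : (i + 1) / 3 = i / 3 := by omega
      simp only [hY, e2, hl, hMr]
      ring
    · left
      have e1 : (i + 1) % 3 = 0 := by omega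
      simp only [hX, e1, h]
      simp

end Pool.Agent.Lib.MP_04143b_an
end

section

/-! # Monotone pieces of the interpolation -/

open Set

namespace Pool.Agent.Lib.MP_04143b_an

theorem lin_monotoneOn {X : ℕ → ℝ} {M a b : ℕ} (hM : 1 ≤ M) (hb : b ≤ M)
    (h : MonotoneOn X (Icc a b)) : MonotoneOn (lin X M) (Icc ((a : ℝ) / M) ((b : ℝ) / M)) := by
  have _ := hb
  have hMpos : (0 : ℝ) < M := by exact_mod_cast hM
  intro s hs t ht hst
  have hs1 : (a : ℝ) ≤ s * M := (div_le_iff₀ hMpos).1 hs.1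
  have ht2 : t * M ≤ (b : ℝ) := (le_div_iff₀ hMpos).1 ht.2
  have hstM : s * M ≤ t * M := mul_le_mul_of_nonneg_right hst hMpos.le
  unfold lin
  apply add_le_add le_rfl
  apply Finset.sum_le_sum
  intro i _
  by_cases h1 : i + 1 ≤ a
  · have h1' : (i : ℝ) + 1 ≤ a := by exact_mod_cast h1
    rw [clamp_of_ge (z := s * M - i) (by linarith), clamp_of_ge (z := t * M - i) (by linarith)]
  · by_cases h2 : b ≤ i
    · have h2' : (b : ℝ) ≤ i := by exact_mod_cast h2
      rw [clamp_of_le (z := s * M - i) (by linarith), clamp_of_le (z := t * M - i) (by linarith)]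
    · have h3 : X i ≤ X (i + 1) :=
        h ⟨by omega, by omega⟩ ⟨by omega, by omega⟩ (Nat.le_succ i)
      exact mul_le_mul_of_nonneg_left (clamp_mono (by linarith)) (by linarith)

theorem lin_antitoneOn {X : ℕ → ℝ} {M a b : ℕ} (hM : 1 ≤ M) (hb : b ≤ M)
    (h : AntitoneOn X (Icc a b)) : AntitoneOn (lin X M) (Icc ((a : ℝ) / M) ((b : ℝ) / M)) := by
  have h1 : MonotoneOn (fun i => - X i) (Icc a b) := h.neg
  have h2 := lin_monotoneOn hM hb h1
  have h3 : ∀ t, lin (fun i => - X i) M t = - lin X M t := by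
    intro t
    unfold lin
    rw [neg_add, ← Finset.sum_neg_distrib]
    congr 1
    apply Finset.sum_congr rfl
    intro i _
    ring
  intro s hs t ht hst
  have h4 := h2 hs ht hst
  rw [h3, h3] at h4
  linarith

end Pool.Agent.Lib.MP_04143b_an
end
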