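import Pool.Agent.Lib.MP_04143b_an.Defs

section

/-! # Zigzags and sections -/

open Set

namespace Pool.Agent.Lib.MP_04143b_an

private theorem LowZig_aux {k : ℕ} {t : ℕ → ℝ} (h0 : t 0 = 0) (hk : t k = 1)
    (ht : ∀ i < k, t i < t (i + 1)) (φ : ℝ → ℝ) {u v : ℝ} (hu : 0 ≤ u) (huv : u < v) (hv : v ≤ 1)
    (h : φ v < φ u) : ∃ j < k, ∃ a b, t j ≤ a ∧ a < b ∧ b ≤ t (j + 1) ∧ u ≤ a ∧ b ≤ v ∧
      φ b < φ a := by
  by_contra hcon
  push Not at hcon
  have h1 : ∀ j ≤ k, φ u ≤ φ (max u (min (t j) v)) := by
    intro j
    induction j with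
    | zero =>
      intro _
      rw [h0, max_eq_left ((min_le_left _ _).trans hu)]
    | succ j ih =>
      intro hj
      refine (ih (by omega)).trans ?_
      have hjk : j < k := hj
      have h2 : max u (min (t j) v) ≤ max u (min (t (j + 1)) v) :=
        max_le_max le_rfl (min_le_min (ht j hjk).le le_rfl)
      rcases h2.lt_or_eq with h3 | h3
      · have h4 : max u (min (t (j + 1)) v) ≤ v := max_le huv.le (min_le_right _ _)
        have h5 : u ≤ max u (min (t j) v) := le_max_left _ _
        refine hcon j hjk _ _ ?_ h3 ?_ h5 h4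
        · have h6 : min (t j) v ≤ max u (min (t j) v) := le_max_right _ _
          rcases le_total (t j) v with h7 | h7
          · rwa [min_eq_left h7] at h6 ⊢
          · rw [min_eq_right h7] at h6
            rw [min_eq_right h7] at h3
            linarith
        · rcases le_total u (min (t (j + 1)) v) with h7 | h7
          · rw [max_eq_right h7]
            exact min_le_left _ _
          · rw [max_eq_left h7] at h3
            linarith
      · rw [h3]
  have h2 := h1 k le_rfl
  rw [hk, min_eq_right hv, max_eq_right huv.le] at h2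
  linarith

/-- A function with `n` sections of monotonicity has zigzags with at most `n` links. -/
theorem zig_sections {n K : ℕ} {φ : ℝ → ℝ} (h : HasSections n φ) {u : ℕ → ℝ}
    (hu : ∀ i < K, u i < u (i + 1)) (h0 : 0 ≤ u 0) (h1 : u K ≤ 1)
    (he : ∀ i < K, Even i → φ (u (i + 1)) < φ (u i)) (ho : ∀ i < K, Odd i → φ (u i) < φ (u (i + 1))) :
    K ≤ n := by
  obtain ⟨k, hkn, t, ht0, htk, ht, hmon⟩ := h
  have htmono : ∀ b, b ≤ k → ∀ a ≤ b, t a ≤ t b := by
    intro b
    induction b with
    | zero => intro _ a ha; rw [Nat.le_zero.1 ha]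
    | succ b ih =>
      intro hb a ha
      rcases Nat.lt_or_ge a (b + 1) with h2 | h2
      · exact (ih (by omega) a (by omega)).trans (ht b (by omega)).le
      · rw [Nat.le_antisymm ha h2]
  have humono : ∀ b, b ≤ K → ∀ a ≤ b, u a ≤ u b := by
    intro b
    induction b with
    | zero => intro _ a ha; rw [Nat.le_zero.1 ha]
    | succ b ih =>
      intro hb a ha
      rcases Nat.lt_or_ge a (b + 1) with h2 | h2
      · exact (ih (by omega) a (by omega)).trans (hu b (by omega)).le
      · rw [Nat.le_antisymm ha h2]
  have hlink : ∀ i < K, ∃ j < k, ∃ a b, t j ≤ a ∧ a < b ∧ b ≤ t (j + 1) ∧ u i ≤ a ∧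
      b ≤ u (i + 1) ∧ (Even i → φ b < φ a) ∧ (Odd i → φ a < φ b) := by
    intro i hi
    have h2 : 0 ≤ u i := h0.trans (humono i hi.le 0 (Nat.zero_le _))
    have h3 : u (i + 1) ≤ 1 := (humono K le_rfl (i + 1) hi).trans h1
    rcases Nat.even_or_odd i with h4 | h4
    · obtain ⟨j, hj, a, b, h5, h6, h7, h8, h9, h10⟩ :=
        LowZig_aux ht0 htk ht φ h2 (hu i hi) h3 (he i hi h4)
      exact ⟨j, hj, a, b, h5, h6, h7, h8, h9, fun _ => h10,
        fun h11 => absurd h4 (Nat.not_even_iff_odd.2 h11)⟩
    · obtain ⟨j, hj, a, b, h5, h6, h7, h8, h9, h10⟩ :=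
        LowZig_aux ht0 htk ht (fun z => - φ z) h2 (hu i hi) h3 (neg_lt_neg (ho i hi h4))
      exact ⟨j, hj, a, b, h5, h6, h7, h8, h9,
        fun h11 => absurd h11 (Nat.not_even_iff_odd.2 h4), fun _ => neg_lt_neg_iff.1 h10⟩
  choose! j hj a b hta hab hbt hua hbu hEv hOd using hlink
  have hji : ∀ i < K, i ≤ j i := by
    intro i
    induction i with
    | zero => intro _; exact Nat.zero_le _
    | succ i ih =>
      intro hi
      have hi' : i < K := by omega
      have h2 := ih hi'
      rcases Nat.lt_or_ge (j i) (j (i + 1)) with h3 | h3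
      · omega
      · exfalso
        rcases Nat.eq_or_lt_of_le h3 with h4 | h4
        · -- the same section
          have h5 : a i ∈ Icc (t (j i)) (t (j i + 1)) :=
            ⟨hta i hi', (hab i hi').le.trans (hbt i hi')⟩
          have h6 : b i ∈ Icc (t (j i)) (t (j i + 1)) :=
            ⟨(hta i hi').trans (hab i hi').le, hbt i hi'⟩
          have h7 : a (i + 1) ∈ Icc (t (j i)) (t (j i + 1)) := by
            rw [← h4]
            exact ⟨hta _ hi, (hab _ hi).le.trans (hbt _ hi)⟩
          have h8 : b (i + 1) ∈ Icc (t (j i)) (t (j i + 1)) := by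
            rw [← h4]
            exact ⟨(hta _ hi).trans (hab _ hi).le, hbt _ hi⟩
          rcases Nat.even_or_odd i with h9 | h9
          · have h10 := hEv i hi' h9
            have h11 := hOd (i + 1) hi h9.add_one
            rcases hmon (j i) (hj i hi') with h12 | h12
            · exact absurd (h12 h5 h6 (hab i hi').le) (not_le.2 h10)
            · exact absurd (h12 h7 h8 (hab _ hi).le) (not_le.2 h11)
          · have h10 := hOd i hi' h9
            have h11 := hEv (i + 1) hi h9.add_one
            rcases hmon (j i) (hj i hi') with h12 | h12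
            · exact absurd (h12 h7 h8 (hab _ hi).le) (not_le.2 h11)
            · exact absurd (h12 h5 h6 (hab i hi').le) (not_le.2 h10)
        · have h5 : t (j (i + 1) + 1) ≤ t (j i) := htmono (j i) (hj i hi').le _ h4
          have h6 := hta i hi'
          have h7 := hab i hi'
          have h8 := hbu i hi'
          have h9 := hua (i + 1) hi
          have h10 := hab (i + 1) hi
          have h11 := hbt (i + 1) hi
          linarith
  rcases Nat.eq_zero_or_pos K with h2 | h2
  · omega
  · have h3 := hji (K - 1) (by omega)
    have h4 := hj (K - 1) (by omega)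
    omega

end Pool.Agent.Lib.MP_04143b_an
end

section

/-! # Interval lists -/

namespace Pool.Agent.Lib.MP_04143b_an

theorem mem_iv {a b t : ℕ} : t ∈ iv a b ↔ a ≤ t ∧ t ≤ b := by
  unfold iv
  rw [List.mem_range'_1]
  omega

theorem iv_eq_nil {a b : ℕ} (h : b < a) : iv a b = [] := by
  unfold iv
  have : b + 1 - a = 0 := by omega
  rw [this]; rfl

theorem iv_cons {a b : ℕ} (h : a ≤ b) : iv a b = a :: iv (a + 1) b := by
  unfold iv
  have : b + 1 - a = (b + 1 - (a + 1)) + 1 := by omega
  rw [this]; rfl

theorem iv_self (a : ℕ) : iv a a = [a] := by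
  rw [iv_cons le_rfl, iv_eq_nil (by omega)]

theorem iv_append {a b c : ℕ} (h1 : a ≤ b + 1) (h2 : b ≤ c) : iv a b ++ iv (b + 1) c = iv a c := by
  unfold iv
  have h3 : b + 1 = a + 1 * (b + 1 - a) := by omega
  have h4 : c + 1 - a = (b + 1 - a) + (c + 1 - (b + 1)) := by omega
  rw [h4, List.range'_append_1.symm]
  congr 2
  omega

theorem iv_pairwise (a b : ℕ) : (iv a b).Pairwise (· < ·) := List.pairwise_lt_range'

theorem iv_head {a b : ℕ} (h : a ≤ b) : (iv a b).head? = some a := by
  rw [iv_cons h]; rfl

theorem iv_getLast {a b : ℕ} (h : a ≤ b) : (iv a b).getLast? = some b := by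
  rcases Nat.eq_zero_or_pos b with hb | hb
  · subst hb
    have : a = 0 := by omega
    subst this
    simp [iv]
  · have h2 : b - 1 + 1 = b := by omega
    have h1 := iv_append (show a ≤ (b - 1) + 1 by omega) (show b - 1 ≤ b by omega)
    rw [h2, iv_self] at h1
    rw [← h1]
    simp

theorem iv_isChain {R : ℕ → ℕ → Prop} {a b : ℕ} (h : ∀ t, a ≤ t → t < b → R t (t + 1)) :
    (iv a b).IsChain R := by
  by_cases hab : a ≤ b
  · obtain ⟨n, rfl⟩ := Nat.exists_eq_add_of_le hab
    induction n generalizing a with
    | zero => rw [Nat.add_zero, iv_self]; simp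
    | succ n ih =>
      rw [iv_cons (by omega), iv_cons (by omega), List.isChain_cons_cons]
      refine ⟨h a le_rfl (by omega), ?_⟩
      rw [← iv_cons (by omega)]
      have := @ih (a + 1) (fun t h1 h2 => h t (by omega) (by omega)) (by omega)
      rwa [show a + 1 + n = a + (n + 1) by omega] at this
  · rw [iv_eq_nil (by omega)]; simp

end Pool.Agent.Lib.MP_04143b_an
end

section

/-! # Lattice cells: windows -/

namespace Pool.Agent.Lib.MP_04143b_an

/-- A list of lists along which `c` is alternately nondecreasing and nonincreasing. -/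
def MAlts (c : ℕ → ℤ) : Bool → List (List ℕ) → Prop
  | _, [] => True
  | true, S :: L => S.Pairwise (fun a b => c a ≤ c b) ∧ MAlts c false L
  | false, S :: L => S.Pairwise (fun a b => c b ≤ c a) ∧ MAlts c true L

private theorem latW_append (c : ℕ → ℤ) : ∀ (S L : List (List ℕ)) (d : Bool),
    MAlts c d (S ++ L) ↔ MAlts c d S ∧ MAlts c (if S.length % 2 = 0 then d else !d) L
  | [], L, d => by cases d <;> simp [MAlts]
  | s :: S, L, d => by
    rcases Nat.mod_two_eq_zero_or_one S.length with h | h
    · have h' : (s :: S).length % 2 = 1 := by rw [List.length_cons]; omega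
      cases d
      · rw [List.cons_append, MAlts, MAlts, latW_append c S L true, h, h']
        simp [and_assoc]
      · rw [List.cons_append, MAlts, MAlts, latW_append c S L false, h, h']
        simp [and_assoc]
    · have h' : (s :: S).length % 2 = 0 := by rw [List.length_cons]; omega
      cases d
      · rw [List.cons_append, MAlts, MAlts, latW_append c S L true, h, h']
        simp [and_assoc]
      · rw [List.cons_append, MAlts, MAlts, latW_append c S L false, h, h']
        simp [and_assoc]

private theorem latW_card_succ (P : ℕ → Prop) [DecidablePred P] (N : ℕ) :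
    ((Finset.range (N + 1)).filter P).card =
      ((Finset.range N).filter P).card + (if P N then 1 else 0) := by
  rw [Finset.range_add_one, Finset.filter_insert]
  split_ifs with h
  · rw [Finset.card_insert_of_notMem]
    simp
  · simp

private theorem latW_card_congr {w w' : ℕ → ℤ} {N : ℕ} (h : ∀ t ≤ N, w t = w' t) :
    ((Finset.range N).filter (fun t => w t ≠ w (t + 1))).card =
      ((Finset.range N).filter (fun t => w' t ≠ w' (t + 1))).card := by
  congr 1
  apply Finset.filter_congr
  intro t ht
  rw [Finset.mem_range] at ht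
  rw [h t (by omega), h (t + 1) (by omega)]

private theorem latW_main (c : ℕ → ℤ) (N : ℕ) (hc : ∀ t < N, |c (t + 1) - c t| ≤ 1) :
    ∃ (A R : ℕ) (w : ℕ → ℤ) (S : List (List ℕ)) (T : List ℕ),
      A + R = ((Finset.range N).filter (fun t => c t ≠ c (t + 1))).card ∧
      ((Finset.range N).filter (fun t => w t ≠ w (t + 1))).card ≤ A ∧
      (∀ t < N, |w (t + 1) - w t| ≤ 1) ∧
      (∀ t ≤ N, c t = w t ∨ c t = w t + 1) ∧
      (S ++ [T ++ [N]]).flatten = iv 0 N ∧ S.length = R ∧ MAlts c false S ∧
      ((c N = w N ∧ R % 2 = 0 ∧ (T ++ [N]).Pairwise (fun a b => c b ≤ c a)) ∨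
       (c N = w N + 1 ∧ R % 2 = 1 ∧ (T ++ [N]).Pairwise (fun a b => c a ≤ c b))) := by
  induction N with
  | zero =>
    refine ⟨0, 0, c, [], [], by simp, by simp, by simp, by simp, by simp [iv_self], rfl, by simp [MAlts],
      Or.inl ⟨rfl, rfl, by simp⟩⟩
  | succ N ih =>
    obtain ⟨A, R, w, S, T, h1, h2, h3, h4, h5, h6, h7, h8⟩ := ih (fun t ht => hc t (by omega))
    have hstep := hc N (by omega)
    rw [abs_le] at hstep
    have hiv : iv 0 (N + 1) = iv 0 N ++ [N + 1] := by
      rw [← iv_append (show 0 ≤ N + 1 by omega) (show N ≤ N + 1 by omega), iv_self]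
    rcases h8 with ⟨h8, hR, hP⟩ | ⟨h8, hR, hP⟩
    · -- low position
      have hlast : ∀ a ∈ T ++ [N], c N ≤ c a := by
        intro a ha
        rw [List.mem_append, List.mem_singleton] at ha
        rcases ha with ha | ha
        · rw [List.pairwise_append] at hP
          exact hP.2.2 a ha N (by simp)
        · rw [ha]
      rcases lt_or_ge (c N) (c (N + 1)) with hlt | hge
      · -- up: reverse step
        let w' : ℕ → ℤ := fun t => if t ≤ N then w t else w N
        have hw' : ∀ t ≤ N, w t = w' t := fun t ht => by simp [w', ht]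
        have hwN : w' (N + 1) = w N := by simp [w']
        refine ⟨A, R + 1, w', S ++ [T ++ [N]], [], ?_, ?_, ?_, ?_, ?_, ?_, ?_, ?_⟩
        · rw [latW_card_succ, if_pos (by omega), ← h1]; omega
        · rw [latW_card_succ, ← latW_card_congr hw', if_neg (by rw [hwN, ← hw' N le_rfl]; simp)]
          simpa using h2
        · intro t ht
          rcases Nat.lt_succ_iff_lt_or_eq.mp ht with ht | rfl
          · rw [← hw' t ht.le, ← hw' (t + 1) ht]; exact h3 t ht
          · rw [hwN, ← hw' t le_rfl]; simp
        · intro t ht
          rcases (show t ≤ N ∨ t = N + 1 by omega) with ht | rfl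
          · rw [← hw' t ht]; exact h4 t ht
          · rw [hwN]; omega
        · rw [hiv, ← h5]; simp
        · simp [h6]
        · rw [latW_append, h6, hR]
          exact ⟨h7, by simpa [MAlts] using hP⟩
        · right
          exact ⟨by rw [hwN]; omega, by omega, by simp⟩
      · rcases eq_or_lt_of_le hge with heq | hlt
        · -- constant
          let w' : ℕ → ℤ := fun t => if t ≤ N then w t else w N
          have hw' : ∀ t ≤ N, w t = w' t := fun t ht => by simp [w', ht]
          have hwN : w' (N + 1) = w N := by simp [w']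
          refine ⟨A, R, w', S, T ++ [N], ?_, ?_, ?_, ?_, ?_, ?_, ?_, ?_⟩
          · rw [latW_card_succ, if_neg (by omega), ← h1]; omega
          · rw [latW_card_succ, ← latW_card_congr hw', if_neg (by rw [hwN, ← hw' N le_rfl]; simp)]
            simpa using h2
          · intro t ht
            rcases Nat.lt_succ_iff_lt_or_eq.mp ht with ht | rfl
            · rw [← hw' t ht.le, ← hw' (t + 1) ht]; exact h3 t ht
            · rw [hwN, ← hw' t le_rfl]; simp
          · intro t ht
            rcases (show t ≤ N ∨ t = N + 1 by omega) with ht | rfl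
            · rw [← hw' t ht]; exact h4 t ht
            · rw [hwN]; omega
          · rw [hiv, ← h5]; simp
          · exact h6
          · exact h7
          · left
            refine ⟨by rw [hwN]; omega, hR, ?_⟩
            rw [List.pairwise_append]
            refine ⟨hP, by simp, fun a ha b hb => ?_⟩
            rw [List.mem_singleton] at hb
            rw [hb, heq]
            exact hlast a ha
        · -- down: move step
          let w' : ℕ → ℤ := fun t => if t ≤ N then w t else w N - 1
          have hw' : ∀ t ≤ N, w t = w' t := fun t ht => by simp [w', ht]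
          have hwN : w' (N + 1) = w N - 1 := by simp [w']
          refine ⟨A + 1, R, w', S, T ++ [N], ?_, ?_, ?_, ?_, ?_, ?_, ?_, ?_⟩
          · rw [latW_card_succ, if_pos (by omega), ← h1]; omega
          · rw [latW_card_succ, ← latW_card_congr hw']
            split_ifs <;> omega
          · intro t ht
            rcases Nat.lt_succ_iff_lt_or_eq.mp ht with ht | rfl
            · rw [← hw' t ht.le, ← hw' (t + 1) ht]; exact h3 t ht
            · rw [hwN, ← hw' t le_rfl]; rw [abs_le]; constructor <;> omega
          · intro t ht
            rcases (show t ≤ N ∨ t = N + 1 by omega) with ht | rfl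
            · rw [← hw' t ht]; exact h4 t ht
            · rw [hwN]; omega
          · rw [hiv, ← h5]; simp
          · exact h6
          · exact h7
          · left
            refine ⟨by rw [hwN]; omega, hR, ?_⟩
            rw [List.pairwise_append]
            refine ⟨hP, by simp, fun a ha b hb => ?_⟩
            rw [List.mem_singleton] at hb
            rw [hb]
            exact hlt.le.trans (hlast a ha)
    · -- high position
      have hlast : ∀ a ∈ T ++ [N], c a ≤ c N := by
        intro a ha
        rw [List.mem_append, List.mem_singleton] at ha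
        rcases ha with ha | ha
        · rw [List.pairwise_append] at hP
          exact hP.2.2 a ha N (by simp)
        · rw [ha]
      rcases lt_or_ge (c (N + 1)) (c N) with hlt | hge
      · -- down: reverse step
        let w' : ℕ → ℤ := fun t => if t ≤ N then w t else w N
        have hw' : ∀ t ≤ N, w t = w' t := fun t ht => by simp [w', ht]
        have hwN : w' (N + 1) = w N := by simp [w']
        refine ⟨A, R + 1, w', S ++ [T ++ [N]], [], ?_, ?_, ?_, ?_, ?_, ?_, ?_, ?_⟩
        · rw [latW_card_succ, if_pos (by omega), ← h1]; omega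
        · rw [latW_card_succ, ← latW_card_congr hw', if_neg (by rw [hwN, ← hw' N le_rfl]; simp)]
          simpa using h2
        · intro t ht
          rcases Nat.lt_succ_iff_lt_or_eq.mp ht with ht | rfl
          · rw [← hw' t ht.le, ← hw' (t + 1) ht]; exact h3 t ht
          · rw [hwN, ← hw' t le_rfl]; simp
        · intro t ht
          rcases (show t ≤ N ∨ t = N + 1 by omega) with ht | rfl
          · rw [← hw' t ht]; exact h4 t ht
          · rw [hwN]; omega
        · rw [hiv, ← h5]; simp
        · simp [h6]
        · rw [latW_append, h6, hR]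
          exact ⟨h7, by simpa [MAlts] using hP⟩
        · left
          exact ⟨by rw [hwN]; omega, by omega, by simp⟩
      · rcases eq_or_lt_of_le hge with heq | hlt
        · -- constant
          let w' : ℕ → ℤ := fun t => if t ≤ N then w t else w N
          have hw' : ∀ t ≤ N, w t = w' t := fun t ht => by simp [w', ht]
          have hwN : w' (N + 1) = w N := by simp [w']
          refine ⟨A, R, w', S, T ++ [N], ?_, ?_, ?_, ?_, ?_, ?_, ?_, ?_⟩
          · rw [latW_card_succ, if_neg (by omega), ← h1]; omega
          · rw [latW_card_succ, ← latW_card_congr hw', if_neg (by rw [hwN, ← hw' N le_rfl]; simp)]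
            simpa using h2
          · intro t ht
            rcases Nat.lt_succ_iff_lt_or_eq.mp ht with ht | rfl
            · rw [← hw' t ht.le, ← hw' (t + 1) ht]; exact h3 t ht
            · rw [hwN, ← hw' t le_rfl]; simp
          · intro t ht
            rcases (show t ≤ N ∨ t = N + 1 by omega) with ht | rfl
            · rw [← hw' t ht]; exact h4 t ht
            · rw [hwN]; omega
          · rw [hiv, ← h5]; simp
          · exact h6
          · exact h7
          · right
            refine ⟨by rw [hwN]; omega, hR, ?_⟩
            rw [List.pairwise_append]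
            refine ⟨hP, by simp, fun a ha b hb => ?_⟩
            rw [List.mem_singleton] at hb
            rw [hb, ← heq]
            exact hlast a ha
        · -- up: move step
          let w' : ℕ → ℤ := fun t => if t ≤ N then w t else w N + 1
          have hw' : ∀ t ≤ N, w t = w' t := fun t ht => by simp [w', ht]
          have hwN : w' (N + 1) = w N + 1 := by simp [w']
          refine ⟨A + 1, R, w', S, T ++ [N], ?_, ?_, ?_, ?_, ?_, ?_, ?_, ?_⟩
          · rw [latW_card_succ, if_pos (by omega), ← h1]; omega
          · rw [latW_card_succ, ← latW_card_congr hw']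
            split_ifs <;> omega
          · intro t ht
            rcases Nat.lt_succ_iff_lt_or_eq.mp ht with ht | rfl
            · rw [← hw' t ht.le, ← hw' (t + 1) ht]; exact h3 t ht
            · rw [hwN, ← hw' t le_rfl]; rw [abs_le]; constructor <;> omega
          · intro t ht
            rcases (show t ≤ N ∨ t = N + 1 by omega) with ht | rfl
            · rw [← hw' t ht]; exact h4 t ht
            · rw [hwN]; omega
          · rw [hiv, ← h5]; simp
          · exact h6
          · exact h7
          · right
            refine ⟨by rw [hwN]; omega, hR, ?_⟩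
            rw [List.pairwise_append]
            refine ⟨hP, by simp, fun a ha b hb => ?_⟩
            rw [List.mem_singleton] at hb
            rw [hb]
            exact (hlast a ha).trans hlt.le

/-- The walk `c` stays in a window `{w, w + 1}`, which moves `A` times; the other `R` steps reverse
the direction. -/
theorem windows (c : ℕ → ℤ) (N : ℕ) (hc : ∀ t < N, |c (t + 1) - c t| ≤ 1) :
    ∃ (A R : ℕ) (w : ℕ → ℤ) (S : List (List ℕ)),
      A + R = ((Finset.range N).filter (fun t => c t ≠ c (t + 1))).card ∧
      ((Finset.range N).filter (fun t => w t ≠ w (t + 1))).card ≤ A ∧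
      (∀ t < N, |w (t + 1) - w t| ≤ 1) ∧
      (∀ t ≤ N, c t = w t ∨ c t = w t + 1) ∧
      S.flatten = iv 0 N ∧ S.length ≤ R + 1 ∧ MAlts c false S := by
  obtain ⟨A, R, w, S, T, h1, h2, h3, h4, h5, h6, h7, h8⟩ := latW_main c N hc
  refine ⟨A, R, w, S ++ [T ++ [N]], h1, h2, h3, h4, h5, by simp [h6], ?_⟩
  rw [latW_append, h6]
  refine ⟨h7, ?_⟩
  rcases h8 with ⟨-, hR, hP⟩ | ⟨-, hR, hP⟩
  · rw [hR]
    simpa [MAlts] using hP
  · rw [hR]
    simpa [MAlts] using hP

end Pool.Agent.Lib.MP_04143b_an
end
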