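import Pool.Agent.Lib.MP_04143b_an.Mg.G003

section

/-! # Basic facts on zigzags -/

namespace Pool.Agent.Lib.MP_04143b_an

theorem zig_neg (f : ℕ → ℝ) (s : Bool) (c : List ℕ) :
    Zig (fun t => - f t) s c ↔ Zig f (!s) c := by
  induction c generalizing s with
  | nil => cases s <;> simp [Zig]
  | cons a c ih =>
    cases c with
    | nil => cases s <;> simp [Zig]
    | cons b l =>
      cases s with
      | true =>
        have h := ih false
        simp only [Zig, Bool.not_true, Bool.not_false] at h ⊢
        rw [h, show (- f a - - f b) = f b - f a by ring]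
      | false =>
        have h := ih true
        simp only [Zig, Bool.not_true, Bool.not_false] at h ⊢
        rw [h, show (- f b - - f a) = f a - f b by ring]

theorem zle_neg {f : ℕ → ℝ} {l : List ℕ} {k : ℕ} : ZLe (fun t => - f t) l k ↔ ZLe f l k := by
  constructor
  · intro h s c hc hz
    exact h (!s) c hc ((zig_neg f (!s) c).2 (by rwa [Bool.not_not]))
  · intro h s c hc hz
    exact h (!s) c hc ((zig_neg f s c).1 hz)

theorem noDrop_neg {f : ℕ → ℝ} {l : List ℕ} : NoDrop (fun t => - f t) l ↔ NoRise f l := by
  unfold NoDrop NoRise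
  have : (fun a b => - f a - - f b ≤ 2) = (fun a b => f b - f a ≤ 2) := by
    funext a b
    rw [show (- f a - - f b) = f b - f a by ring]
  rw [this]

theorem noRise_neg {f : ℕ → ℝ} {l : List ℕ} : NoRise (fun t => - f t) l ↔ NoDrop f l := by
  unfold NoDrop NoRise
  have : (fun a b => - f b - - f a ≤ 2) = (fun a b => f a - f b ≤ 2) := by
    funext a b
    rw [show (- f b - - f a) = f a - f b by ring]
  rw [this]

theorem alts_neg {f : ℕ → ℝ} {s : Bool} {S : List (List ℕ)} :
    Alts (fun t => - f t) s S ↔ Alts f (!s) S := by
  induction S generalizing s with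
  | nil => cases s <;> simp [Alts]
  | cons a S ih =>
    cases s with
    | true => simp only [Alts, Bool.not_true]; rw [ih, noDrop_neg]; rfl
    | false => simp only [Alts, Bool.not_false]; rw [ih, noRise_neg]; rfl

theorem dir_add (s : Bool) (i j : ℕ) : dir s (i + j) = dir (dir s i) j := by
  induction j with
  | zero => rfl
  | succ j ih => rw [← Nat.add_assoc]; simp only [dir]; rw [ih]

theorem dir_two_mul (s : Bool) (j : ℕ) : dir s (2 * j) = s := by
  induction j with
  | zero => rfl
  | succ j ih =>
    rw [show 2 * (j + 1) = 2 * j + 1 + 1 by ring]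
    simp only [dir, Bool.not_not]
    exact ih

private theorem Zg_dir_succ (s : Bool) (n : ℕ) : dir s (n + 1) = dir (!s) n := by
  rw [Nat.add_comm, dir_add]; rfl

theorem alts_append {f : ℕ → ℝ} {s : Bool} {S T : List (List ℕ)} :
    Alts f s (S ++ T) ↔ Alts f s S ∧ Alts f (dir s S.length) T := by
  induction S generalizing s with
  | nil => cases s <;> simp [Alts, dir]
  | cons a S ih =>
    rw [List.length_cons, Zg_dir_succ]
    cases s with
    | true =>
      simp only [List.cons_append, Alts, Bool.not_true]
      rw [ih, and_assoc]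
    | false =>
      simp only [List.cons_append, Alts, Bool.not_false]
      rw [ih, and_assoc]

theorem sg_sg (s : Bool) (f : ℕ → ℝ) : sg s (sg s f) = f := by
  funext t
  cases s <;> simp [sg]

theorem sg_not (s : Bool) (f : ℕ → ℝ) : sg (!s) f = fun t => - sg s f t := by
  funext t
  cases s <;> simp [sg]

theorem zle_sg {f : ℕ → ℝ} {s : Bool} {l : List ℕ} {k : ℕ} : ZLe (sg s f) l k ↔ ZLe f l k := by
  cases s with
  | true =>
    have : sg true f = f := by funext t; simp [sg]
    rw [this]
  | false =>
    have : sg false f = fun t => - f t := by funext t; simp [sg]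
    rw [this, zle_neg]

theorem adj_sg {x y : ℕ → ℝ} {s : Bool} {l : List ℕ} : Adj (sg s x) y l ↔ Adj x y l := by
  have : (fun a b => |sg s x a - sg s x b| ≤ 2 ∧ |y a - y b| ≤ 2) =
      (fun a b => |x a - x b| ≤ 2 ∧ |y a - y b| ≤ 2) := by
    funext a b
    have h : |sg s x a - sg s x b| = |x a - x b| := by
      cases s with
      | true => simp [sg]
      | false =>
        simp only [sg, Bool.false_eq_true, if_false]
        rw [show (- x a - - x b) = - (x a - x b) by ring, abs_neg]
    rw [h]
  unfold Adj
  rw [this]

theorem adj_swap {x y : ℕ → ℝ} {l : List ℕ} : Adj y x l ↔ Adj x y l := by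
  have : (fun a b => |y a - y b| ≤ 2 ∧ |x a - x b| ≤ 2) =
      (fun a b => |x a - x b| ≤ 2 ∧ |y a - y b| ≤ 2) := by
    funext a b
    rw [and_comm]
  unfold Adj
  rw [this]

theorem zle_mono {f : ℕ → ℝ} {l : List ℕ} {k k' : ℕ} (h : ZLe f l k) (hk : k ≤ k') :
    ZLe f l k' := fun s c hc hz => (h s c hc hz).trans hk

theorem zle_length (f : ℕ → ℝ) (l : List ℕ) : ZLe f l l.length :=
  fun _ _ hc _ => hc.length_le

/-- The tail of a zigzag is a zigzag. -/
theorem Zig.tail {f : ℕ → ℝ} {s : Bool} {a : ℕ} {c : List ℕ} (h : Zig f s (a :: c)) :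
    Zig f (!s) c := by
  cases c with
  | nil => cases s <;> simp [Zig]
  | cons b l =>
    cases s with
    | true => simp only [Zig] at h; exact h.2
    | false => simp only [Zig] at h; exact h.2

/-- Replacing the first element of a zigzag by a more extreme one. -/
theorem Zig.replace_head {f : ℕ → ℝ} {s : Bool} {a a' : ℕ} {c : List ℕ} (h : Zig f s (a :: c))
    (ha : sg s f a ≤ sg s f a') : Zig f s (a' :: c) := by
  cases c with
  | nil => cases s <;> simp [Zig]
  | cons b l =>
    cases s with
    | true =>
      simp only [Zig] at h ⊢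
      simp only [sg, if_true] at ha
      exact ⟨by linarith [h.1], h.2⟩
    | false =>
      simp only [Zig] at h ⊢
      simp only [sg, Bool.false_eq_true, if_false] at ha
      exact ⟨by linarith [h.1], h.2⟩

end Pool.Agent.Lib.MP_04143b_an
end

section

namespace Pool.Agent.Lib.MP_04143b_an

/-- If a list is cut into groups of elements whose values differ by at most `2`, then a zigzag has
at most one element in each group. -/
theorem zle_groups {f : ℕ → ℝ} {G : List (List ℕ)}
    (h : ∀ l ∈ G, ∀ a ∈ l, ∀ b ∈ l, |f a - f b| ≤ 2) : ZLe f G.flatten G.length := by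
  induction G with
  | nil =>
    intro s c hc _
    have : c = [] := by simpa using hc
    subst this
    simp
  | cons S L ih =>
    intro s c hc hz
    have ih' := ih (fun l hl => h l (by simp [hl]))
    rw [List.flatten_cons, List.sublist_append_iff] at hc
    obtain ⟨c1, c2, rfl, h1, h2⟩ := hc
    rw [List.length_cons]
    match c1, h1, hz with
    | [], _, hz =>
      have := ih' s c2 h2 (by simpa using hz)
      simp only [List.nil_append]
      omega
    | [a], _, hz =>
      have h3 : Zig f (!s) c2 := Zig.tail (by simpa using hz)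
      have := ih' (!s) c2 h2 h3
      simp only [List.cons_append, List.nil_append, List.length_cons]
      omega
    | a :: b :: c1', h1, hz =>
      exfalso
      have ha : a ∈ S := h1.subset (by simp)
      have hb : b ∈ S := h1.subset (by simp)
      have h3 := abs_le.1 (h S (by simp) a ha b hb)
      cases s with
      | true =>
        simp only [List.cons_append, Zig] at hz
        linarith [hz.1, h3.2]
      | false =>
        simp only [List.cons_append, Zig] at hz
        linarith [hz.1, h3.1]

end Pool.Agent.Lib.MP_04143b_an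
end

section

namespace Pool.Agent.Lib.MP_04143b_an

private theorem detour_glue {f : ℕ → ℝ} {s : Bool} {A B : List ℕ} {a : ℕ} :
    Zig f s (A ++ a :: B) ↔ Zig f s (A ++ [a]) ∧ Zig f (dir s A.length) (a :: B) := by
  induction A generalizing s with
  | nil =>
    change Zig f s (a :: B) ↔ Zig f s [a] ∧ Zig f s (a :: B)
    constructor
    · intro h
      exact ⟨by cases s <;> trivial, h⟩
    · exact fun h => h.2
  | cons b A ih =>
    have hd : dir s (b :: A).length = dir (!s) A.length := by
      rw [List.length_cons, Nat.add_comm, dir_add]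
      rfl
    rw [hd]
    have ih' := ih (s := !s)
    cases A with
    | nil =>
      change Zig f s (b :: a :: B) ↔ Zig f s [b, a] ∧ Zig f (!s) (a :: B)
      cases s
      · change (2 < f a - f b ∧ Zig f true (a :: B)) ↔ (2 < f a - f b ∧ True) ∧
          Zig f true (a :: B)
        tauto
      · change (2 < f b - f a ∧ Zig f false (a :: B)) ↔ (2 < f b - f a ∧ True) ∧
          Zig f false (a :: B)
        tauto
    | cons c A =>
      cases s
      · change (2 < f c - f b ∧ Zig f true (c :: A ++ a :: B)) ↔
          (2 < f c - f b ∧ Zig f true (c :: A ++ [a])) ∧ Zig f (dir true (c :: A).length) (a :: B)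
        have ih2 : Zig f true (c :: A ++ a :: B) ↔
          Zig f true (c :: A ++ [a]) ∧ Zig f (dir true (c :: A).length) (a :: B) := ih'
        rw [ih2]
        tauto
      · change (2 < f b - f c ∧ Zig f false (c :: A ++ a :: B)) ↔
          (2 < f b - f c ∧ Zig f false (c :: A ++ [a])) ∧
            Zig f (dir false (c :: A).length) (a :: B)
        have ih2 : Zig f false (c :: A ++ a :: B) ↔
          Zig f false (c :: A ++ [a]) ∧ Zig f (dir false (c :: A).length) (a :: B) := ih'
        rw [ih2]
        tauto

private theorem detour_suffix {f : ℕ → ℝ} {s : Bool} {A B : List ℕ} (h : Zig f s (A ++ B)) :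
    Zig f (dir s A.length) B := by
  cases B with
  | nil => cases dir s A.length <;> trivial
  | cons b B => exact (detour_glue.1 h).2

private theorem detour_front {f : ℕ → ℝ} {s : Bool} {A B : List ℕ} (h : Zig f s (A ++ B)) :
    Zig f s A := by
  induction A generalizing s with
  | nil => cases s <;> trivial
  | cons a A ih =>
    cases A with
    | nil => cases s <;> trivial
    | cons b A =>
      cases s
      · exact ⟨h.1, ih h.2⟩
      · exact ⟨h.1, ih h.2⟩

private theorem detour_last {f : ℕ → ℝ} {s : Bool} {A : List ℕ} {a a' : ℕ}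
    (h : Zig f s (A ++ [a])) (ha : sg (dir s A.length) f a ≤ sg (dir s A.length) f a') :
    Zig f s (A ++ [a']) := by
  induction A generalizing s with
  | nil => cases s <;> trivial
  | cons b A ih =>
    have hd : dir s (b :: A).length = dir (!s) A.length := by
      rw [List.length_cons, Nat.add_comm, dir_add]
      rfl
    rw [hd] at ha
    cases A with
    | nil =>
      cases s
      · have h1 : 2 < f a - f b := h.1
        have h2 : f a ≤ f a' := ha
        exact ⟨by linarith, trivial⟩
      · have h1 : 2 < f b - f a := h.1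
        have h2 : - f a ≤ - f a' := ha
        exact ⟨by linarith, trivial⟩
    | cons c A =>
      cases s
      · exact ⟨h.1, ih h.2 ha⟩
      · exact ⟨h.1, ih h.2 ha⟩

/-- bounds for the zigzags of a list with a given start -/
private def DetB (f : ℕ → ℝ) (R : List ℕ) (a b : ℕ) : Prop :=
  (∀ d : List ℕ, d.Sublist R → Zig f true d → d.length ≤ a) ∧
    ∀ d : List ℕ, d.Sublist R → Zig f false d → d.length ≤ b

private theorem detB_drop {f : ℕ → ℝ} {Q R : List ℕ} {a b a' b' : ℕ} (h : DetB f R a b)
    (hQ : NoDrop f Q) (h1 : a ≤ a') (h2 : b + 1 ≤ a') (h3 : b + 2 ≤ b') (h4 : a + 1 ≤ b') :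
    DetB f (Q ++ R) a' b' := by
  have key : ∀ d : List ℕ, ∀ x z : ℕ, (x :: z :: d).Sublist Q → ¬ 2 < f x - f z := by
    intro d x z hs hlt
    have h5 := hQ.sublist hs
    rw [List.pairwise_cons] at h5
    have h6 := h5.1 z (by simp)
    linarith
  constructor
  · intro d hd hz
    obtain ⟨d1, d2, rfl, hd1, hd2⟩ := List.sublist_append_iff.1 hd
    rcases d1 with _ | ⟨x, _ | ⟨z, d1⟩⟩
    · have := h.1 d2 hd2 hz
      simp only [List.nil_append]
      omega
    · have := h.2 d2 hd2 (detour_suffix (A := [x]) hz)
      simp only [List.cons_append, List.nil_append, List.length_cons]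
      omega
    · exact absurd (hz : 2 < f x - f z ∧ _).1 (key d1 x z hd1)
  · intro d hd hz
    obtain ⟨d1, d2, rfl, hd1, hd2⟩ := List.sublist_append_iff.1 hd
    rcases d1 with _ | ⟨x, _ | ⟨z, _ | ⟨w, d1⟩⟩⟩
    · have := h.2 d2 hd2 hz
      simp only [List.nil_append]
      omega
    · have := h.1 d2 hd2 (detour_suffix (A := [x]) hz)
      simp only [List.cons_append, List.nil_append, List.length_cons]
      omega
    · have := h.2 d2 hd2 (detour_suffix (A := [x, z]) hz)
      simp only [List.cons_append, List.nil_append, List.length_cons]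
      omega
    · have h5 : 2 < f z - f w := (hz : _ ∧ (2 < f z - f w ∧ _)).2.1
      exact absurd h5 (key d1 z w (List.sublist_of_cons_sublist hd1))

private theorem detB_rise {f : ℕ → ℝ} {Q R : List ℕ} {a b a' b' : ℕ} (h : DetB f R a b)
    (hQ : NoRise f Q) (h1 : b ≤ b') (h2 : a + 1 ≤ b') (h3 : a + 2 ≤ a') (h4 : b + 1 ≤ a') :
    DetB f (Q ++ R) a' b' := by
  have h' : DetB (fun t => - f t) R b a :=
    ⟨fun d hd hz => h.2 d hd ((zig_neg f true d).1 hz),
      fun d hd hz => h.1 d hd ((zig_neg f false d).1 hz)⟩
  have h5 := detB_drop h' (noDrop_neg.2 hQ) h1 h2 h3 h4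
  exact ⟨fun d hd hz => h5.2 d hd ((zig_neg f false d).2 hz),
    fun d hd hz => h5.1 d hd ((zig_neg f true d).2 hz)⟩

private theorem detour_pair {f : ℕ → ℝ} {P : List ℕ} (hPd : NoDrop f P) {a b : ℕ} (ha : a ∈ P)
    (hb : b ∈ P) (h : 2 < f b - f a) : [a, b].Sublist P := by
  obtain ⟨P1, P2, rfl⟩ := List.append_of_mem ha
  rw [List.mem_append, List.mem_cons] at hb
  rcases hb with hb | rfl | hb
  · have h1 := (List.pairwise_append.1 hPd).2.2 b hb a (by simp)
    linarith
  · linarith
  · have h1 : [b].Sublist P2 := List.singleton_sublist.2 hb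
    exact (h1.cons_cons a).trans (List.sublist_append_right P1 (a :: P2))

/-- A detour increases the length of the zigzags by at most `2`. -/
theorem zle_detour_up {f : ℕ → ℝ} {u w P Q1 Q2 Q3 : List ℕ} {k : ℕ}
    (hP : P.Pairwise (· < ·)) (hPd : NoDrop f P)
    (h1 : ∀ t ∈ Q1, t ∈ P) (h2 : ∀ t ∈ Q2, t ∈ P) (h3 : ∀ t ∈ Q3, t ∈ P)
    (d1 : NoDrop f Q1) (d2 : NoRise f Q2) (d3 : NoDrop f Q3)
    (hz : ZLe f (u ++ P ++ w) k) : ZLe f (u ++ (Q1 ++ Q2 ++ Q3) ++ w) (k + 2) := by
  have hB : DetB f (Q1 ++ Q2 ++ Q3) 3 4 := by
    have hB0 : DetB f ([] : List ℕ) 0 0 :=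
      ⟨fun d hd _ => by rw [List.sublist_nil.1 hd]; exact le_rfl,
        fun d hd _ => by rw [List.sublist_nil.1 hd]; exact le_rfl⟩
    have hB3 : DetB f (Q3 ++ []) 1 2 := detB_drop hB0 d3 (by omega) (by omega) (by omega) (by omega)
    have hB2 : DetB f (Q2 ++ (Q3 ++ [])) 3 2 :=
      detB_rise hB3 d2 (by omega) (by omega) (by omega) (by omega)
    have hB1 : DetB f (Q1 ++ (Q2 ++ (Q3 ++ []))) 3 4 :=
      detB_drop hB2 d1 (by omega) (by omega) (by omega) (by omega)
    rw [List.append_nil] at hB1
    rw [List.append_assoc]
    exact hB1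
  intro s c hc hzc
  rw [List.append_assoc] at hc
  obtain ⟨cu, c', rfl, hcu, hc'⟩ := List.sublist_append_iff.1 hc
  obtain ⟨d, cw, rfl, hd, hcw⟩ := List.sublist_append_iff.1 hc'
  have hmem : ∀ t ∈ d, t ∈ P := by
    intro t ht
    have h5 := hd.subset ht
    rw [List.mem_append, List.mem_append] at h5
    rcases h5 with (h5 | h5) | h5
    · exact h1 t h5
    · exact h2 t h5
    · exact h3 t h5
  -- the new zigzag
  have fin : ∀ (A D B : List ℕ), A.Sublist u → D.Sublist P → B.Sublist w →
      Zig f s (A ++ (D ++ B)) → A.length + D.length + B.length ≤ k := by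
    intro A D B hA hD hB' hZ
    have h5 : (A ++ (D ++ B)).Sublist (u ++ P ++ w) := by
      rw [List.append_assoc]
      exact hA.append (hD.append hB')
    have h6 := hz s _ h5 hZ
    rw [List.length_append, List.length_append] at h6
    omega
  have hZd : Zig f (dir s cu.length) d := detour_front (detour_suffix hzc)
  have hlen : (cu ++ (d ++ cw)).length = cu.length + d.length + cw.length := by
    rw [List.length_append, List.length_append]
    omega
  rw [hlen]
  -- replacing three elements by one
  have three : ∀ (a b e m' : ℕ) , d = [a, b, e] → m' ∈ P →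
      sg (dir s cu.length) f a ≤ sg (dir s cu.length) f m' →
      sg (dir s cu.length) f e ≤ sg (dir s cu.length) f m' →
      cu.length + d.length + cw.length ≤ k + 2 := by
    intro a b e m' hd' hm' ha he
    rw [hd'] at hzc ⊢
    have hz1 : Zig f s (cu ++ a :: ([b, e] ++ cw)) := hzc
    have hz2 : Zig f s ((cu ++ [a, b]) ++ (e :: cw)) := by
      rw [List.append_assoc]
      exact hzc
    have hz3 := detour_last (detour_glue.1 hz1).1 ha
    have hz4 := detour_suffix hz2
    have hdir : dir s (cu ++ [a, b]).length = dir s cu.length := by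
      rw [List.length_append, dir_add]
      exact dir_two_mul _ 1
    rw [hdir] at hz4
    have hz5 := hz4.replace_head he
    have := fin cu [m'] cw hcu (List.singleton_sublist.2 hm') hcw (detour_glue.2 ⟨hz3, hz5⟩)
    simp only [List.length_cons, List.length_nil] at this ⊢
    omega
  rcases hs : d with _ | ⟨a, _ | ⟨b, _ | ⟨e, _ | ⟨g, d'⟩⟩⟩⟩
  · rw [hs] at hzc
    have := fin cu [] cw hcu (List.nil_sublist _) hcw hzc
    simp only [List.length_nil] at this ⊢
    omega
  · rw [hs] at hzc
    have := fin cu [a] cw hcu (List.singleton_sublist.2 (hmem a (by simp [hs]))) hcw hzc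
    simp only [List.length_cons, List.length_nil] at this ⊢
    omega
  · rw [hs] at hzc hZd
    cases ht : dir s cu.length with
    | false =>
      rw [ht] at hZd
      have h5 : 2 < f b - f a := hZd.1
      have := fin cu [a, b] cw hcu (detour_pair hPd (hmem a (by simp [hs]))
        (hmem b (by simp [hs])) h5) hcw hzc
      simp only [List.length_cons, List.length_nil] at this ⊢
      omega
    | true =>
      rcases List.eq_nil_or_concat cu with hcu0 | ⟨A, l, hcu0⟩
      · have hz1 : Zig f s ((cu ++ [a, b]) ++ cw) := by
          rw [List.append_assoc]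
          exact hzc
        have hz2 := detour_suffix hz1
        have hdir : dir s (cu ++ [a, b]).length = s := by
          rw [hcu0]
          exact dir_two_mul s 1
        rw [hdir] at hz2
        have := fin [] [] cw (List.nil_sublist _) (List.nil_sublist _) hcw hz2
        rw [hcu0]
        simp only [List.length_cons, List.length_nil] at this ⊢
        omega
      · rw [List.concat_eq_append] at hcu0
        rw [hcu0] at hzc ht hcu ⊢
        have htA : dir s A.length = false := by
          rw [List.length_append, List.length_singleton] at ht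
          have h6 : dir s (A.length + 1) = !(dir s A.length) := rfl
          rw [h6] at ht
          simpa using ht
        have hz1 : Zig f s (A ++ l :: ([a, b] ++ cw)) := by
          rw [List.append_assoc] at hzc
          exact hzc
        have hg := detour_glue.1 hz1
        have hz2 : Zig f s ((A ++ [l, a]) ++ b :: cw) := by
          rw [List.append_assoc]
          exact hz1
        have hz3 := detour_suffix hz2
        have hdir : dir s (A ++ [l, a]).length = false := by
          rw [List.length_append, dir_add, htA]
          exact dir_two_mul false 1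
        rw [hdir] at hz3
        have hAu : A.Sublist u := (List.sublist_append_left A [l]).trans hcu
        rcases le_or_gt (f l) (f b) with hlb | hlb
        · have hz4 : Zig f false (l :: cw) := hz3.replace_head (by
            change - f b ≤ - f l
            linarith)
          have hz5 : Zig f s (A ++ l :: cw) := detour_glue.2 ⟨hg.1, by rw [htA]; exact hz4⟩
          have := fin (A ++ [l]) [] cw hcu (List.nil_sublist _) hcw (by
            rw [List.append_assoc]
            exact hz5)
          simp only [List.length_append, List.length_cons, List.length_nil] at this ⊢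
          omega
        · have hz4 : Zig f s (A ++ [b]) := detour_last hg.1 (by
            rw [htA]
            change - f l ≤ - f b
            linarith)
          have hz5 : Zig f s (A ++ b :: cw) := detour_glue.2 ⟨hz4, by rw [htA]; exact hz3⟩
          have := fin A [b] cw hAu (List.singleton_sublist.2 (hmem b (by simp [hs]))) hcw hz5
          simp only [List.length_append, List.length_cons, List.length_nil] at this ⊢
          omega
  · have ha := hmem a (by simp [hs])
    have he := hmem e (by simp [hs])
    rw [← hs]
    rcases le_total (sg (dir s cu.length) f a) (sg (dir s cu.length) f e) with h5 | h5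
    · exact three a b e e hs he h5 le_rfl
    · exact three a b e a hs ha le_rfl h5
  · -- four elements
    cases ht : dir s cu.length with
    | true =>
      rw [ht] at hZd
      have h5 := hB.1 d hd hZd
      rw [hs] at h5
      simp only [List.length_cons] at h5
      omega
    | false =>
      have h5 := hB.2 d hd (by rw [← ht]; exact hZd)
      rw [hs] at h5
      have hd' : d' = [] := by
        rcases d' with _ | ⟨q, d'⟩
        · rfl
        · simp only [List.length_cons] at h5
          omega
      subst hd'
      have ha := hmem a (by simp [hs])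
      have hb := hmem b (by simp [hs])
      have hg' := hmem g (by simp [hs])
      rw [ht, hs] at hZd
      have k1 : 2 < f b - f a := hZd.1
      rw [hs] at hzc
      have hz1 : Zig f s (cu ++ a :: ([b, e, g] ++ cw)) := hzc
      have hz2 : Zig f s ((cu ++ [a, b, e]) ++ (g :: cw)) := by
        rw [List.append_assoc]
        exact hzc
      have hz3 := (detour_glue.1 hz1).1
      have hz4 := detour_suffix hz2
      have hdir : dir s (cu ++ [a, b, e]).length = true := by
        rw [List.length_append, dir_add, ht]
        rfl
      rw [hdir] at hz4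
      obtain ⟨m', hm', hm1, hm2⟩ : ∃ m' ∈ P, f b ≤ f m' ∧ f g ≤ f m' := by
        rcases le_total (f b) (f g) with h6 | h6
        · exact ⟨g, hg', h6, le_rfl⟩
        · exact ⟨b, hb, le_rfl, h6⟩
      have hz5 : Zig f true (m' :: cw) := hz4.replace_head (by
        change f g ≤ f m'
        exact hm2)
      have k2 : 2 < f m' - f a := by linarith
      have hz6 : Zig f false (a :: m' :: cw) := ⟨k2, hz5⟩
      have := fin cu [a, m'] cw hcu (detour_pair hPd ha hm' k2) hcw
        (detour_glue.2 ⟨hz3, by rw [ht]; exact hz6⟩)
      simp only [List.length_cons, List.length_nil] at this ⊢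
      omega

/-- The same for the reversed order (apply `zle_detour_up` to `-f`). -/
theorem zle_detour_down {f : ℕ → ℝ} {u w P Q1 Q2 Q3 : List ℕ} {k : ℕ}
    (hP : P.Pairwise (· < ·)) (hPd : NoRise f P)
    (h1 : ∀ t ∈ Q1, t ∈ P) (h2 : ∀ t ∈ Q2, t ∈ P) (h3 : ∀ t ∈ Q3, t ∈ P)
    (d1 : NoRise f Q1) (d2 : NoDrop f Q2) (d3 : NoRise f Q3)
    (hz : ZLe f (u ++ P ++ w) k) : ZLe f (u ++ (Q1 ++ Q2 ++ Q3) ++ w) (k + 2) := by
  have h := @zle_detour_up (fun t => - f t) u w P Q1 Q2 Q3 k hP (noDrop_neg.2 hPd) h1 h2 h3
    (noDrop_neg.2 d1) (noRise_neg.2 d2) (noDrop_neg.2 d3) (zle_neg.2 hz)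
  exact zle_neg.1 h

end Pool.Agent.Lib.MP_04143b_an
end
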