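import Pool.Agent.Lib.MP_04143b_an.Mg.G006
import Pool.Agent.Lib.MP_04143b_an.Mg.G004
import Pool.Agent.Lib.MP_04143b_an.Mg.G003

section

namespace Pool.Agent.Lib.MP_04143b_an

private theorem zgAlts_pair {f : ℕ → ℝ} {s : Bool} {a b : ℕ} {c : List ℕ}
    (h : Zig f s (a :: b :: c)) : 2 < sg s f a - sg s f b := by
  cases s with
  | true => simp only [Zig] at h; simpa [sg] using h.1
  | false =>
    simp only [Zig] at h
    simp only [sg, Bool.false_eq_true, if_false]
    linarith [h.1]

private theorem zgAlts_head {f : ℕ → ℝ} {s : Bool} {S : List ℕ} {L : List (List ℕ)}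
    (h : Alts f s (S :: L)) : S.Pairwise (fun a b => sg s f a - sg s f b ≤ 2) ∧ Alts f (!s) L := by
  cases s with
  | true =>
    simp only [Alts] at h
    exact ⟨by simpa [sg, NoDrop] using h.1, h.2⟩
  | false =>
    simp only [Alts] at h
    refine ⟨?_, h.2⟩
    have h1 := h.1
    unfold NoRise at h1
    refine h1.imp ?_
    intro a b hab
    simp only [sg, Bool.false_eq_true, if_false]
    linarith

private theorem zgAlts_aux {f : ℕ → ℝ} (S : List (List ℕ)) : ∀ s : Bool, Alts f s S →
    ∀ (s' : Bool) (c : List ℕ), c.Sublist S.flatten → Zig f s' c →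
      c.length ≤ S.length + (if s' = s then 0 else 1) := by
  induction S with
  | nil =>
    intro s _ s' c hc _
    have : c = [] := by simpa using hc
    subst this
    simp
  | cons S1 L ih =>
    intro s hs s' c hc hz
    obtain ⟨hS, hL⟩ := zgAlts_head hs
    rw [List.flatten_cons, List.sublist_append_iff] at hc
    obtain ⟨c1, c2, rfl, h1, h2⟩ := hc
    have hp := hS.sublist h1
    rw [List.length_cons]
    match c1, h1, hp, hz with
    | [], _, _, hz =>
      have := ih (!s) hL s' c2 h2 (by simpa using hz)
      simp only [List.nil_append]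
      split_ifs at this ⊢ <;> omega
    | [a], _, _, hz =>
      have h3 : Zig f (!s') c2 := Zig.tail (by simpa using hz)
      have := ih (!s) hL (!s') c2 h2 h3
      simp only [List.cons_append, List.nil_append, List.length_cons]
      cases s <;> cases s' <;> simp at this ⊢ <;> omega
    | a :: b :: c1', _, hp, hz =>
      have h3 : 2 < sg s' f a - sg s' f b := zgAlts_pair (by simpa using hz)
      have h4 : sg s f a - sg s f b ≤ 2 := by
        rw [List.pairwise_cons] at hp
        exact hp.1 b (by simp)
      have hne : s' ≠ s := by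
        rintro rfl
        linarith
      have hs' : s' = !s := by cases s <;> cases s' <;> simp_all
      subst hs'
      have h5 : Zig f s (b :: (c1' ++ c2)) := by
        have := Zig.tail (f := f) (s := !s) (a := a) (c := b :: (c1' ++ c2)) (by simpa using hz)
        rwa [Bool.not_not] at this
      match c1', hp, h5 with
      | [], _, h5 =>
        have h6 : Zig f (!s) c2 := Zig.tail (by simpa using h5)
        have := ih (!s) hL (!s) c2 h2 h6
        simp at this
        simp
        omega
      | d :: c1'', hp, h5 =>
        exfalso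
        have h6 : 2 < sg s f b - sg s f d := zgAlts_pair (by simpa using h5)
        rw [List.pairwise_cons, List.pairwise_cons] at hp
        have := hp.2.1 d (by simp)
        linarith

/-- A list which is cut into `n` pieces with alternately no big drop and no big rise contains no
zigzag with more than `n + 1` elements. -/
theorem zle_alts {f : ℕ → ℝ} {s : Bool} {S : List (List ℕ)} (h : Alts f s S) :
    ZLe f S.flatten (S.length + 1) := by
  intro s' c hc hz
  have := zgAlts_aux S s h s' c hc hz
  split_ifs at this <;> omega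

end Pool.Agent.Lib.MP_04143b_an
end

section

/-! # Lattice cells: few window moves -/

namespace Pool.Agent.Lib.MP_04143b_an

theorem malts_alts {θ : ℝ} {x : ℕ → ℝ} {s : Bool} {S : List (List ℕ)}
    (h : MAlts (col θ x) s S) : Alts x s S := by
  induction S generalizing s with
  | nil => cases s <;> trivial
  | cons T S ih =>
    cases s with
    | true =>
      exact ⟨h.1.imp fun hab => col_lt hab, ih h.2⟩
    | false =>
      exact ⟨h.1.imp fun hab => col_lt hab, ih h.2⟩

/-- The combination for one coordinate: there are few window moves. -/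
theorem windows_col (x : ℕ → ℝ) (N k : ℕ) (hx : ∀ t < N, |x (t + 1) - x t| ≤ 1)
    (hk : ¬ ZLe x (iv 0 N) k) :
    ∃ (θ : ℝ) (A : ℕ) (w : ℕ → ℤ), (A : ℝ) ≤ xv x 0 N / 2 + 2 - k ∧
      ((Finset.range N).filter (fun t => w t ≠ w (t + 1))).card ≤ A ∧
      (∀ t < N, |w (t + 1) - w t| ≤ 1) ∧
      (∀ t ≤ N, col θ x t = w t ∨ col θ x t = w t + 1) := by
  obtain ⟨θ, hθ⟩ := exists_offset x N hx
  obtain ⟨A, R, w, S, hAR, hA, hw, hcw, hS, hSR, hM⟩ :=
    windows (col θ x) N (fun t ht => col_step (hx t ht))
  have hz := zle_alts (malts_alts hM)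
  rw [hS] at hz
  have hk1 : k ≤ R + 1 := by
    by_contra h
    exact hk (zle_mono hz (by omega))
  refine ⟨θ, A, w, ?_, hA, hw, hcw⟩
  rw [← hAR] at hθ
  push_cast at hθ
  have hk2 : (k : ℝ) ≤ R + 1 := by exact_mod_cast hk1
  linarith

end Pool.Agent.Lib.MP_04143b_an
end
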