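import Pool.Agent.Lib.MP_04143b_an.BlockDef

section

/-! # The block: order of the times -/

open Set

namespace Pool.Agent.Lib.MP_04143b_an

variable {x y : ℕ → ℝ} {η : ℝ} {s0 t0 t1 t2 t3 s5 e1 g1 e2 g2 : ℕ}

/-- the order of all times -/
theorem BD.order (D : BD x y η s0 t0 t1 t2 t3 s5 e1 g1 e2 g2) :
    s0 < t0 ∧ t0 < e1 ∧ e1 < t1 ∧ t1 < g1 ∧ g1 ≤ e2 ∧ e2 < t2 ∧ t2 < g2 ∧ g2 < t3 ∧ t3 < s5 := by
  have h0 := D.l0.lt
  have h1 := D.l1.lt
  have h2 := D.l2.lt
  have h3 := D.l3.lt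
  have h4 := D.l4.lt
  have hη := D.small
  have hs := D.sep
  have a1 := D.n1.ae
  have a2 := D.n1.ec
  have a3 := D.n1.cg
  have a4 := D.n1.gb
  have b1 := D.n2.ae
  have b2 := D.n2.ec
  have b3 := D.n2.cg
  have b4 := D.n2.gb
  have c1 : t0 < e1 := by
    rcases Nat.lt_or_ge t0 e1 with h | h
    · exact h
    · exfalso
      have he : e1 = t0 := le_antisymm h a1
      have hle := D.n1.le
      rw [he] at hle
      have hm : min (x t0) (x t2) ≤ x t0 := min_le_left _ _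
      have hst := D.stepx t0 (by omega) (by omega)
      rw [abs_le] at hst
      linarith [hst.1]
  have c2 : g2 < t3 := by
    rcases Nat.lt_or_ge g2 t3 with h | h
    · exact h
    · exfalso
      have he : g2 = t3 := le_antisymm b4 h
      have hge := D.n2.ge
      rw [he] at hge
      have hm : min (- x t1) (- x t3) ≤ - x t3 := min_le_right _ _
      have hst := D.stepx (t3 - 1) (by omega) (by omega)
      have e : t3 - 1 + 1 = t3 := by omega
      rw [e, abs_le] at hst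
      linarith [hst.1]
  exact ⟨h0, c1, a2, a3, hs, b2, b3, c2, h4⟩

theorem BD.N1 (D : BD x y η s0 t0 t1 t2 t3 s5 e1 g1 e2 g2) {t : ℕ} (h1 : e1 ≤ t) (h2 : t ≤ g1) :
    x t1 ≤ x t ∧ x t ≤ min (x t0) (x t2) := by
  obtain ⟨o0, o1, o2, o3, o4, o5, o6, o7, o8⟩ := D.order
  have hη := D.small
  have hle := D.n1.le
  have hge := D.n1.ge
  rcases Nat.lt_or_ge t t1 with h | h
  · have hlow := D.l1.high t (by omega) (by omega)
    refine ⟨by linarith, ?_⟩
    rcases Nat.eq_or_lt_of_le h1 with h3 | h3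
    · rw [← h3]
      have hst := D.stepx e1 (by omega) (by omega)
      rw [abs_le] at hst
      linarith [hst.1]
    · have hnd := D.l1.nodrop (e1 + 1) t (by omega) (by omega) (by omega)
      linarith
  · have hlow := D.l2.low t (by omega) (by omega)
    refine ⟨hlow, ?_⟩
    rcases Nat.eq_or_lt_of_le h2 with h3 | h3
    · rw [h3]
      have hst := D.stepx (g1 - 1) (by omega) (by omega)
      have e : g1 - 1 + 1 = g1 := by omega
      rw [e, abs_le] at hst
      linarith [hst.2]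
    · have hnd := D.l2.nodrop t (g1 - 1) (by omega) (by omega) (by omega)
      linarith

theorem BD.N2 (D : BD x y η s0 t0 t1 t2 t3 s5 e1 g1 e2 g2) {t : ℕ} (h1 : e2 ≤ t) (h2 : t ≤ g2) :
    max (x t1) (x t3) ≤ x t ∧ x t ≤ x t2 := by
  obtain ⟨o0, o1, o2, o3, o4, o5, o6, o7, o8⟩ := D.order
  have hη := D.small
  have hle := D.n2.le
  have hge := D.n2.ge
  simp only [min_neg_neg] at hle hge
  rcases Nat.lt_or_ge t t2 with h | h
  · have hhigh := D.l2.high t (by omega) (by omega)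
    refine ⟨?_, hhigh⟩
    rcases Nat.eq_or_lt_of_le h1 with h3 | h3
    · rw [← h3]
      have hst := D.stepx e2 (by omega) (by omega)
      rw [abs_le] at hst
      linarith [hst.2]
    · have hnd := D.l2.nodrop (e2 + 1) t (by omega) (by omega) (by omega)
      linarith
  · have hlow := D.l3.low t (by omega) (by omega)
    refine ⟨?_, by linarith⟩
    rcases Nat.eq_or_lt_of_le h2 with h3 | h3
    · rw [h3]
      have hst := D.stepx (g2 - 1) (by omega) (by omega)
      have e : g2 - 1 + 1 = g2 := by omega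
      rw [e, abs_le] at hst
      linarith [hst.1]
    · have hnd := D.l3.nodrop t (g2 - 1) (by omega) (by omega) (by omega)
      linarith

end Pool.Agent.Lib.MP_04143b_an
end

section

/-! # The block: levels -/

open Set

namespace Pool.Agent.Lib.MP_04143b_an

variable {x y : ℕ → ℝ} {η : ℝ} {s0 t0 t1 t2 t3 s5 e1 g1 e2 g2 : ℕ}

private theorem BlockL_n2 (D : BD x y η s0 t0 t1 t2 t3 s5 e1 g1 e2 g2) :
    (∀ t, t1 ≤ t → t ≤ e2 → x t ≤ max (x t1) (x t3) + 2) ∧
    (∀ t, g2 ≤ t → t ≤ t3 → x t ≤ max (x t1) (x t3) + 2) ∧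
    max (x t1) (x t3) + 2 < x (e2 + 1) ∧ max (x t1) (x t3) + 2 < x (g2 - 1) := by
  have hm : min (-x t1) (-x t3) = - max (x t1) (x t3) := min_neg_neg _ _
  refine ⟨?_, ?_, ?_, ?_⟩
  · intro t h1 h2
    have h := D.n2.left t h1 h2
    simp only [hm] at h
    linarith
  · intro t h1 h2
    have h := D.n2.right t h1 h2
    simp only [hm] at h
    linarith
  · have h := D.n2.le
    simp only [hm] at h
    linarith
  · have h := D.n2.ge
    simp only [hm] at h
    linarith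

private theorem BlockL_step (D : BD x y η s0 t0 t1 t2 t3 s5 e1 g1 e2 g2) {t : ℕ} (h1 : s0 ≤ t)
    (h2 : t < s5) : x (t + 1) - x t ≤ η ∧ x t - x (t + 1) ≤ η := by
  have h := abs_le.1 (D.stepx t h1 h2)
  constructor
  · exact h.2
  · linarith [h.1]

theorem BD.M (D : BD x y η s0 t0 t1 t2 t3 s5 e1 g1 e2 g2) {t : ℕ} (h1 : g1 ≤ t) (h2 : t ≤ e2) :
    min (x t0) (x t2) - 2 ≤ x t ∧ x t ≤ max (x t1) (x t3) + 2 := by
  obtain ⟨o1, o2, o3, o4, o5, o6, o7, o8, o9⟩ := D.order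
  exact ⟨D.n1.right t h1 (by omega), (BlockL_n2 D).1 t (by omega) h2⟩

theorem BD.xe1 (D : BD x y η s0 t0 t1 t2 t3 s5 e1 g1 e2 g2) :
    min (x t0) (x t2) - 2 ≤ x e1 ∧ x e1 ≤ min (x t0) (x t2) - 2 + η := by
  obtain ⟨o1, o2, o3, o4, o5, o6, o7, o8, o9⟩ := D.order
  refine ⟨D.n1.left e1 (by omega) le_rfl, ?_⟩
  have h1 := D.n1.le
  have h2 := (BlockL_step D (show s0 ≤ e1 by omega) (show e1 < s5 by omega)).2
  linarith

theorem BD.xg1 (D : BD x y η s0 t0 t1 t2 t3 s5 e1 g1 e2 g2) :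
    min (x t0) (x t2) - 2 ≤ x g1 ∧ x g1 ≤ min (x t0) (x t2) - 2 + η := by
  obtain ⟨o1, o2, o3, o4, o5, o6, o7, o8, o9⟩ := D.order
  refine ⟨D.n1.right g1 le_rfl (by omega), ?_⟩
  have h1 := D.n1.ge
  have h2 := (BlockL_step D (show s0 ≤ g1 - 1 by omega) (show g1 - 1 < s5 by omega)).1
  rw [show g1 - 1 + 1 = g1 by omega] at h2
  linarith

theorem BD.xe2 (D : BD x y η s0 t0 t1 t2 t3 s5 e1 g1 e2 g2) :
    max (x t1) (x t3) + 2 - η ≤ x e2 ∧ x e2 ≤ max (x t1) (x t3) + 2 := by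
  obtain ⟨o1, o2, o3, o4, o5, o6, o7, o8, o9⟩ := D.order
  refine ⟨?_, (BlockL_n2 D).1 e2 (by omega) le_rfl⟩
  have h1 := (BlockL_n2 D).2.2.1
  have h2 := (BlockL_step D (show s0 ≤ e2 by omega) (show e2 < s5 by omega)).1
  linarith

theorem BD.xg2 (D : BD x y η s0 t0 t1 t2 t3 s5 e1 g1 e2 g2) :
    max (x t1) (x t3) + 2 - η ≤ x g2 ∧ x g2 ≤ max (x t1) (x t3) + 2 := by
  obtain ⟨o1, o2, o3, o4, o5, o6, o7, o8, o9⟩ := D.order
  refine ⟨?_, (BlockL_n2 D).2.1 g2 le_rfl (by omega)⟩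
  have h1 := (BlockL_n2 D).2.2.2
  have h2 := (BlockL_step D (show s0 ≤ g2 - 1 by omega) (show g2 - 1 < s5 by omega)).2
  rw [show g2 - 1 + 1 = g2 by omega] at h2
  linarith

/-- inequalities between the levels -/
theorem BD.levels (D : BD x y η s0 t0 t1 t2 t3 s5 e1 g1 e2 g2) :
    x t1 < min (x t0) (x t2) - 2 ∧ max (x t1) (x t3) + 2 < x t2 ∧
    min (x t0) (x t2) - 2 ≤ x t1 + 2 - η ∧ x t2 - 2 + η ≤ max (x t1) (x t3) + 2 ∧
    x t3 + 2 < x s5 ∧ x s0 + 2 < x t0 := by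
  obtain ⟨o1, o2, o3, o4, o5, o6, o7, o8, o9⟩ := D.order
  refine ⟨?_, ?_, ?_, ?_, ?_, ?_⟩
  · have h1 := D.n1.le
    have h2 := D.l1.high (e1 + 1) (by omega) (by omega)
    linarith
  · have h1 := (BlockL_n2 D).2.2.1
    have h2 := D.l2.high (e2 + 1) (by omega) (by omega)
    linarith
  · linarith [D.d1]
  · linarith [D.d2]
  · linarith [D.l4.gap]
  · linarith [D.l0.gap]

end Pool.Agent.Lib.MP_04143b_an
end

section

open Set

namespace Pool.Agent.Lib.MP_04143b_an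

variable {x y : ℕ → ℝ} {η : ℝ} {s0 t0 t1 t2 t3 s5 e1 g1 e2 g2 : ℕ}

theorem Q1_sub (D : BD x y η s0 t0 t1 t2 t3 s5 e1 g1 e2 g2) :
    ∀ t ∈ Q1 x t0 t1 t2 t3 e1 g1 e2 g2, t ∈ iv e1 g2 := by
  obtain ⟨o1, o2, o3, o4, o5, o6, o7, o8, o9⟩ := D.order
  intro t ht
  unfold Q1 at ht
  rw [List.mem_append, List.mem_append, List.mem_append, List.mem_append, mem_R1, mem_R2, mem_L2,
    mem_iv, List.mem_singleton] at ht
  rw [mem_iv]
  omega

theorem Q2_sub (D : BD x y η s0 t0 t1 t2 t3 s5 e1 g1 e2 g2) :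
    ∀ t ∈ Q2 x t1 e1 g1 e2, t ∈ iv e1 g2 := by
  obtain ⟨o1, o2, o3, o4, o5, o6, o7, o8, o9⟩ := D.order
  intro t ht
  unfold Q2 at ht
  rw [List.mem_append, List.mem_append, mem_L1, List.mem_reverse, mem_iv, List.mem_singleton] at ht
  rw [mem_iv]
  omega

theorem Q3_sub (D : BD x y η s0 t0 t1 t2 t3 s5 e1 g1 e2 g2) :
    ∀ t ∈ Q3 g1 e2 g2, t ∈ iv e1 g2 := by
  obtain ⟨o1, o2, o3, o4, o5, o6, o7, o8, o9⟩ := D.order
  intro t ht
  unfold Q3 at ht
  rw [List.mem_append, List.mem_append, mem_iv, List.mem_singleton, List.mem_singleton] at ht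
  rw [mem_iv]
  omega

theorem mem_rt (D : BD x y η s0 t0 t1 t2 t3 s5 e1 g1 e2 g2) (t : ℕ) :
    t ∈ rt x s0 t0 t1 t2 t3 s5 e1 g1 e2 g2 ↔ s0 < t ∧ t ≤ s5 := by
  obtain ⟨o1, o2, o3, o4, o5, o6, o7, o8, o9⟩ := D.order
  unfold rt
  simp only [List.mem_append]
  constructor
  · rintro ((h | ((h | h) | h)) | h)
    · rw [mem_iv] at h; omega
    · have := Q1_sub D t h
      rw [mem_iv] at this; omega
    · have := Q2_sub D t h
      rw [mem_iv] at this; omega
    · have := Q3_sub D t h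
      rw [mem_iv] at this; omega
    · rw [mem_iv] at h; omega
  · rintro ⟨h1, h2⟩
    have hl := D.levels
    have hp := D.pos
    by_cases c1 : t < e1
    · left; left
      rw [mem_iv]; omega
    by_cases c2 : g2 < t
    · right
      rw [mem_iv]; omega
    left; right
    by_cases c3 : t ≤ g1
    · by_cases c4 : min (x t0) (x t2) - 2 ≤ x t
      · left; left
        unfold Q1
        simp only [List.mem_append]
        left; left; left; left
        rw [mem_R1]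
        exact ⟨⟨by omega, by omega⟩, c4⟩
      · left; right
        unfold Q2
        simp only [List.mem_append]
        right
        rw [mem_L1]
        refine ⟨⟨by omega, by omega⟩, ?_⟩
        push Not at c4
        linarith [hl.2.2.1]
    by_cases c5 : t ≤ e2
    · right
      unfold Q3
      simp only [List.mem_append]
      left; right
      rw [mem_iv]; omega
    by_cases c6 : x t2 - 2 ≤ x t
    · left; left
      unfold Q1
      simp only [List.mem_append]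
      left; left; right
      rw [mem_R2]
      exact ⟨⟨by omega, by omega⟩, c6⟩
    · left; left
      unfold Q1
      simp only [List.mem_append]
      right
      rw [mem_L2]
      refine ⟨⟨by omega, by omega⟩, ?_⟩
      push Not at c6
      linarith [hl.2.2.2.1]

theorem rt_head (D : BD x y η s0 t0 t1 t2 t3 s5 e1 g1 e2 g2) :
    (rt x s0 t0 t1 t2 t3 s5 e1 g1 e2 g2).head? = some (s0 + 1) := by
  obtain ⟨o1, o2, o3, o4, o5, o6, o7, o8, o9⟩ := D.order
  unfold rt
  rw [iv_cons (show s0 + 1 ≤ e1 - 1 by omega)]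
  rfl

theorem rt_getLast (D : BD x y η s0 t0 t1 t2 t3 s5 e1 g1 e2 g2) :
    (rt x s0 t0 t1 t2 t3 s5 e1 g1 e2 g2).getLast? = some s5 := by
  obtain ⟨o1, o2, o3, o4, o5, o6, o7, o8, o9⟩ := D.order
  unfold rt
  rw [List.getLast?_append, iv_getLast (show g2 + 1 ≤ s5 by omega)]
  rfl

end Pool.Agent.Lib.MP_04143b_an
end
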