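import Pool.Agent.Lib.MP_04143b_an.Mg.G011
import Pool.Agent.Lib.MP_04143b_an.Mg.G006

section

/-! # The block: second piece, cases 1 and 2 -/

open Set

namespace Pool.Agent.Lib.MP_04143b_an

variable {x y : ℕ → ℝ} {η : ℝ} {s0 t0 t1 t2 t3 s5 e1 g1 e2 g2 : ℕ}

private theorem bx_drop_app {l l' : List ℕ} (h1 : NoDrop x l) (h2 : NoDrop x l') (c : ℝ)
    (ha : ∀ a ∈ l, x a ≤ c + 2) (hb : ∀ b ∈ l', c ≤ x b) : NoDrop x (l ++ l') := by
  unfold NoDrop
  rw [List.pairwise_append]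
  refine ⟨h1, h2, ?_⟩
  intro a ha' b hb'
  linarith [ha a ha', hb b hb']

private theorem bx_rise_app {l l' : List ℕ} (h1 : NoRise x l) (h2 : NoRise x l') (c : ℝ)
    (ha : ∀ a ∈ l, c ≤ x a) (hb : ∀ b ∈ l', x b ≤ c + 2) : NoRise x (l ++ l') := by
  unfold NoRise
  rw [List.pairwise_append]
  refine ⟨h1, h2, ?_⟩
  intro a ha' b hb'
  linarith [ha a ha', hb b hb']

private theorem bx_drop_band {l : List ℕ} (c : ℝ) (h : ∀ a ∈ l, c ≤ x a ∧ x a ≤ c + 2) :
    NoDrop x l := by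
  unfold NoDrop
  rw [List.pairwise_iff_forall_sublist]
  intro a b hab
  have ha : a ∈ l := hab.subset (by simp)
  have hb : b ∈ l := hab.subset (by simp)
  linarith [(h a ha).2, (h b hb).1]

private theorem bx_rise_band {l : List ℕ} (c : ℝ) (h : ∀ a ∈ l, c ≤ x a ∧ x a ≤ c + 2) :
    NoRise x l := by
  unfold NoRise
  rw [List.pairwise_iff_forall_sublist]
  intro a b hab
  have ha : a ∈ l := hab.subset (by simp)
  have hb : b ∈ l := hab.subset (by simp)
  linarith [(h a ha).1, (h b hb).2]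

private theorem bx_drop_iv {p q a b : ℕ} (h : ∀ s t, p ≤ s → s ≤ t → t ≤ q → x s - x t ≤ 2)
    (h1 : p ≤ a) (h2 : b ≤ q) : NoDrop x (iv a b) := by
  unfold NoDrop
  refine (iv_pairwise a b).imp_of_mem ?_
  intro s t hs ht hst
  rw [mem_iv] at hs ht
  exact h s t (by omega) hst.le (by omega)

private theorem bx_rise_iv {p q a b : ℕ} (h : ∀ s t, p ≤ s → s ≤ t → t ≤ q → x t - x s ≤ 2)
    (h1 : p ≤ a) (h2 : b ≤ q) : NoRise x (iv a b) := by
  unfold NoRise
  refine (iv_pairwise a b).imp_of_mem ?_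
  intro s t hs ht hst
  rw [mem_iv] at hs ht
  exact h s t (by omega) hst.le (by omega)

/-- levels on the outer parts -/
private theorem bx_out (D : BD x y η s0 t0 t1 t2 t3 s5 e1 g1 e2 g2) :
    (∀ t, t0 ≤ t → t ≤ e1 → min (x t0) (x t2) - 2 ≤ x t ∧ x t ≤ x t0) ∧
    (∀ t, g2 ≤ t → t ≤ t3 → x t3 ≤ x t ∧ x t ≤ max (x t1) (x t3) + 2) ∧
    (∀ t, g1 ≤ t → t ≤ e2 → x t1 ≤ x t) ∧
    (∀ s t, t0 ≤ s → s ≤ t → t ≤ t1 → x t - x s ≤ 2) ∧
    (∀ s t, t2 ≤ s → s ≤ t → t ≤ t3 → x t - x s ≤ 2) := by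
  obtain ⟨o1, o2, o3, o4, o5, o6, o7, o8, o9⟩ := D.order
  have hm : min (-x t1) (-x t3) = - max (x t1) (x t3) := min_neg_neg _ _
  refine ⟨?_, ?_, ?_, ?_, ?_⟩
  · intro t h1 h2
    refine ⟨D.n1.left t h1 h2, ?_⟩
    have h := D.l1.low t h1 (by omega)
    linarith
  · intro t h1 h2
    have h := D.l3.high t (by omega) h2
    have h' := D.n2.right t h1 h2
    simp only [hm] at h'
    exact ⟨by linarith, by linarith⟩
  · intro t h1 h2
    exact D.l2.low t (by omega) (by omega)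
  · intro s t h1 h2 h3
    have h := D.l1.nodrop s t h1 h2 h3
    linarith
  · intro s t h1 h2 h3
    have h := D.l3.nodrop s t h1 h2 h3
    linarith

/-- values on the parts -/
private theorem bx_vals (D : BD x y η s0 t0 t1 t2 t3 s5 e1 g1 e2 g2) :
    (max (x t1) (x t3) ≤ x e2 ∧ x e2 ≤ max (x t1) (x t3) + 2) ∧
    (∀ a ∈ L2 x t1 t3 e2 g2, max (x t1) (x t3) ≤ x a ∧ x a ≤ max (x t1) (x t3) + 2) ∧
    (∀ a ∈ iv g1 e2, x t1 ≤ x a ∧ x a ≤ max (x t1) (x t3) + 2) ∧
    (∀ a ∈ L1 x t1 e1 g1, x t1 ≤ x a ∧ x a ≤ x t1 + 2) ∧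
    (max (x t1) (x t3) ≤ x g2 ∧ x g2 ≤ max (x t1) (x t3) + 2) := by
  obtain ⟨o1, o2, o3, o4, o5, o6, o7, o8, o9⟩ := D.order
  have hp := D.pos
  have hs := D.small
  obtain ⟨w5, w6⟩ := D.xe2
  obtain ⟨w7, w8⟩ := D.xg2
  refine ⟨⟨by linarith, w6⟩, ?_, ?_, ?_, ⟨by linarith, w8⟩⟩
  · intro a ha
    rw [mem_L2] at ha
    exact ⟨(D.N2 ha.1.1 ha.1.2).1, ha.2⟩
  · intro a ha
    rw [mem_iv] at ha
    exact ⟨D.l2.low a (by omega) (by omega), (D.M ha.1 ha.2).2⟩
  · intro a ha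
    rw [mem_L1] at ha
    exact ⟨(D.N1 ha.1.1 ha.1.2).1, ha.2⟩

/-- The second piece if `x t0 ≤ x t2` and `x t3 ≤ x t1`. -/
theorem piece_dec1 (D : BD x y η s0 t0 t1 t2 t3 s5 e1 g1 e2 g2) (h' : x t3 ≤ x t1) :
    NoRise x ([e2] ++ L2 x t1 t3 e2 g2 ++ Q2 x t1 e1 g1 e2 ++ Q3 g1 e2 g2 ++ iv (g2 + 1) t3) := by
  obtain ⟨o1, o2, o3, o4, o5, o6, o7, o8, o9⟩ := D.order
  obtain ⟨u1, u2, u3, u4, u5⟩ := bx_out D
  have hA : max (x t1) (x t3) = x t1 := max_eq_left h'
  obtain ⟨n1, n2, n3, n4, n5⟩ := bx_vals D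
  rw [hA] at n1 n2 n3 n5
  have m : ∀ a ∈ [e2] ++ L2 x t1 t3 e2 g2 ++ Q2 x t1 e1 g1 e2 ++ Q3 g1 e2 g2,
      x t1 ≤ x a ∧ x a ≤ x t1 + 2 := by
    intro a ha
    unfold Q2 Q3 at ha
    simp only [List.mem_append, List.mem_singleton, List.mem_reverse] at ha
    rcases ha with ((ha | ha) | ((ha | ha) | ha)) | ((ha | ha) | ha)
    · subst ha; exact n1
    · exact n2 a ha
    · subst ha; exact n1
    · exact n3 a ha
    · exact n4 a ha
    · subst ha; exact n3 a (by rw [mem_iv]; omega)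
    · exact n3 a ha
    · subst ha; exact n5
  refine bx_rise_app (bx_rise_band (x t1) m) (bx_rise_iv u5 (by omega) le_rfl) (x t1) ?_ ?_
  · intro a ha
    exact (m a ha).1
  · intro a ha
    rw [mem_iv] at ha
    have := (u2 a (by omega) (by omega)).2
    rw [hA] at this
    exact this

/-- The second piece if `x t0 ≤ x t2` and `x t1 ≤ x t3`. -/
theorem piece_dec2 (D : BD x y η s0 t0 t1 t2 t3 s5 e1 g1 e2 g2) (h' : x t1 ≤ x t3) :
    NoRise x ([e2] ++ L2 x t1 t3 e2 g2 ++ Q2 x t1 e1 g1 e2) := by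
  obtain ⟨o1, o2, o3, o4, o5, o6, o7, o8, o9⟩ := D.order
  have hA : max (x t1) (x t3) = x t3 := max_eq_right h'
  obtain ⟨n1, n2, n3, n4, n5⟩ := bx_vals D
  rw [hA] at n1 n2 n3 n5
  have m : ∀ a ∈ [e2] ++ L2 x t1 t3 e2 g2, x t3 ≤ x a ∧ x a ≤ x t3 + 2 := by
    intro a ha
    simp only [List.mem_append, List.mem_singleton] at ha
    rcases ha with ha | ha
    · subst ha; exact n1
    · exact n2 a ha
  have hrev : NoRise x (iv g1 e2).reverse := by
    unfold NoRise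
    rw [List.pairwise_reverse]
    exact bx_drop_iv D.l2.nodrop (by omega) (by omega)
  unfold Q2
  refine bx_rise_app (bx_rise_band (x t3) m) (bx_rise_app (bx_rise_app
    (List.pairwise_singleton _ _) hrev (x t3) ?_ ?_) (bx_rise_band (x t1) n4) (x t1) ?_ ?_)
    (x t3) ?_ ?_
  · intro a ha
    rw [List.mem_singleton] at ha
    subst ha
    exact n1.1
  · intro a ha
    rw [List.mem_reverse] at ha
    exact (n3 a ha).2
  · intro a ha
    simp only [List.mem_append, List.mem_singleton, List.mem_reverse] at ha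
    rcases ha with ha | ha
    · subst ha
      linarith [n1.1]
    · exact (n3 a ha).1
  · intro a ha
    exact (n4 a ha).2
  · intro a ha
    exact (m a ha).1
  · intro a ha
    simp only [List.mem_append, List.mem_singleton, List.mem_reverse] at ha
    rcases ha with (ha | ha) | ha
    · subst ha
      exact n1.2
    · exact (n3 a ha).2
    · linarith [(n4 a ha).2]

end Pool.Agent.Lib.MP_04143b_an
end

section

open Set

namespace Pool.Agent.Lib.MP_04143b_an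

variable {x y : ℕ → ℝ} {η : ℝ} {s0 t0 t1 t2 t3 s5 e1 g1 e2 g2 : ℕ}

private theorem BlockY_q1 (D : BD x y η s0 t0 t1 t2 t3 s5 e1 g1 e2 g2) :
    (Q1 x t0 t1 t2 t3 e1 g1 e2 g2).Pairwise
      (fun a b => a ≤ b ∨ ((e2 ≤ a ∧ a ≤ g2) ∧ (e2 ≤ b ∧ b ≤ g2))) := by
  obtain ⟨o1, o2, o3, o4, o5, o6, o7, o8, o9⟩ := D.order
  have hR1 : (R1 x t0 t2 e1 g1).Pairwise (· < ·) := by
    unfold R1; exact (iv_pairwise e1 g1).filter _
  have hR2 : (R2 x t2 e2 g2).Pairwise (· < ·) := by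
    unfold R2; exact (iv_pairwise e2 g2).filter _
  have hL2 : (L2 x t1 t3 e2 g2).Pairwise (· < ·) := by
    unfold L2; exact (iv_pairwise e2 g2).filter _
  have hM := iv_pairwise g1 e2
  unfold Q1
  rw [List.pairwise_append, List.pairwise_append, List.pairwise_append, List.pairwise_append]
  refine ⟨⟨⟨⟨hR1.imp ?_, hM.imp ?_, ?_⟩, hR2.imp ?_, ?_⟩, List.pairwise_singleton _ _, ?_⟩,
    hL2.imp ?_, ?_⟩
  · intro a b h; exact Or.inl h.le
  · intro a b h; exact Or.inl h.le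
  · intro a ha b hb
    rw [mem_R1] at ha
    rw [mem_iv] at hb
    omega
  · intro a b h; exact Or.inl h.le
  · intro a ha b hb
    rw [List.mem_append, mem_R1, mem_iv] at ha
    rw [mem_R2] at hb
    omega
  · intro a ha b hb
    rw [List.mem_append, List.mem_append, mem_R1, mem_iv, mem_R2] at ha
    rw [List.mem_singleton] at hb
    omega
  · intro a b h; exact Or.inl h.le
  · intro a ha b hb
    rw [List.mem_append, List.mem_append, List.mem_append, mem_R1, mem_iv, mem_R2,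
      List.mem_singleton] at ha
    rw [mem_L2] at hb
    omega

private theorem BlockY_q2 (D : BD x y η s0 t0 t1 t2 t3 s5 e1 g1 e2 g2) :
    (Q2 x t1 e1 g1 e2).Pairwise
      (fun a b => b ≤ a ∨ ((e1 ≤ a ∧ a ≤ g1) ∧ (e1 ≤ b ∧ b ≤ g1))) := by
  obtain ⟨o1, o2, o3, o4, o5, o6, o7, o8, o9⟩ := D.order
  have hL1 : (L1 x t1 e1 g1).Pairwise (· < ·) := by
    unfold L1; exact (iv_pairwise e1 g1).filter _
  have hM := iv_pairwise g1 e2
  unfold Q2
  rw [List.pairwise_append, List.pairwise_append]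
  refine ⟨⟨List.pairwise_singleton _ _, ?_, ?_⟩, ?_, ?_⟩
  · rw [List.pairwise_reverse]
    exact hM.imp (fun {a b} h => Or.inl h.le)
  · intro a ha b hb
    rw [List.mem_singleton] at ha
    rw [List.mem_reverse, mem_iv] at hb
    omega
  · refine hL1.imp_of_mem ?_
    intro a b ha hb h
    rw [mem_L1] at ha hb
    exact Or.inr ⟨ha.1, hb.1⟩
  · intro a ha b hb
    rw [List.mem_append, List.mem_singleton, List.mem_reverse, mem_iv] at ha
    rw [mem_L1] at hb
    omega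

private theorem BlockY_q3 (D : BD x y η s0 t0 t1 t2 t3 s5 e1 g1 e2 g2) :
    (Q3 g1 e2 g2).Pairwise (fun a b => a ≤ b) := by
  obtain ⟨o1, o2, o3, o4, o5, o6, o7, o8, o9⟩ := D.order
  have hM := iv_pairwise g1 e2
  unfold Q3
  rw [List.pairwise_append, List.pairwise_append]
  refine ⟨⟨List.pairwise_singleton _ _, hM.imp (fun {a b} h => h.le), ?_⟩,
    List.pairwise_singleton _ _, ?_⟩
  · intro a ha b hb
    rw [List.mem_singleton] at ha
    rw [mem_iv] at hb
    omega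
  · intro a ha b hb
    rw [List.mem_append, List.mem_singleton, mem_iv] at ha
    rw [List.mem_singleton] at hb
    omega

theorem rt_y (D : BD x y η s0 t0 t1 t2 t3 s5 e1 g1 e2 g2) (u w : List ℕ) (k : ℕ)
    (h : ZLe y (u ++ iv (s0 + 1) s5 ++ w) k) :
    ZLe y (u ++ rt x s0 t0 t1 t2 t3 s5 e1 g1 e2 g2 ++ w) (k + 2) := by
  obtain ⟨o1, o2, o3, o4, o5, o6, o7, o8, o9⟩ := D.order
  have e1' : iv (s0 + 1) s5 = iv (s0 + 1) (e1 - 1) ++ iv e1 g2 ++ iv (g2 + 1) s5 := by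
    have h1 := iv_append (show s0 + 1 ≤ (e1 - 1) + 1 by omega) (show e1 - 1 ≤ g2 by omega)
    rw [show e1 - 1 + 1 = e1 by omega] at h1
    rw [h1, iv_append (by omega) (by omega)]
  rw [e1'] at h
  have h' : ZLe y ((u ++ iv (s0 + 1) (e1 - 1)) ++ iv e1 g2 ++ (iv (g2 + 1) s5 ++ w)) k := by
    simpa only [List.append_assoc] using h
  have hfin : u ++ rt x s0 t0 t1 t2 t3 s5 e1 g1 e2 g2 ++ w =
      (u ++ iv (s0 + 1) (e1 - 1)) ++ (Q1 x t0 t1 t2 t3 e1 g1 e2 g2 ++ Q2 x t1 e1 g1 e2 ++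
        Q3 g1 e2 g2) ++ (iv (g2 + 1) s5 ++ w) := by
    unfold rt
    simp only [List.append_assoc]
  rw [hfin]
  have hP := iv_pairwise e1 g2
  have b1 := Q1_sub D
  have b2 := Q2_sub D
  have b3 := Q3_sub D
  have o1' := D.osc1
  have o2' := D.osc2
  rcases D.tw with tw | tw
  · refine zle_detour_up hP ?_ b1 b2 b3 ?_ ?_ ?_ h'
    · refine hP.imp_of_mem ?_
      intro a b ha hb hab
      rw [mem_iv] at ha hb
      exact tw a b ha.1 hab.le hb.2
    · refine (BlockY_q1 D).imp_of_mem ?_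
      intro a b ha hb hab
      have ha' := b1 a ha
      have hb' := b1 b hb
      rw [mem_iv] at ha' hb'
      rcases hab with hab | hab
      · exact tw a b ha'.1 hab hb'.2
      · exact o2' a b hab.1.1 hab.1.2 hab.2.1 hab.2.2
    · refine (BlockY_q2 D).imp_of_mem ?_
      intro a b ha hb hab
      have ha' := b2 a ha
      have hb' := b2 b hb
      rw [mem_iv] at ha' hb'
      rcases hab with hab | hab
      · exact tw b a hb'.1 hab ha'.2
      · exact o1' b a hab.2.1 hab.2.2 hab.1.1 hab.1.2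
    · refine (BlockY_q3 D).imp_of_mem ?_
      intro a b ha hb hab
      have ha' := b3 a ha
      have hb' := b3 b hb
      rw [mem_iv] at ha' hb'
      exact tw a b ha'.1 hab hb'.2
  · refine zle_detour_down hP ?_ b1 b2 b3 ?_ ?_ ?_ h'
    · refine hP.imp_of_mem ?_
      intro a b ha hb hab
      rw [mem_iv] at ha hb
      exact tw a b ha.1 hab.le hb.2
    · refine (BlockY_q1 D).imp_of_mem ?_
      intro a b ha hb hab
      have ha' := b1 a ha
      have hb' := b1 b hb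
      rw [mem_iv] at ha' hb'
      rcases hab with hab | hab
      · exact tw a b ha'.1 hab hb'.2
      · exact o2' b a hab.2.1 hab.2.2 hab.1.1 hab.1.2
    · refine (BlockY_q2 D).imp_of_mem ?_
      intro a b ha hb hab
      have ha' := b2 a ha
      have hb' := b2 b hb
      rw [mem_iv] at ha' hb'
      rcases hab with hab | hab
      · exact tw b a hb'.1 hab ha'.2
      · exact o1' a b hab.1.1 hab.1.2 hab.2.1 hab.2.2
    · refine (BlockY_q3 D).imp_of_mem ?_
      intro a b ha hb hab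
      have ha' := b3 a ha
      have hb' := b3 b hb
      rw [mem_iv] at ha' hb'
      exact tw a b ha'.1 hab hb'.2

end Pool.Agent.Lib.MP_04143b_an
end
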