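import Pool.Agent.Lib.MP_04143b_an.Mg.G007
import Pool.Agent.Lib.MP_04143b_an.LatC
import Pool.Agent.Lib.MP_04143b_an.LatD
import Pool.Agent.Lib.MP_04143b_an.Mg.G006
import Pool.Agent.Lib.MP_04143b_an.Mg.G005
import Pool.Agent.Lib.MP_04143b_an.Mg.G011
import Pool.Agent.Lib.MP_04143b_an.Mg.G013

section

/-! # Lattice cells: the route -/

namespace Pool.Agent.Lib.MP_04143b_an

theorem cellroute {x y : ℕ → ℝ} {N kx ky : ℕ}
    (hx : ∀ t < N, |x (t + 1) - x t| ≤ 1) (hy : ∀ t < N, |y (t + 1) - y t| ≤ 1)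
    (hkx : ¬ ZLe x (iv 0 N) kx) (hky : ¬ ZLe y (iv 0 N) ky) :
    ∃ (r : List ℕ) (R : ℕ), (∀ t, t ∈ r ↔ t ≤ N) ∧ Adj x y r ∧ ZLe x r R ∧ ZLe y r R ∧
      (R : ℝ) ≤ 24 + 2 * (xv x 0 N + xv y 0 N) - 4 * ((kx : ℝ) + ky) := by
  obtain ⟨θ, A, w, hA, hwA, hw, hcw⟩ := windows_col x N kx hx hkx
  obtain ⟨θ', B, v, hB, hvB, hv, hdv⟩ := windows_col y N ky hy hky
  have hC := cells_card (col θ x) (col θ' y) w v N hcw hdv hw hv
  obtain ⟨G, hG, hch, hgr, hlen⟩ := cell_route (fun t => (col θ x t, col θ' y t)) N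
  have hsame : ∀ (θ : ℝ) (x : ℕ → ℝ) (a b : ℕ), col θ x a = col θ x b → |x a - x b| ≤ 2 := by
    intro θ x a b h
    rw [abs_le]
    have h1 := col_lt h.le
    have h2 := col_lt h.ge
    constructor <;> linarith
  refine ⟨G.flatten, G.length, hG, ?_, ?_, ?_, ?_⟩
  · refine List.IsChain.imp_of_mem_imp (fun a b ha hb hab => ?_) hch
    rw [hG] at ha hb
    rcases hab with hab | rfl | rfl
    · exact ⟨hsame θ x a b (congrArg Prod.fst hab), hsame θ' y a b (congrArg Prod.snd hab)⟩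
    · rw [abs_sub_comm, abs_sub_comm (y a)]
      exact ⟨(hx a (by omega)).trans one_le_two, (hy a (by omega)).trans one_le_two⟩
    · exact ⟨(hx b (by omega)).trans one_le_two, (hy b (by omega)).trans one_le_two⟩
  · exact zle_groups fun l hl a ha b hb =>
      hsame θ x a b (congrArg Prod.fst (hgr l hl a ha b hb))
  · exact zle_groups fun l hl a ha b hb =>
      hsame θ' y a b (congrArg Prod.snd (hgr l hl a ha b hb))
  · have h1 : G.length + 1 ≤ 2 * (4 + 2 * (A + B)) :=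
      hlen.trans (Nat.mul_le_mul_left 2 (hC.trans (by omega)))
    have h2 : (G.length : ℝ) + 1 ≤ 2 * (4 + 2 * ((A : ℝ) + B)) := by exact_mod_cast h1
    linarith

end Pool.Agent.Lib.MP_04143b_an
end

section

/-! # Many turns altogether: cells -/

namespace Pool.Agent.Lib.MP_04143b_an

/-- Many turns altogether: use the lattice cells. -/
theorem core_cells {x y : ℕ → ℝ} {N kx ky : ℕ} {η L : ℝ} (pos : 0 < η) (small : η ≤ 1 / 20)
    (stepx : ∀ t < N, |x (t + 1) - x t| ≤ η) (stepy : ∀ t < N, |y (t + 1) - y t| ≤ η)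
    (hL : ln x y 0 N ≤ L) (hx' : ¬ ZLe x (iv 0 N) (kx - 1))
    (hy' : ¬ ZLe y (iv 0 N) (ky - 1)) (hkx : 1 ≤ kx) (hky : 1 ≤ ky)
    (hsum : 2 / 3 * L < (kx : ℝ) + ky) :
    ∃ (r : List ℕ) (k : ℕ), (∀ t, t ∈ r ↔ t ≤ N) ∧ Adj x y r ∧ ZLe x r k ∧ ZLe y r k ∧
      (k : ℝ) ≤ L / (3 - 2 * η) + 40 := by
  obtain ⟨r, R, h1, h2, h3, h4, h5⟩ := cellroute (x := x) (y := y) (N := N)
    (fun t ht => (stepx t ht).trans (by linarith)) (fun t ht => (stepy t ht).trans (by linarith))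
    hx' hy'
  refine ⟨r, R, h1, h2, h3, h4, h5.trans ?_⟩
  have hln : 0 ≤ ln x y 0 N := ln_nonneg
  have hL0 : 0 ≤ L := hln.trans hL
  have hs := xv_add_le_sqrt_two (x := x) (y := y) (a := 0) (b := N)
  have hsq : √2 ≤ 1415 / 1000 := by
    rw [Real.sqrt_le_iff]
    norm_num
  have hsq' : √2 * ln x y 0 N ≤ 1415 / 1000 * L :=
    mul_le_mul hsq hL hln (by norm_num)
  have hc1 : ((kx - 1 : ℕ) : ℝ) = (kx : ℝ) - 1 := by
    rw [Nat.cast_sub hkx]; norm_num
  have hc2 : ((ky - 1 : ℕ) : ℝ) = (ky : ℝ) - 1 := by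
    rw [Nat.cast_sub hky]; norm_num
  rw [hc1, hc2]
  have hden : L / 3 ≤ L / (3 - 2 * η) := by
    apply div_le_div_of_nonneg_left hL0 (by linarith) (by linarith)
  linarith
end Pool.Agent.Lib.MP_04143b_an
end

section

/-! # The block: second piece, cases 3 and 4 -/

open Set

namespace Pool.Agent.Lib.MP_04143b_an

variable {x y : ℕ → ℝ} {η : ℝ} {s0 t0 t1 t2 t3 s5 e1 g1 e2 g2 : ℕ}

private theorem bx_drop_app {l l' : List ℕ} (h1 : NoDrop x l) (h2 : NoDrop x l') (c : ℝ)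
    (ha : ∀ a ∈ l, x a ≤ c + 2) (hb : ∀ b ∈ l', c ≤ x b) : NoDrop x (l ++ l') := by
  unfold NoDrop
  rw [List.pairwise_append]
  refine ⟨h1, h2, ?_⟩
  intro a ha' b hb'
  linarith [ha a ha', hb b hb']

private theorem bx_rise_app {l l' : List ℕ} (h1 : NoRise x l) (h2 : NoRise x l') (c : ℝ)
    (ha : ∀ a ∈ l, c ≤ x a) (hb : ∀ b ∈ l', x b ≤ c + 2) : NoRise x (l ++ l') := by
  unfold NoRise
  rw [List.pairwise_append]
  refine ⟨h1, h2, ?_⟩
  intro a ha' b hb'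
  linarith [ha a ha', hb b hb']

private theorem bx_drop_band {l : List ℕ} (c : ℝ) (h : ∀ a ∈ l, c ≤ x a ∧ x a ≤ c + 2) :
    NoDrop x l := by
  unfold NoDrop
  rw [List.pairwise_iff_forall_sublist]
  intro a b hab
  have ha : a ∈ l := hab.subset (by simp)
  have hb : b ∈ l := hab.subset (by simp)
  linarith [(h a ha).2, (h b hb).1]

private theorem bx_rise_band {l : List ℕ} (c : ℝ) (h : ∀ a ∈ l, c ≤ x a ∧ x a ≤ c + 2) :
    NoRise x l := by
  unfold NoRise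
  rw [List.pairwise_iff_forall_sublist]
  intro a b hab
  have ha : a ∈ l := hab.subset (by simp)
  have hb : b ∈ l := hab.subset (by simp)
  linarith [(h a ha).1, (h b hb).2]

private theorem bx_drop_iv {p q a b : ℕ} (h : ∀ s t, p ≤ s → s ≤ t → t ≤ q → x s - x t ≤ 2)
    (h1 : p ≤ a) (h2 : b ≤ q) : NoDrop x (iv a b) := by
  unfold NoDrop
  refine (iv_pairwise a b).imp_of_mem ?_
  intro s t hs ht hst
  rw [mem_iv] at hs ht
  exact h s t (by omega) hst.le (by omega)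

private theorem bx_rise_iv {p q a b : ℕ} (h : ∀ s t, p ≤ s → s ≤ t → t ≤ q → x t - x s ≤ 2)
    (h1 : p ≤ a) (h2 : b ≤ q) : NoRise x (iv a b) := by
  unfold NoRise
  refine (iv_pairwise a b).imp_of_mem ?_
  intro s t hs ht hst
  rw [mem_iv] at hs ht
  exact h s t (by omega) hst.le (by omega)

/-- levels on the outer parts -/
private theorem bx_out (D : BD x y η s0 t0 t1 t2 t3 s5 e1 g1 e2 g2) :
    (∀ t, t0 ≤ t → t ≤ e1 → min (x t0) (x t2) - 2 ≤ x t ∧ x t ≤ x t0) ∧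
    (∀ t, g2 ≤ t → t ≤ t3 → x t3 ≤ x t ∧ x t ≤ max (x t1) (x t3) + 2) ∧
    (∀ t, g1 ≤ t → t ≤ e2 → x t1 ≤ x t) ∧
    (∀ s t, t0 ≤ s → s ≤ t → t ≤ t1 → x t - x s ≤ 2) ∧
    (∀ s t, t2 ≤ s → s ≤ t → t ≤ t3 → x t - x s ≤ 2) := by
  obtain ⟨o1, o2, o3, o4, o5, o6, o7, o8, o9⟩ := D.order
  have hm : min (-x t1) (-x t3) = - max (x t1) (x t3) := min_neg_neg _ _
  refine ⟨?_, ?_, ?_, ?_, ?_⟩
  · intro t h1 h2
    refine ⟨D.n1.left t h1 h2, ?_⟩
    have h := D.l1.low t h1 (by omega)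
    linarith
  · intro t h1 h2
    have h := D.l3.high t (by omega) h2
    have h' := D.n2.right t h1 h2
    simp only [hm] at h'
    exact ⟨by linarith, by linarith⟩
  · intro t h1 h2
    exact D.l2.low t (by omega) (by omega)
  · intro s t h1 h2 h3
    have h := D.l1.nodrop s t h1 h2 h3
    linarith
  · intro s t h1 h2 h3
    have h := D.l3.nodrop s t h1 h2 h3
    linarith

/-- the common first part of the cases 3 and 4 -/
private theorem bx_common (D : BD x y η s0 t0 t1 t2 t3 s5 e1 g1 e2 g2) (h : x t2 ≤ x t0)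
    {T : List ℕ} (hT : NoRise x T) (hT' : ∀ a ∈ T, x a ≤ x t2) :
    NoRise x (iv (t0 + 1) (e1 - 1) ++ ((R1 x t0 t2 e1 g1 ++ iv g1 e2 ++ R2 x t2 e2 g2) ++ T)) := by
  obtain ⟨o1, o2, o3, o4, o5, o6, o7, o8, o9⟩ := D.order
  obtain ⟨v1, v2, v3, v4, v5, v6⟩ := D.levels
  obtain ⟨u1, u2, u3, u4, u5⟩ := bx_out D
  have hH : min (x t0) (x t2) = x t2 := min_eq_right h
  have m : ∀ a ∈ R1 x t0 t2 e1 g1 ++ iv g1 e2 ++ R2 x t2 e2 g2,
      x t2 - 2 ≤ x a ∧ x a ≤ x t2 - 2 + 2 := by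
    intro a ha
    rw [List.mem_append, List.mem_append, mem_R1, mem_iv, mem_R2] at ha
    rcases ha with (ha | ha) | ha
    · have h1 := (D.N1 ha.1.1 ha.1.2).2
      have h2 := ha.2
      rw [hH] at h1 h2
      exact ⟨h2, by linarith⟩
    · have h1 := D.M ha.1 ha.2
      rw [hH] at h1
      exact ⟨h1.1, by linarith [h1.2]⟩
    · have h1 := (D.N2 ha.1.1 ha.1.2).2
      exact ⟨ha.2, by linarith⟩
  refine bx_rise_app (bx_rise_iv u4 (by omega) (by omega))
    (bx_rise_app (bx_rise_band (x t2 - 2) m) hT (x t2 - 2) ?_ ?_) (x t2 - 2) ?_ ?_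
  · intro a ha
    exact (m a ha).1
  · intro a ha
    linarith [hT' a ha]
  · intro a ha
    rw [mem_iv] at ha
    have := (u1 a (by omega) (by omega)).1
    rw [hH] at this
    exact this
  · intro a ha
    rw [List.mem_append] at ha
    rcases ha with ha | ha
    · exact (m a ha).2
    · linarith [hT' a ha]

private theorem bx_le (D : BD x y η s0 t0 t1 t2 t3 s5 e1 g1 e2 g2) (h : x t2 ≤ x t0)
    {a : ℕ} (ha : e1 ≤ a) (ha' : a ≤ t3) : x a ≤ x t2 := by
  obtain ⟨o1, o2, o3, o4, o5, o6, o7, o8, o9⟩ := D.order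
  obtain ⟨v1, v2, v3, v4, v5, v6⟩ := D.levels
  obtain ⟨u1, u2, u3, u4, u5⟩ := bx_out D
  have hH : min (x t0) (x t2) = x t2 := min_eq_right h
  by_cases c1 : a ≤ g1
  · have := (D.N1 ha c1).2
    rw [hH] at this
    exact this
  by_cases c2 : a ≤ e2
  · linarith [(D.M (show g1 ≤ a by omega) c2).2]
  by_cases c3 : a ≤ g2
  · exact (D.N2 (show e2 ≤ a by omega) c3).2
  · linarith [(u2 a (by omega) ha').2]

/-- The second piece if `x t2 ≤ x t0` and `x t3 ≤ x t1`. -/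
theorem piece_dec3 (D : BD x y η s0 t0 t1 t2 t3 s5 e1 g1 e2 g2) (h : x t2 ≤ x t0)
    (h' : x t3 ≤ x t1) :
    NoRise x (iv (t0 + 1) (e1 - 1) ++ (Q1 x t0 t1 t2 t3 e1 g1 e2 g2 ++ Q2 x t1 e1 g1 e2 ++
      Q3 g1 e2 g2 ++ iv (g2 + 1) t3)) := by
  obtain ⟨o1, o2, o3, o4, o5, o6, o7, o8, o9⟩ := D.order
  have key := bx_common D h (piece_dec1 D h') (by
    intro a ha
    simp only [List.mem_append] at ha
    have hin : e1 ≤ a ∧ a ≤ t3 := by
      rcases ha with (((ha | ha) | ha) | ha) | ha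
      · rw [List.mem_singleton] at ha
        omega
      · rw [mem_L2] at ha
        omega
      · have := Q2_sub D a ha
        rw [mem_iv] at this
        omega
      · have := Q3_sub D a ha
        rw [mem_iv] at this
        omega
      · rw [mem_iv] at ha
        omega
    exact bx_le D h hin.1 hin.2)
  unfold Q1
  simpa only [List.append_assoc] using key

/-- The second piece if `x t2 ≤ x t0` and `x t1 ≤ x t3`. -/
theorem piece_dec4 (D : BD x y η s0 t0 t1 t2 t3 s5 e1 g1 e2 g2) (h : x t2 ≤ x t0)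
    (h' : x t1 ≤ x t3) :
    NoRise x (iv (t0 + 1) (e1 - 1) ++ (Q1 x t0 t1 t2 t3 e1 g1 e2 g2 ++ Q2 x t1 e1 g1 e2)) := by
  obtain ⟨o1, o2, o3, o4, o5, o6, o7, o8, o9⟩ := D.order
  have key := bx_common D h (piece_dec2 D h') (by
    intro a ha
    simp only [List.mem_append] at ha
    have hin : e1 ≤ a ∧ a ≤ t3 := by
      rcases ha with (ha | ha) | ha
      · rw [List.mem_singleton] at ha
        omega
      · rw [mem_L2] at ha
        omega
      · have := Q2_sub D a ha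
        rw [mem_iv] at this
        omega
    exact bx_le D h hin.1 hin.2)
  unfold Q1
  simpa only [List.append_assoc] using key

end Pool.Agent.Lib.MP_04143b_an
end
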