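import Pool.Agent.Lib.MP_04143b_an.Mg.G005

section

/-! # The cost of a deep leg and of an overlapping leg -/

namespace Pool.Agent.Lib.MP_04143b_an

variable {F y : ℕ → ℝ} {η : ℝ} {p a b q e1 g1 e2 g2 : ℕ}

private theorem costC1_ln {a b : ℕ} (h : a ≤ b) {d : ℝ} (hd0 : 0 ≤ d) (hd : d ≤ F b - F a) :
    43 / 50 * d ≤ ln F y a b - xv y a b / 2 := by
  have h1 : d ≤ xv F a b := hd.trans ((le_abs_self _).trans (xv_ge h))
  have h2 : √(d ^ 2 + xv y a b ^ 2) ≤ ln F y a b := by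
    refine le_trans (Real.sqrt_le_sqrt ?_) ln_ge
    have : d ^ 2 ≤ xv F a b ^ 2 := by gcongr
    linarith
  have h3 := ineq_half hd0 (xv_nonneg (x := y) (a := a) (b := b))
  linarith

theorem leg_deep (D : LD F y η p a b q e1 g1 e2 g2)
    (h : 2 - η < dd1 F p a b ∨ 2 - η < dd2 F a b q) :
    3 - 2 * η ≤ bval F y η p a b q e1 g1 e2 g2 := by
  obtain ⟨b1, b2, b3, b4, b5, b6, b7, b8, b9, b10⟩ := D.basic
  have hη := D.pos
  have hη' := D.small
  have hae : a ≤ e2 := D.n2.ae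
  have hgb : g1 ≤ b := D.n1.gb
  have hab : a ≤ b := D.l2.lt.le
  rw [bval]
  rcases h with h | h
  · have ht1 : trf η (dd1 F p a b) (xv y e1 a) (xv y a g1) = 0 := by
      rw [trf, if_neg (not_le.2 h)]
    have ht2 := (trf_le (η := η) b2.le (xv_nonneg (x := y) (a := e2) (b := b))
      (xv_nonneg (x := y) (a := b) (b := g2))).2
    have h1 : xv y e2 b ≤ xv y a b := xv_mono hae le_rfl
    have h2 := costC1_ln (F := F) (y := y) hab (d := 4 - η) (by linarith) (by linarith)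
    rw [ht1]
    linarith
  · have ht2 : trf η (dd2 F a b q) (xv y e2 b) (xv y b g2) = 0 := by
      rw [trf, if_neg (not_le.2 h)]
    have ht1 := (trf_le (η := η) b1.le (xv_nonneg (x := y) (a := e1) (b := a))
      (xv_nonneg (x := y) (a := a) (b := g1))).1
    have h1 : xv y a g1 ≤ xv y a b := xv_mono le_rfl hgb
    have h2 := costC1_ln (F := F) (y := y) hab (d := 4 - η) (by linarith) (by linarith)
    rw [ht2]
    linarith

theorem leg_over (D : LD F y η p a b q e1 g1 e2 g2) (h1 : dd1 F p a b ≤ 2 - η)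
    (h2 : dd2 F a b q ≤ 2 - η) (h : e2 < g1) :
    3 - 2 * η ≤ bval F y η p a b q e1 g1 e2 g2 := by
  obtain ⟨b1, b2, b3, b4, b5, b6, b7, b8, b9, b10⟩ := D.basic
  have hη := D.pos
  have hη' := D.small
  have hae : a ≤ e2 := D.n2.ae
  have hgb : g1 ≤ b := D.n1.gb
  rw [bval]
  have ht2 := (trf_le (η := η) b2.le (xv_nonneg (x := y) (a := e2) (b := b))
    (xv_nonneg (x := y) (a := b) (b := g2))).2
  have ht1 := (trf_le (η := η) b1.le (xv_nonneg (x := y) (a := e1) (b := a))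
    (xv_nonneg (x := y) (a := a) (b := g1))).1
  have c1 := costC1_ln (F := F) (y := y) hae (d := 2 - η) (by linarith) (by linarith)
  have c2 := costC1_ln (F := F) (y := y) hgb (d := 2 - η) (by linarith) (by linarith)
  have l1 := ln_add (x := F) (y := y) hae (h.le.trans hgb)
  have l2 := ln_add (x := F) (y := y) h.le hgb
  have v1 := xv_add (x := y) hae h.le
  have v2 := xv_add (x := y) h.le hgb
  have v3 := yv_le_ln (x := F) (y := y) (a := e2) (b := g1)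
  linarith

end Pool.Agent.Lib.MP_04143b_an
end

section

/-! # The cost of a leg: main case -/

namespace Pool.Agent.Lib.MP_04143b_an

variable {F y : ℕ → ℝ} {η : ℝ} {p a b q e1 g1 e2 g2 : ℕ}

private theorem costC2_ln {a b : ℕ} (h : a ≤ b) {d : ℝ} (hd0 : 0 ≤ d) (hd : d ≤ F b - F a) :
    √(d ^ 2 + xv y a b ^ 2) ≤ ln F y a b := by
  have h1 : d ≤ xv F a b := hd.trans ((le_abs_self _).trans (xv_ge h))
  refine le_trans (Real.sqrt_le_sqrt ?_) ln_ge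
  have : d ^ 2 ≤ xv F a b ^ 2 := by gcongr
  linarith

theorem leg_main (D : LD F y η p a b q e1 g1 e2 g2) (h1 : dd1 F p a b ≤ 2 - η)
    (h2 : dd2 F a b q ≤ 2 - η) (h : g1 ≤ e2) :
    √(xv F g1 e2 ^ 2 + xv y g1 e2 ^ 2) + √(dd1 F p a b ^ 2 + (xv y e1 g1 / 2) ^ 2) +
      √(dd2 F a b q ^ 2 + (xv y e2 g2 / 2) ^ 2) ≤ bval F y η p a b q e1 g1 e2 g2 := by
  obtain ⟨b1, b2, b3, b4, b5, b6, b7, b8, b9, b10⟩ := D.basic
  have hη := D.pos
  have hη' := D.small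
  have hag : a ≤ g1 := D.n1.cg.le
  have heb : e2 ≤ b := D.n2.ec.le
  have he1 : e1 ≤ a := D.n1.ec.le
  have hg2 : b ≤ g2 := D.n2.cg.le
  rw [bval, trf, trf, if_pos h1, if_pos h2]
  have c1 := costC2_ln (y := y) hag (d := dd1 F p a b) b1.le (by linarith)
  have c2 := costC2_ln (y := y) heb (d := dd2 F a b q) b2.le (by linarith)
  have c3 := ln_ge (x := F) (y := y) (a := g1) (b := e2)
  have l1 := ln_add (x := F) (y := y) hag (h.trans heb)
  have l2 := ln_add (x := F) (y := y) h heb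
  have v1 := xv_add (x := y) he1 hag
  have v2 := xv_add (x := y) heb hg2
  have k1 := ineq_conv (dd1 F p a b) (xv y e1 a) (xv y a g1)
  have k2 := ineq_conv (dd2 F a b q) (xv y e2 b) (xv y b g2)
  rw [v1] at k1
  rw [v2] at k2
  linarith

end Pool.Agent.Lib.MP_04143b_an
end

section

/-! # The cost of a leg -/

namespace Pool.Agent.Lib.MP_04143b_an

variable {F y : ℕ → ℝ} {η : ℝ} {p a b q e1 g1 e2 g2 : ℕ}

theorem leg_cost (D : LD F y η p a b q e1 g1 e2 g2) :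
    3 - 2 * η ≤ bval F y η p a b q e1 g1 e2 g2 ∨
    (2 - 2 * η ≤ bval F y η p a b q e1 g1 e2 g2 ∧ dd1 F p a b ≤ 2 - η ∧ dd2 F a b q ≤ 2 - η ∧
      g1 ≤ e2 ∧ (∀ a b, e1 ≤ a → a ≤ g1 → e1 ≤ b → b ≤ g1 → y a - y b ≤ 2) ∧
      (∀ a b, e2 ≤ a → a ≤ g2 → e2 ≤ b → b ≤ g2 → y a - y b ≤ 2) ∧
      ((∀ a b, e1 ≤ a → a ≤ b → b ≤ g2 → y a - y b ≤ 2) ∨
        (∀ a b, e1 ≤ a → a ≤ b → b ≤ g2 → y b - y a ≤ 2))) := by
  by_cases hd1 : dd1 F p a b ≤ 2 - η
  swap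
  · exact Or.inl (leg_deep D (Or.inl (not_le.1 hd1)))
  by_cases hd2 : dd2 F a b q ≤ 2 - η
  swap
  · exact Or.inl (leg_deep D (Or.inr (not_le.1 hd2)))
  by_cases hs : g1 ≤ e2
  swap
  · exact Or.inl (leg_over D hd1 hd2 (not_le.1 hs))
  have hmain := leg_main D hd1 hd2 hs
  obtain ⟨b1, b2, b3, b4, b5, b6, b7, b8, b9, b10⟩ := D.basic
  have hη := D.pos
  have hη' := D.small
  have hX : (F b - F a) - dd1 F p a b - dd2 F a b q - 2 * η ≤ xv F g1 e2 := by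
    have h1 := (le_abs_self _).trans (xv_ge (x := F) hs)
    linarith
  have hX0 : 0 ≤ xv F g1 e2 := xv_nonneg
  have he1g1 : e1 ≤ g1 := (D.n1.ec.trans D.n1.cg).le
  have he2g2 : e2 ≤ g2 := (D.n2.ec.trans D.n2.cg).le
  by_cases ho1 : ∀ a b, e1 ≤ a → a ≤ g1 → e1 ≤ b → b ≤ g1 → y a - y b ≤ 2
  swap
  · push Not at ho1
    obtain ⟨a', b', h1, h2, h3, h4, h5⟩ := ho1
    exact Or.inl ((ineq_bad hη b1.le b2.le b3 b4 hX hX0
      (Or.inl (xv_two h1 h2 h3 h4 h5))).trans hmain)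
  by_cases ho2 : ∀ a b, e2 ≤ a → a ≤ g2 → e2 ≤ b → b ≤ g2 → y a - y b ≤ 2
  swap
  · push Not at ho2
    obtain ⟨a', b', h1, h2, h3, h4, h5⟩ := ho2
    exact Or.inl ((ineq_bad hη b1.le b2.le b3 b4 hX hX0
      (Or.inr (xv_two h1 h2 h3 h4 h5))).trans hmain)
  by_cases htw : (∀ a b, e1 ≤ a → a ≤ b → b ≤ g2 → y a - y b ≤ 2) ∨
        (∀ a b, e1 ≤ a → a ≤ b → b ≤ g2 → y b - y a ≤ 2)
  swap
  · rw [not_or] at htw
    obtain ⟨h1, h2⟩ := htw
    push Not at h1 h2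
    obtain ⟨a', b', k1, k2, k3, k4⟩ := h1
    obtain ⟨c', d', l1, l2, l3, l4⟩ := h2
    have h4 : 4 ≤ xv y e1 g2 := xv_four k1 k2 k3 k4 l1 l2 l3 l4
    have h5 := xv_add (x := y) he1g1 (hs.trans he2g2)
    have h6 := xv_add (x := y) hs he2g2
    exact Or.inl ((ineq_tw hη hη' b1.le b2.le b3 b4 hX hX0 xv_nonneg xv_nonneg xv_nonneg
      (v0 := xv y g1 e2) (v1 := xv y e1 g1) (v2 := xv y e2 g2) (by linarith)).trans hmain)
  exact Or.inr ⟨(ineq_any b1.le b2.le b3 hX hX0).trans hmain, hd1, hd2, hs, ho1, ho2, htw⟩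

end Pool.Agent.Lib.MP_04143b_an
end
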