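import Pool.Agent.Lib.MP_04143b_an.Mg.G009
import Pool.Agent.Lib.MP_04143b_an.Mg.G006

section

/-! # The values of the legs -/

namespace Pool.Agent.Lib.MP_04143b_an

variable {x y : ℕ → ℝ} {N m : ℕ} {s : Bool} {τ e g : ℕ → ℕ} {η : ℝ}

/-- the value of the `j`-th leg -/
noncomputable def bleg (x y : ℕ → ℝ) (s : Bool) (τ e g : ℕ → ℕ) (η : ℝ) (j : ℕ) : ℝ :=
  ln x y (τ j) (τ (j + 1)) +
    trf η (dep x s τ (j + 1)) (xv y (e (j + 1)) (τ (j + 1))) (xv y (τ (j + 1)) (g (j + 1))) -
    trf η (dep x s τ j) (xv y (e j) (τ j)) (xv y (τ j) (g j))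

private theorem costD_LD (S : Setup x y N m s τ e g η) {i : ℕ} (h2 : i + 2 < m) :
    LD (sg (dir s (i + 1)) x) y η (τ i) (τ (i + 1)) (τ (i + 2)) (τ (i + 3)) (e (i + 1))
      (g (i + 1)) (e (i + 2)) (g (i + 2)) := by
  have e0 : sg (dir s i) x = fun t => - sg (dir s (i + 1)) x t := by
    have h := sg_not (dir s (i + 1)) x
    have h' : (!(dir s (i + 1))) = dir s i := by
      change (!(!(dir s i))) = dir s i
      exact Bool.not_not _
    rw [h'] at h
    exact h
  have e2 : sg (dir s (i + 2)) x = fun t => - sg (dir s (i + 1)) x t := sg_not (dir s (i + 1)) x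
  have l1 := S.tips.leg i (by omega)
  have l2 := S.tips.leg (i + 1) (by omega)
  have l3 := S.tips.leg (i + 2) h2
  have n1 := S.notch (i + 1) (by omega) (by omega)
  have n2 := S.notch (i + 2) (by omega) h2
  rw [e0] at l1
  rw [e2] at l3 n2
  refine ⟨S.pos, S.small, ?_, l1, l2, l3, n1, n2⟩
  intro t _ ht
  have hN : τ (i + 3) ≤ N := by
    have h3 : ∀ j k, j + k ≤ m → τ j ≤ τ (j + k) := by
      intro j k
      induction k with
      | zero => intro _; exact le_rfl
      | succ k ih =>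
        intro h
        exact (ih (by omega)).trans (S.tips.leg (j + k) (by omega)).lt.le
    have h4 := h3 (i + 3) (m - (i + 3)) (by omega)
    rw [show i + 3 + (m - (i + 3)) = m by omega] at h4
    exact h4.trans S.tips.last
  have h5 := S.stepx t (by omega)
  cases dir s (i + 1)
  · change |(- x (t + 1)) - (- x t)| ≤ η
    rw [show (- x (t + 1)) - (- x t) = - (x (t + 1) - x t) by ring, abs_neg]
    exact h5
  · exact h5

private theorem costD_bval (S : Setup x y N m s τ e g η) {i : ℕ} (h2 : i + 2 < m) :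
    bval (sg (dir s (i + 1)) x) y η (τ i) (τ (i + 1)) (τ (i + 2)) (τ (i + 3)) (e (i + 1))
      (g (i + 1)) (e (i + 2)) (g (i + 2)) = bleg x y s τ e g η (i + 1) := by
  have e2 : sg (dir s (i + 2)) x = fun t => - sg (dir s (i + 1)) x t := sg_not (dir s (i + 1)) x
  have h3 : dd2 (sg (dir s (i + 1)) x) (τ (i + 1)) (τ (i + 2)) (τ (i + 3)) =
      dep x s τ (i + 2) := by
    unfold dd2 dep
    rw [e2]
    rfl
  have h4 : dd1 (sg (dir s (i + 1)) x) (τ i) (τ (i + 1)) (τ (i + 2)) = dep x s τ (i + 1) := rfl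
  unfold bval bleg
  rw [ln_sg, h3, h4]

theorem bleg_mg (S : Setup x y N m s τ e g η) {j : ℕ} (h1 : 1 ≤ j) (h2 : j + 1 < m)
    (h : Mg x y s τ e g η j) : 2 - 2 * η ≤ bleg x y s τ e g η j := by
  obtain ⟨i, rfl⟩ : ∃ i, j = i + 1 := ⟨j - 1, by omega⟩
  rw [← costD_bval S h2]
  rcases leg_cost (costD_LD S h2) with h3 | h3
  · linarith
  · exact h3.1

theorem bleg_not_mg (S : Setup x y N m s τ e g η) {j : ℕ} (h1 : 1 ≤ j) (h2 : j + 1 < m)
    (h : ¬ Mg x y s τ e g η j) : 3 - 2 * η ≤ bleg x y s τ e g η j := by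
  obtain ⟨i, rfl⟩ : ∃ i, j = i + 1 := ⟨j - 1, by omega⟩
  rw [← costD_bval S h2]
  rcases leg_cost (costD_LD S h2) with h3 | ⟨_, k1, k2, k3, k4, k5, k6⟩
  · exact h3
  · have e2 : sg (dir s (i + 2)) x = fun t => - sg (dir s (i + 1)) x t :=
      sg_not (dir s (i + 1)) x
    have h5 : dd2 (sg (dir s (i + 1)) x) (τ (i + 1)) (τ (i + 2)) (τ (i + 3)) =
        dep x s τ (i + 2) := by
      unfold dd2 dep
      rw [e2]
      rfl
    rw [h5] at k2
    exact absurd ⟨k1, k2, k3, k4, k5, k6⟩ h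

end Pool.Agent.Lib.MP_04143b_an
end

section

/-! # The sum of the values -/

namespace Pool.Agent.Lib.MP_04143b_an

variable {x y : ℕ → ℝ} {N m : ℕ} {s : Bool} {τ e g : ℕ → ℕ} {η : ℝ}

private theorem costE_dep (S : Setup x y N m s τ e g η) {i : ℕ} (h1 : 1 ≤ i) (h2 : i < m) :
    0 ≤ dep x s τ i := by
  obtain ⟨j, rfl⟩ : ∃ j, i = j + 1 := ⟨i - 1, by omega⟩
  have n := S.notch (j + 1) h1 h2
  have l := S.tips.leg j (by omega)
  have e0 : sg (dir s j) x = fun t => - sg (dir s (j + 1)) x t := by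
    have h := sg_not (dir s (j + 1)) x
    have h' : (!(dir s (j + 1))) = dir s j := by
      change (!(!(dir s j))) = dir s j
      exact Bool.not_not _
    rw [h'] at h
    exact h
  rw [e0] at l
  have q1 : τ j ≤ e (j + 1) := n.ae
  have q2 := n.ec
  have h3 := l.high (e (j + 1) + 1) (by omega) (by omega)
  have h4 := n.le
  unfold dep
  linarith

theorem sum_bleg (S : Setup x y N m s τ e g η) (hm : 3 ≤ m) :
    ∑ j ∈ Finset.Ico 1 (m - 1), bleg x y s τ e g η j ≤ ln x y 0 N := by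
  have hmono : ∀ j k, j + k ≤ m → τ j ≤ τ (j + k) := by
    intro j k
    induction k with
    | zero => intro _; exact le_rfl
    | succ k ih =>
      intro h
      exact (ih (by omega)).trans (S.tips.leg (j + k) (by omega)).lt.le
  set T : ℕ → ℝ := fun i => trf η (dep x s τ i) (xv y (e i) (τ i)) (xv y (τ i) (g i)) with hT
  have hsum : ∀ n, n + 1 < m → ∑ j ∈ Finset.Ico 1 (n + 1), bleg x y s τ e g η j =
      ln x y (τ 1) (τ (n + 1)) + T (n + 1) - T 1 := by
    intro n
    induction n with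
    | zero =>
      intro _
      simp [ln]
    | succ n ih =>
      intro h
      rw [Finset.sum_Ico_succ_top (by omega), ih (by omega)]
      have h1 := ln_add (x := x) (y := y) (a := τ 1) (b := τ (n + 1)) (c := τ (n + 1 + 1))
        (by
          have := hmono 1 n (by omega)
          rwa [Nat.add_comm 1 n] at this)
        (S.tips.leg (n + 1) (by omega)).lt.le
      unfold bleg
      rw [← h1, hT]
      ring
  have h1 := hsum (m - 2) (by omega)
  rw [show m - 2 + 1 = m - 1 by omega] at h1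
  rw [h1]
  have d1 := costE_dep S (i := 1) le_rfl (by omega)
  have d2 := costE_dep S (i := m - 1) (by omega) (by omega)
  have t1 := (trf_le (η := η) d1 (xv_nonneg (x := y) (a := e 1) (b := τ 1))
    (xv_nonneg (x := y) (a := τ 1) (b := g 1))).2
  have t2 := (trf_le (η := η) d2 (xv_nonneg (x := y) (a := e (m - 1)) (b := τ (m - 1)))
    (xv_nonneg (x := y) (a := τ (m - 1)) (b := g (m - 1)))).1
  have n1 := S.notch 1 le_rfl (by omega)
  have n2 := S.notch (m - 1) (by omega) (by omega)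
  have y1 := yv_le_ln (x := x) (y := y) (a := e 1) (b := τ 1)
  have y2 := yv_le_ln (x := x) (y := y) (a := τ (m - 1)) (b := g (m - 1))
  have z1 := xv_nonneg (x := y) (a := e 1) (b := τ 1)
  have z2 := xv_nonneg (x := y) (a := τ (m - 1)) (b := g (m - 1))
  have q1 : τ 0 ≤ e 1 := n1.ae
  have q2 : g (m - 1) ≤ τ m := by
    have := n2.gb
    rwa [show m - 1 + 1 = m by omega] at this
  have m1 : ln x y (e 1) (τ 1) ≤ ln x y (τ 0) (τ 1) := ln_mono q1 le_rfl
  have m2 : ln x y (τ (m - 1)) (g (m - 1)) ≤ ln x y (τ (m - 1)) (τ m) := ln_mono le_rfl q2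
  have o1 : τ 0 ≤ τ 1 := hmono 0 1 (by omega)
  have o2 : τ 1 ≤ τ (m - 1) := by
    have := hmono 1 (m - 2) (by omega)
    rwa [show 1 + (m - 2) = m - 1 by omega] at this
  have o3 : τ (m - 1) ≤ τ m := by
    have := hmono (m - 1) 1 (by omega)
    rwa [show m - 1 + 1 = m by omega] at this
  have a1 := ln_add (x := x) (y := y) o1 o2
  have a2 := ln_add (x := x) (y := y) (o1.trans o2) o3
  have a3 : ln x y (τ 0) (τ m) ≤ ln x y 0 N := ln_mono (Nat.zero_le _) S.tips.last
  have hT1 : T 1 = trf η (dep x s τ 1) (xv y (e 1) (τ 1)) (xv y (τ 1) (g 1)) := rfl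
  have hT2 : T (m - 1) = trf η (dep x s τ (m - 1)) (xv y (e (m - 1)) (τ (m - 1)))
    (xv y (τ (m - 1)) (g (m - 1))) := rfl
  rw [hT1, hT2]
  linarith

end Pool.Agent.Lib.MP_04143b_an
end

section

/-! # The cost inequality -/

namespace Pool.Agent.Lib.MP_04143b_an

variable {x y : ℕ → ℝ} {N m : ℕ} {s : Bool} {τ e g : ℕ → ℕ} {η : ℝ}

open Classical in
/-- The cost inequality. -/
theorem cost (S : Setup x y N m s τ e g η) (hm : 2 ≤ m) :
    (3 - 2 * η) * ((m : ℝ) - 2) ≤ ln x y 0 N +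
      ((Finset.Ico 1 (m - 1)).filter (fun j => Mg x y s τ e g η j)).card := by
  rcases Nat.eq_or_lt_of_le hm with h | h
  · subst h
    have h1 : 0 ≤ ln x y 0 N := ln_nonneg
    have h2 : (0 : ℝ) ≤ ((Finset.Ico 1 (2 - 1)).filter (fun j => Mg x y s τ e g η j)).card :=
      Nat.cast_nonneg _
    push_cast
    linarith
  · have h1 := sum_bleg S h
    have h2 : ∑ j ∈ Finset.Ico 1 (m - 1),
        ((3 - 2 * η) - (if Mg x y s τ e g η j then (1 : ℝ) else 0)) ≤
        ∑ j ∈ Finset.Ico 1 (m - 1), bleg x y s τ e g η j := by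
      refine Finset.sum_le_sum fun j hj => ?_
      rw [Finset.mem_Ico] at hj
      split_ifs with hM
      · have := bleg_mg S hj.1 (by omega) hM
        linarith
      · have := bleg_not_mg S hj.1 (by omega) hM
        linarith
    rw [Finset.sum_sub_distrib, Finset.sum_const, Nat.card_Ico, nsmul_eq_mul] at h2
    have h3 : ((m - 1 - 1 : ℕ) : ℝ) = (m : ℝ) - 2 := by
      have : m - 1 - 1 = m - 2 := by omega
      rw [this, Nat.cast_sub hm]
      norm_num
    rw [h3] at h2
    have h4 : (((Finset.Ico 1 (m - 1)).filter (fun j => Mg x y s τ e g η j)).card : ℝ) =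
        ∑ j ∈ Finset.Ico 1 (m - 1), (if Mg x y s τ e g η j then (1 : ℝ) else 0) := by
      rw [Finset.card_filter]
      push_cast
      rfl
    rw [h4]
    nlinarith

end Pool.Agent.Lib.MP_04143b_an
end
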