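import Pool.Agent.Lib.MP_04143b_an.Mg.G011
import Pool.Agent.Lib.MP_04143b_an.Mg.G013
import Pool.Agent.Lib.MP_04143b_an.Mg.G008
import Pool.Agent.Lib.MP_04143b_an.Mg.G007

section

open Set

namespace Pool.Agent.Lib.MP_04143b_an

variable {x y : ℕ → ℝ} {η : ℝ} {s0 t0 t1 t2 t3 s5 e1 g1 e2 g2 : ℕ}

/-- a chain with given first and last element -/
private def AC (x y : ℕ → ℝ) (l : List ℕ) (a b : ℕ) : Prop :=
  Adj x y l ∧ l.head? = some a ∧ l.getLast? = some b

private theorem AC_app {l l' : List ℕ} {a b c d : ℕ} (h1 : AC x y l a b) (h2 : AC x y l' c d)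
    (h : |x b - x c| ≤ 2 ∧ |y b - y c| ≤ 2) : AC x y (l ++ l') a d := by
  refine ⟨?_, ?_, ?_⟩
  · unfold Adj
    rw [List.isChain_append]
    refine ⟨h1.1, h2.1, ?_⟩
    intro p hp q hq
    rw [h1.2.2, Option.mem_some_iff] at hp
    rw [h2.2.1, Option.mem_some_iff] at hq
    subst hp
    subst hq
    exact h
  · rw [List.head?_append, h1.2.1]; rfl
  · rw [List.getLast?_append, h2.2.2]; rfl

private theorem AC_iv {a b : ℕ} (hab : a ≤ b)
    (h : ∀ t, a ≤ t → t < b → |x t - x (t + 1)| ≤ 2 ∧ |y t - y (t + 1)| ≤ 2) :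
    AC x y (iv a b) a b :=
  ⟨iv_isChain h, iv_head hab, iv_getLast hab⟩

private theorem AC_single (a : ℕ) : AC x y [a] a a :=
  ⟨by unfold Adj; simp, rfl, rfl⟩

private theorem AC_reverse {l : List ℕ} {a b : ℕ} (h : AC x y l a b) : AC x y l.reverse b a := by
  refine ⟨?_, ?_, ?_⟩
  · unfold Adj
    rw [List.isChain_reverse]
    have h1 := h.1
    unfold Adj at h1
    refine h1.imp ?_
    intro p q hpq
    refine ⟨?_, ?_⟩
    · rw [abs_sub_comm]; exact hpq.1
    · rw [abs_sub_comm]; exact hpq.2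
  · rw [List.head?_reverse, h.2.2]
  · rw [List.getLast?_reverse, h.2.1]

private theorem AC_filter {a b : ℕ} (hab : a < b) (p : ℕ → Bool) (ha : p a = true)
    (hb : p b = true)
    (h : ∀ s t, a ≤ s → s ≤ b → a ≤ t → t ≤ b → p s = true → p t = true →
      |x s - x t| ≤ 2 ∧ |y s - y t| ≤ 2) : AC x y ((iv a b).filter p) a b := by
  refine ⟨?_, ?_, ?_⟩
  · unfold Adj
    apply List.Pairwise.isChain
    rw [List.pairwise_iff_forall_sublist]
    intro s t hst
    have hs : s ∈ (iv a b).filter p := hst.subset (by simp)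
    have ht : t ∈ (iv a b).filter p := hst.subset (by simp)
    rw [List.mem_filter, mem_iv] at hs ht
    exact h s t hs.1.1 hs.1.2 ht.1.1 ht.1.2 hs.2 ht.2
  · rw [iv_cons hab.le, List.filter_cons_of_pos ha]; rfl
  · have h1 : iv a b = iv a (b - 1) ++ [b] := by
      have h2 := iv_append (show a ≤ (b - 1) + 1 by omega) (show b - 1 ≤ b by omega)
      rw [show b - 1 + 1 = b by omega, iv_self] at h2
      exact h2.symm
    rw [h1, List.filter_append, List.getLast?_append, List.filter_cons_of_pos hb]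
    rfl

theorem adj_rt (D : BD x y η s0 t0 t1 t2 t3 s5 e1 g1 e2 g2) :
    Adj x y (rt x s0 t0 t1 t2 t3 s5 e1 g1 e2 g2) := by
  obtain ⟨o1, o2, o3, o4, o5, o6, o7, o8, o9⟩ := D.order
  have hp := D.pos
  have hs := D.small
  have step : ∀ t, s0 ≤ t → t < s5 → |x t - x (t + 1)| ≤ 2 ∧ |y t - y (t + 1)| ≤ 2 := by
    intro t h1 h2
    have a1 := D.stepx t h1 h2
    have a2 := D.stepy t h1 h2
    rw [abs_sub_comm] at a1 a2
    exact ⟨by linarith, by linarith⟩
  have y1 : ∀ s t, e1 ≤ s → s ≤ g1 → e1 ≤ t → t ≤ g1 → |y s - y t| ≤ 2 := by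
    intro s t h1 h2 h3 h4
    rw [abs_le]
    have a1 := D.osc1 s t h1 h2 h3 h4
    have a2 := D.osc1 t s h3 h4 h1 h2
    exact ⟨by linarith, by linarith⟩
  have y2 : ∀ s t, e2 ≤ s → s ≤ g2 → e2 ≤ t → t ≤ g2 → |y s - y t| ≤ 2 := by
    intro s t h1 h2 h3 h4
    rw [abs_le]
    have a1 := D.osc2 s t h1 h2 h3 h4
    have a2 := D.osc2 t s h3 h4 h1 h2
    exact ⟨by linarith, by linarith⟩
  obtain ⟨v1, v2, v3, v4, v5, v6⟩ := D.levels
  obtain ⟨w1, w2⟩ := D.xe1
  obtain ⟨w3, w4⟩ := D.xg1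
  obtain ⟨w5, w6⟩ := D.xe2
  obtain ⟨w7, w8⟩ := D.xg2
  have cR1 : AC x y (R1 x t0 t2 e1 g1) e1 g1 := by
    unfold R1
    refine AC_filter (by omega) _ ?_ ?_ ?_
    · rw [decide_eq_true_iff]; exact w1
    · rw [decide_eq_true_iff]; exact w3
    · intro s t h1 h2 h3 h4 h5 h6
      rw [decide_eq_true_iff] at h5 h6
      refine ⟨?_, y1 s t h1 h2 h3 h4⟩
      rw [abs_le]
      have a1 := (D.N1 h1 h2).2
      have a2 := (D.N1 h3 h4).2
      exact ⟨by linarith, by linarith⟩
  have cL1 : AC x y (L1 x t1 e1 g1) e1 g1 := by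
    unfold L1
    refine AC_filter (by omega) _ ?_ ?_ ?_
    · rw [decide_eq_true_iff]; linarith
    · rw [decide_eq_true_iff]; linarith
    · intro s t h1 h2 h3 h4 h5 h6
      rw [decide_eq_true_iff] at h5 h6
      refine ⟨?_, y1 s t h1 h2 h3 h4⟩
      rw [abs_le]
      have a1 := (D.N1 h1 h2).1
      have a2 := (D.N1 h3 h4).1
      exact ⟨by linarith, by linarith⟩
  have cR2 : AC x y (R2 x t2 e2 g2) e2 g2 := by
    unfold R2
    refine AC_filter (by omega) _ ?_ ?_ ?_
    · rw [decide_eq_true_iff]; linarith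
    · rw [decide_eq_true_iff]; linarith
    · intro s t h1 h2 h3 h4 h5 h6
      rw [decide_eq_true_iff] at h5 h6
      refine ⟨?_, y2 s t h1 h2 h3 h4⟩
      rw [abs_le]
      have a1 := (D.N2 h1 h2).2
      have a2 := (D.N2 h3 h4).2
      exact ⟨by linarith, by linarith⟩
  have cL2 : AC x y (L2 x t1 t3 e2 g2) e2 g2 := by
    unfold L2
    refine AC_filter (by omega) _ ?_ ?_ ?_
    · rw [decide_eq_true_iff]; exact w6
    · rw [decide_eq_true_iff]; exact w8
    · intro s t h1 h2 h3 h4 h5 h6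
      rw [decide_eq_true_iff] at h5 h6
      refine ⟨?_, y2 s t h1 h2 h3 h4⟩
      rw [abs_le]
      have a1 := (D.N2 h1 h2).1
      have a2 := (D.N2 h3 h4).1
      exact ⟨by linarith, by linarith⟩
  have cM : AC x y (iv g1 e2) g1 e2 := AC_iv o5 (fun t h1 h2 => step t (by omega) (by omega))
  have refl : ∀ t, |x t - x t| ≤ 2 ∧ |y t - y t| ≤ 2 := by
    intro t
    simp
  have jg2e2 : |x g2 - x e2| ≤ 2 ∧ |y g2 - y e2| ≤ 2 := by
    refine ⟨?_, y2 g2 e2 (by omega) le_rfl le_rfl (by omega)⟩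
    rw [abs_le]
    exact ⟨by linarith, by linarith⟩
  have je2g2 : |x e2 - x g2| ≤ 2 ∧ |y e2 - y g2| ≤ 2 := by
    rw [abs_sub_comm (x e2), abs_sub_comm (y e2)]
    exact jg2e2
  have jg1e1 : |x g1 - x e1| ≤ 2 ∧ |y g1 - y e1| ≤ 2 := by
    refine ⟨?_, y1 g1 e1 (by omega) le_rfl le_rfl (by omega)⟩
    rw [abs_le]
    exact ⟨by linarith, by linarith⟩
  have cQ1 : AC x y (Q1 x t0 t1 t2 t3 e1 g1 e2 g2) e1 g2 := by
    unfold Q1
    exact AC_app (AC_app (AC_app (AC_app cR1 cM (refl _)) cR2 (refl _)) (AC_single e2) jg2e2)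
      cL2 (refl _)
  have cQ2 : AC x y (Q2 x t1 e1 g1 e2) e2 g1 := by
    unfold Q2
    exact AC_app (AC_app (AC_single e2) (AC_reverse cM) (refl _)) cL1 jg1e1
  have cQ3 : AC x y (Q3 g1 e2 g2) g1 g2 := by
    unfold Q3
    exact AC_app (AC_app (AC_single g1) cM (refl _)) (AC_single g2) je2g2
  have cA : AC x y (iv (s0 + 1) (e1 - 1)) (s0 + 1) (e1 - 1) :=
    AC_iv (by omega) (fun t h1 h2 => step t (by omega) (by omega))
  have cB : AC x y (iv (g2 + 1) s5) (g2 + 1) s5 :=
    AC_iv (by omega) (fun t h1 h2 => step t (by omega) (by omega))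
  have j1 : |x (e1 - 1) - x e1| ≤ 2 ∧ |y (e1 - 1) - y e1| ≤ 2 := by
    have := step (e1 - 1) (by omega) (by omega)
    rwa [show e1 - 1 + 1 = e1 by omega] at this
  have j2 : |x g2 - x (g2 + 1)| ≤ 2 ∧ |y g2 - y (g2 + 1)| ≤ 2 := step g2 (by omega) (by omega)
  unfold rt
  exact (AC_app (AC_app cA (AC_app (AC_app cQ1 cQ2 jg2e2) cQ3 (refl _)) j1) cB j2).1

end Pool.Agent.Lib.MP_04143b_an
end

section

/-! # The block: first and last piece -/

open Set

namespace Pool.Agent.Lib.MP_04143b_an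

variable {x y : ℕ → ℝ} {η : ℝ} {s0 t0 t1 t2 t3 s5 e1 g1 e2 g2 : ℕ}

private theorem bx_drop_app {l l' : List ℕ} (h1 : NoDrop x l) (h2 : NoDrop x l') (c : ℝ)
    (ha : ∀ a ∈ l, x a ≤ c + 2) (hb : ∀ b ∈ l', c ≤ x b) : NoDrop x (l ++ l') := by
  unfold NoDrop
  rw [List.pairwise_append]
  refine ⟨h1, h2, ?_⟩
  intro a ha' b hb'
  linarith [ha a ha', hb b hb']

private theorem bx_rise_app {l l' : List ℕ} (h1 : NoRise x l) (h2 : NoRise x l') (c : ℝ)
    (ha : ∀ a ∈ l, c ≤ x a) (hb : ∀ b ∈ l', x b ≤ c + 2) : NoRise x (l ++ l') := by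
  unfold NoRise
  rw [List.pairwise_append]
  refine ⟨h1, h2, ?_⟩
  intro a ha' b hb'
  linarith [ha a ha', hb b hb']

private theorem bx_drop_band {l : List ℕ} (c : ℝ) (h : ∀ a ∈ l, c ≤ x a ∧ x a ≤ c + 2) :
    NoDrop x l := by
  unfold NoDrop
  rw [List.pairwise_iff_forall_sublist]
  intro a b hab
  have ha : a ∈ l := hab.subset (by simp)
  have hb : b ∈ l := hab.subset (by simp)
  linarith [(h a ha).2, (h b hb).1]

private theorem bx_rise_band {l : List ℕ} (c : ℝ) (h : ∀ a ∈ l, c ≤ x a ∧ x a ≤ c + 2) :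
    NoRise x l := by
  unfold NoRise
  rw [List.pairwise_iff_forall_sublist]
  intro a b hab
  have ha : a ∈ l := hab.subset (by simp)
  have hb : b ∈ l := hab.subset (by simp)
  linarith [(h a ha).1, (h b hb).2]

private theorem bx_drop_iv {p q a b : ℕ} (h : ∀ s t, p ≤ s → s ≤ t → t ≤ q → x s - x t ≤ 2)
    (h1 : p ≤ a) (h2 : b ≤ q) : NoDrop x (iv a b) := by
  unfold NoDrop
  refine (iv_pairwise a b).imp_of_mem ?_
  intro s t hs ht hst
  rw [mem_iv] at hs ht
  exact h s t (by omega) hst.le (by omega)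

private theorem bx_rise_iv {p q a b : ℕ} (h : ∀ s t, p ≤ s → s ≤ t → t ≤ q → x t - x s ≤ 2)
    (h1 : p ≤ a) (h2 : b ≤ q) : NoRise x (iv a b) := by
  unfold NoRise
  refine (iv_pairwise a b).imp_of_mem ?_
  intro s t hs ht hst
  rw [mem_iv] at hs ht
  exact h s t (by omega) hst.le (by omega)

/-- levels on the outer parts -/
private theorem bx_out (D : BD x y η s0 t0 t1 t2 t3 s5 e1 g1 e2 g2) :
    (∀ t, t0 ≤ t → t ≤ e1 → min (x t0) (x t2) - 2 ≤ x t ∧ x t ≤ x t0) ∧
    (∀ t, g2 ≤ t → t ≤ t3 → x t3 ≤ x t ∧ x t ≤ max (x t1) (x t3) + 2) ∧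
    (∀ t, g1 ≤ t → t ≤ e2 → x t1 ≤ x t) ∧
    (∀ s t, t0 ≤ s → s ≤ t → t ≤ t1 → x t - x s ≤ 2) ∧
    (∀ s t, t2 ≤ s → s ≤ t → t ≤ t3 → x t - x s ≤ 2) := by
  obtain ⟨o1, o2, o3, o4, o5, o6, o7, o8, o9⟩ := D.order
  have hm : min (-x t1) (-x t3) = - max (x t1) (x t3) := min_neg_neg _ _
  refine ⟨?_, ?_, ?_, ?_, ?_⟩
  · intro t h1 h2
    refine ⟨D.n1.left t h1 h2, ?_⟩
    have h := D.l1.low t h1 (by omega)
    linarith
  · intro t h1 h2
    have h := D.l3.high t (by omega) h2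
    have h' := D.n2.right t h1 h2
    simp only [hm] at h'
    exact ⟨by linarith, by linarith⟩
  · intro t h1 h2
    exact D.l2.low t (by omega) (by omega)
  · intro s t h1 h2 h3
    have h := D.l1.nodrop s t h1 h2 h3
    linarith
  · intro s t h1 h2 h3
    have h := D.l3.nodrop s t h1 h2 h3
    linarith

/-- The first piece if `x t0 ≤ x t2`. -/
theorem piece_inc (D : BD x y η s0 t0 t1 t2 t3 s5 e1 g1 e2 g2) (h : x t0 ≤ x t2) :
    NoDrop x (iv (s0 + 1) (e1 - 1) ++ (R1 x t0 t2 e1 g1 ++ iv g1 e2 ++ R2 x t2 e2 g2)) := by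
  obtain ⟨o1, o2, o3, o4, o5, o6, o7, o8, o9⟩ := D.order
  obtain ⟨v1, v2, v3, v4, v5, v6⟩ := D.levels
  have hp := D.pos
  have hs := D.small
  obtain ⟨u1, u2, u3, u4, u5⟩ := bx_out D
  have hH : min (x t0) (x t2) = x t0 := min_eq_left h
  have hA : iv (s0 + 1) (e1 - 1) = iv (s0 + 1) t0 ++ iv (t0 + 1) (e1 - 1) :=
    (iv_append (by omega) (by omega)).symm
  have m1 : ∀ a ∈ iv (s0 + 1) t0, x a ≤ x t0 := by
    intro a ha
    rw [mem_iv] at ha
    exact D.l0.high a (by omega) (by omega)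
  have m2 : ∀ a ∈ iv (t0 + 1) (e1 - 1), x t0 - 2 ≤ x a ∧ x a ≤ x t0 := by
    intro a ha
    rw [mem_iv] at ha
    have := u1 a (by omega) (by omega)
    rw [hH] at this
    exact this
  have m3 : ∀ a ∈ R1 x t0 t2 e1 g1, x t0 - 2 ≤ x a ∧ x a ≤ x t0 := by
    intro a ha
    rw [mem_R1, hH] at ha
    have := (D.N1 ha.1.1 ha.1.2).2
    rw [hH] at this
    exact ⟨ha.2, this⟩
  have m4 : ∀ a ∈ iv g1 e2, x t0 - 2 ≤ x a ∧ x a ≤ x t2 := by
    intro a ha
    rw [mem_iv] at ha
    have := D.M ha.1 ha.2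
    rw [hH] at this
    exact ⟨this.1, by linarith [this.2]⟩
  have m5 : ∀ a ∈ R2 x t2 e2 g2, x t2 - 2 ≤ x a ∧ x a ≤ x t2 := by
    intro a ha
    rw [mem_R2] at ha
    exact ⟨ha.2, (D.N2 ha.1.1 ha.1.2).2⟩
  rw [hA]
  refine bx_drop_app (bx_drop_app (bx_drop_iv D.l0.nodrop (by omega) (by omega))
    (bx_drop_band (x t0 - 2) ?_) (x t0 - 2) ?_ ?_)
    (bx_drop_app (bx_drop_app (bx_drop_band (x t0 - 2) ?_)
      (bx_drop_iv D.l2.nodrop (by omega) (by omega)) (x t0 - 2) ?_ ?_)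
      (bx_drop_band (x t2 - 2) ?_) (x t2 - 2) ?_ ?_) (x t0 - 2) ?_ ?_
  · intro a ha
    have := m2 a ha
    exact ⟨by linarith, by linarith⟩
  · intro a ha
    have := m1 a ha
    linarith
  · intro a ha
    exact (m2 a ha).1
  · intro a ha
    have := m3 a ha
    exact ⟨by linarith, by linarith⟩
  · intro a ha
    have := m3 a ha
    linarith
  · intro a ha
    exact (m4 a ha).1
  · intro a ha
    have := m5 a ha
    exact ⟨by linarith, by linarith⟩
  · intro a ha
    rw [List.mem_append] at ha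
    rcases ha with ha | ha
    · have := m3 a ha
      linarith
    · have := m4 a ha
      linarith
  · intro a ha
    exact (m5 a ha).1
  · intro a ha
    rw [List.mem_append] at ha
    rcases ha with ha | ha
    · have := m1 a ha
      linarith
    · have := m2 a ha
      linarith
  · intro a ha
    rw [List.mem_append, List.mem_append] at ha
    rcases ha with (ha | ha) | ha
    · exact (m3 a ha).1
    · exact (m4 a ha).1
    · have := m5 a ha
      linarith

/-- The first piece if `x t2 ≤ x t0`. -/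
theorem piece_inc' (D : BD x y η s0 t0 t1 t2 t3 s5 e1 g1 e2 g2) :
    NoDrop x (iv (s0 + 1) t0) :=
  bx_drop_iv D.l0.nodrop (by omega) le_rfl

/-- The third piece if `x t3 ≤ x t1`. -/
theorem piece_last (D : BD x y η s0 t0 t1 t2 t3 s5 e1 g1 e2 g2) :
    NoDrop x (iv (t3 + 1) s5) :=
  bx_drop_iv D.l4.nodrop (by omega) le_rfl

/-- The third piece if `x t1 ≤ x t3`. -/
theorem piece_last' (D : BD x y η s0 t0 t1 t2 t3 s5 e1 g1 e2 g2) (h' : x t1 ≤ x t3) :
    NoDrop x (Q3 g1 e2 g2 ++ iv (g2 + 1) s5) := by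
  obtain ⟨o1, o2, o3, o4, o5, o6, o7, o8, o9⟩ := D.order
  obtain ⟨v1, v2, v3, v4, v5, v6⟩ := D.levels
  have hp := D.pos
  have hs := D.small
  obtain ⟨u1, u2, u3, u4, u5⟩ := bx_out D
  have hA : max (x t1) (x t3) = x t3 := max_eq_right h'
  have hB : iv (g2 + 1) s5 = iv (g2 + 1) t3 ++ iv (t3 + 1) s5 :=
    (iv_append (by omega) (by omega)).symm
  obtain ⟨w3, w4⟩ := D.xg1
  obtain ⟨w7, w8⟩ := D.xg2
  rw [hA] at w7 w8
  have m4 : ∀ a ∈ iv g1 e2, min (x t0) (x t2) - 2 ≤ x a ∧ x a ≤ x t3 + 2 := by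
    intro a ha
    rw [mem_iv] at ha
    have := D.M ha.1 ha.2
    rw [hA] at this
    exact this
  have mg1 : x g1 ≤ x t3 + 2 := (m4 g1 (by rw [mem_iv]; omega)).2
  have m6 : ∀ a ∈ iv (g2 + 1) t3, x t3 ≤ x a ∧ x a ≤ x t3 + 2 := by
    intro a ha
    rw [mem_iv] at ha
    have := u2 a (by omega) (by omega)
    rw [hA] at this
    exact this
  have m7 : ∀ a ∈ iv (t3 + 1) s5, x t3 ≤ x a := by
    intro a ha
    rw [mem_iv] at ha
    exact D.l4.low a (by omega) (by omega)
  rw [hB]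
  unfold Q3
  refine bx_drop_app (bx_drop_app (bx_drop_app (List.pairwise_singleton _ _)
    (bx_drop_iv D.l2.nodrop (by omega) (by omega)) (min (x t0) (x t2) - 2) ?_ ?_)
    (List.pairwise_singleton _ _) (x t3) ?_ ?_)
    (bx_drop_app (bx_drop_band (x t3) m6) (bx_drop_iv D.l4.nodrop (by omega) le_rfl)
      (x t3) ?_ ?_) (x t3) ?_ ?_
  · intro a ha
    rw [List.mem_singleton] at ha
    subst ha
    linarith
  · intro a ha
    exact (m4 a ha).1
  · intro a ha
    rw [List.mem_append, List.mem_singleton] at ha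
    rcases ha with ha | ha
    · subst ha
      exact mg1
    · exact (m4 a ha).2
  · intro a ha
    rw [List.mem_singleton] at ha
    subst ha
    linarith
  · intro a ha
    exact (m6 a ha).2
  · intro a ha
    exact m7 a ha
  · intro a ha
    rw [List.mem_append, List.mem_append, List.mem_singleton, List.mem_singleton] at ha
    rcases ha with (ha | ha) | ha
    · subst ha
      exact mg1
    · exact (m4 a ha).2
    · subst ha
      exact w8
  · intro a ha
    rw [List.mem_append] at ha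
    rcases ha with ha | ha
    · exact (m6 a ha).1
    · exact m7 a ha

end Pool.Agent.Lib.MP_04143b_an
end

section

/-! # The block: cutting the modified route into three pieces -/

open Set

namespace Pool.Agent.Lib.MP_04143b_an

variable {x y : ℕ → ℝ} {η : ℝ} {s0 t0 t1 t2 t3 s5 e1 g1 e2 g2 : ℕ}

theorem rt_x (D : BD x y η s0 t0 t1 t2 t3 s5 e1 g1 e2 g2) :
    ∃ E1 E2 E3 : List ℕ, E1 ++ E2 ++ E3 = rt x s0 t0 t1 t2 t3 s5 e1 g1 e2 g2 ∧
      NoDrop x E1 ∧ NoRise x E2 ∧ NoDrop x E3 := by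
  obtain ⟨o1, o2, o3, o4, o5, o6, o7, o8, o9⟩ := D.order
  have ha : iv (s0 + 1) (e1 - 1) = iv (s0 + 1) t0 ++ iv (t0 + 1) (e1 - 1) :=
    (iv_append (by omega) (by omega)).symm
  have hb : iv (g2 + 1) s5 = iv (g2 + 1) t3 ++ iv (t3 + 1) s5 :=
    (iv_append (by omega) (by omega)).symm
  rcases le_total (x t0) (x t2) with h | h <;> rcases le_total (x t3) (x t1) with h' | h'
  · refine ⟨_, _, _, ?_, piece_inc D h, piece_dec1 D h', piece_last D⟩
    unfold rt Q1
    rw [hb]
    simp only [List.append_assoc]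
  · refine ⟨_, _, _, ?_, piece_inc D h, piece_dec2 D h', piece_last' D h'⟩
    unfold rt Q1
    simp only [List.append_assoc]
  · refine ⟨_, _, _, ?_, piece_inc' D, piece_dec3 D h h', piece_last D⟩
    unfold rt
    rw [ha, hb]
    simp only [List.append_assoc]
  · refine ⟨_, _, _, ?_, piece_inc' D, piece_dec4 D h h', piece_last' D h'⟩
    unfold rt
    rw [ha]
    simp only [List.append_assoc]

end Pool.Agent.Lib.MP_04143b_an
end

section

open Set

namespace Pool.Agent.Lib.MP_04143b_an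

/-- Five legs with a mergeable leg in the middle can be replaced by three pieces. -/
theorem block {x y : ℕ → ℝ} {η : ℝ} {s0 t0 t1 t2 t3 s5 e1 g1 e2 g2 : ℕ}
    (D : BD x y η s0 t0 t1 t2 t3 s5 e1 g1 e2 g2) :
    ∃ E1 E2 E3 : List ℕ, NoDrop x E1 ∧ NoRise x E2 ∧ NoDrop x E3 ∧ Adj x y (E1 ++ E2 ++ E3) ∧
      (E1 ++ E2 ++ E3).head? = some (s0 + 1) ∧ (E1 ++ E2 ++ E3).getLast? = some s5 ∧
      (∀ t, t ∈ E1 ++ E2 ++ E3 ↔ s0 < t ∧ t ≤ s5) ∧
      ∀ u w k, ZLe y (u ++ iv (s0 + 1) s5 ++ w) k → ZLe y (u ++ (E1 ++ E2 ++ E3) ++ w) (k + 2) := by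
  obtain ⟨E1, E2, E3, hE, h1, h2, h3⟩ := rt_x D
  refine ⟨E1, E2, E3, h1, h2, h3, ?_⟩
  rw [hE]
  exact ⟨adj_rt D, rt_head D, rt_getLast D, mem_rt D, rt_y D⟩

end Pool.Agent.Lib.MP_04143b_an
end

section

/-! # Routes up to a tip -/

open Set

namespace Pool.Agent.Lib.MP_04143b_an

/-- `L` is a route for the labels `0, ..., τ i` which uses `q` merges, cut into `i - 2 q`
pieces. -/
structure Pre (x y : ℕ → ℝ) (s : Bool) (τ : ℕ → ℕ) (i q : ℕ) (L : List (List ℕ)) : Prop where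
  len : L.length + 2 * q = i
  alts : Alts x s L
  mem : ∀ t, t ∈ L.flatten ↔ t ≤ τ i
  adj : Adj x y L.flatten
  last : L.flatten.getLast? = some (τ i)
  yy : ∀ w k, ZLe y (iv 0 (τ i) ++ w) k → ZLe y (L.flatten ++ w) (k + 2 * q)

variable {x y : ℕ → ℝ} {N m : ℕ} {s : Bool} {τ e g : ℕ → ℕ} {η : ℝ}

private theorem pr_tau_lt (S : Setup x y N m s τ e g η) {i j : ℕ} (hij : i < j) (hj : j ≤ m) :
    τ i < τ j := by
  induction j with
  | zero => omega
  | succ j ih =>
    have h1 := (S.tips.leg j (by omega)).lt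
    rcases Nat.lt_or_ge i j with h2 | h2
    · exact (ih h2 (by omega)).trans h1
    · have : i = j := by omega
      subst this
      exact h1

private theorem pr_sg_abs (s : Bool) (x : ℕ → ℝ) (a b : ℕ) : |sg s x a - sg s x b| = |x a - x b| := by
  cases s
  · simp only [sg]
    rw [show (if (false : Bool) = true then x a else - x a) = - x a from rfl,
      show (if (false : Bool) = true then x b else - x b) = - x b from rfl]
    rw [show - x a - - x b = -(x a - x b) by ring, abs_neg]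
  · rfl

/-- From a setup to the data of a block (in the orientation of the first leg). -/
theorem Setup.block (S : Setup x y N m s τ e g η) {i : ℕ} (him : i + 5 ≤ m)
    (hm : Mg x y s τ e g η (i + 2)) :
    BD (sg (dir s i) x) y η (τ i) (τ (i + 1)) (τ (i + 2)) (τ (i + 3)) (τ (i + 4)) (τ (i + 5))
      (e (i + 2)) (g (i + 2)) (e (i + 3)) (g (i + 3)) := by
  have hd1 : dir s (i + 1) = !dir s i := rfl
  have hd2 : dir s (i + 2) = dir s i := by
    show (!(!dir s i)) = dir s i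
    rw [Bool.not_not]
  have hd3 : dir s (i + 3) = !dir s i := by
    show (!dir s (i + 2)) = _
    rw [hd2]
  have hd4 : dir s (i + 4) = dir s i := by
    show (!dir s (i + 3)) = _
    rw [hd3, Bool.not_not]
  have hN : τ (i + 5) ≤ N := by
    rcases Nat.lt_or_ge (i + 5) m with h5 | h5
    · exact (pr_tau_lt S h5 le_rfl).le.trans S.tips.last
    · have : i + 5 = m := by omega
      rw [this]; exact S.tips.last
  have l0 := S.tips.leg i (by omega)
  have l1 := S.tips.leg (i + 1) (by omega)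
  have l2 := S.tips.leg (i + 2) (by omega)
  have l3 := S.tips.leg (i + 3) (by omega)
  have l4 := S.tips.leg (i + 4) (by omega)
  rw [hd1, sg_not] at l1
  rw [hd2] at l2
  rw [hd3, sg_not] at l3
  rw [hd4] at l4
  have n1 := S.notch (i + 2) (by omega) (by omega)
  have n2 := S.notch (i + 3) (by omega) (by omega)
  rw [hd2] at n1
  rw [hd3, sg_not] at n2
  have d1 := hm.d1
  have d2 := hm.d2
  unfold dep at d1 d2
  rw [hd2] at d1
  rw [show i + 2 + 1 = i + 3 from rfl, hd3, sg_not] at d2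
  simp only [show i + 2 - 1 = i + 1 by omega, show i + 2 + 1 = i + 3 from rfl,
    show i + 3 - 1 = i + 2 by omega, show i + 3 + 1 = i + 4 from rfl] at d1 d2 n1 n2
  exact
    { pos := S.pos
      small := S.small
      stepx := by
        intro t h1 h2
        rw [pr_sg_abs]
        exact S.stepx t (by omega)
      stepy := fun t h1 h2 => S.stepy t (by omega)
      l0 := l0
      l1 := l1
      l2 := l2
      l3 := l3
      l4 := l4
      n1 := n1
      n2 := n2
      d1 := d1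
      d2 := by
        rw [min_neg_neg] at d2
        linarith
      sep := hm.sep
      osc1 := hm.osc1
      osc2 := hm.osc2
      tw := hm.tw }

theorem Setup.tau_lt (S : Setup x y N m s τ e g η) {i j : ℕ} (hij : i < j) (hj : j ≤ m) :
    τ i < τ j := pr_tau_lt S hij hj

/-- Combine two adjacent routes. -/
theorem adj_append {l l' : List ℕ} {a b : ℕ} (h : Adj x y l) (h' : Adj x y l')
    (hl : l.getLast? = some a) (hl' : l'.head? = some b)
    (hab : |x a - x b| ≤ 2 ∧ |y a - y b| ≤ 2) : Adj x y (l ++ l') := by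
  unfold Adj at *
  rw [List.isChain_append]
  refine ⟨h, h', ?_⟩
  intro u hu v hv
  rw [hl] at hu
  rw [hl'] at hv
  simp only [Option.mem_def, Option.some.injEq] at hu hv
  subst hu
  subst hv
  exact hab

theorem adj_iv (S : Setup x y N m s τ e g η) {a b : ℕ} (hb : b ≤ N) : Adj x y (iv a b) := by
  refine iv_isChain ?_
  intro t h1 h2
  have hx := S.stepx t (by omega)
  have hy := S.stepy t (by omega)
  have hs := S.small
  rw [abs_sub_comm] at hx hy
  exact ⟨by linarith, by linarith⟩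

theorem pre_one (S : Setup x y N m s τ e g η) : Pre x y s τ 1 0 [iv 0 (τ 1)] := by
  have hpos := S.tips.pos
  have h01 : τ 0 < τ 1 := pr_tau_lt S (by omega) hpos
  have hN : τ 1 ≤ N := by
    rcases Nat.lt_or_ge 1 m with h5 | h5
    · exact (pr_tau_lt S h5 le_rfl).le.trans S.tips.last
    · have : 1 = m := by omega
      rw [this]; exact S.tips.last
  have hleg := S.tips.leg 0 hpos
  have hhead := S.tips.head
  have hnd : NoDrop (sg s x) (iv 0 (τ 1)) := by
    unfold NoDrop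
    refine List.Pairwise.imp_of_mem ?_ (iv_pairwise 0 (τ 1))
    intro u v hu hv huv
    rw [mem_iv] at hu hv
    have hleg' : Leg (sg s x) (τ 0) (τ 1) := hleg
    rcases Nat.lt_or_ge (τ 0) v with h1 | h1
    · rcases Nat.lt_or_ge (τ 0) u with h2 | h2
      · exact hleg'.nodrop u v h2.le huv.le hv.2
      · have h3 := hhead u h2
        have h4 := hleg'.low v h1.le hv.2
        linarith
    · have h3 := hhead u (by omega)
      have h4 := hhead v h1
      linarith
  refine ⟨by simp, ?_, ?_, ?_, ?_, ?_⟩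
  · cases s with
    | false =>
      have e1 : sg false x = fun t => - x t := by
        funext t; simp [sg]
      rw [e1, noDrop_neg] at hnd
      exact ⟨hnd, trivial⟩
    | true =>
      have e1 : sg true x = x := by
        funext t; simp [sg]
      rw [e1] at hnd
      exact ⟨hnd, trivial⟩
  · intro t
    simp only [List.flatten_cons, List.flatten_nil, List.append_nil]
    rw [mem_iv]
    omega
  · simp only [List.flatten_cons, List.flatten_nil, List.append_nil]
    exact adj_iv S hN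
  · simp only [List.flatten_cons, List.flatten_nil, List.append_nil]
    exact iv_getLast (Nat.zero_le _)
  · intro w k hz
    simpa using hz

end Pool.Agent.Lib.MP_04143b_an
end
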