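import Pool.Agent.Lib.MP_04143b_an.Mg.G012
import Pool.Agent.Lib.MP_04143b_an.SepSub

section

/-! # Routes up to a tip: a merge -/

open Set

namespace Pool.Agent.Lib.MP_04143b_an

variable {x y : ℕ → ℝ} {N m : ℕ} {s : Bool} {τ e g : ℕ → ℕ} {η : ℝ}

theorem pre_block (S : Setup x y N m s τ e g η) {i q : ℕ} {L : List (List ℕ)}
    (h : Pre x y s τ i q L) (him : i + 5 ≤ m) (hm : Mg x y s τ e g η (i + 2)) :
    ∃ L', Pre x y s τ (i + 5) (q + 1) L' := by
  have D := S.block him hm
  obtain ⟨E1, E2, E3, h1, h2, h3, hadj, hhead, hlast, hmem, hyy⟩ := block D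
  have hfl : (L ++ [E1, E2, E3]).flatten = L.flatten ++ (E1 ++ E2 ++ E3) := by
    simp [List.flatten_append]
  have hiL : dir s L.length = dir s i := by
    have := h.len
    rw [← this, dir_add, dir_two_mul]
  have htau : τ i < τ (i + 5) := S.tau_lt (by omega) him
  have hlastN : τ (i + 5) ≤ N := by
    rcases Nat.lt_or_ge (i + 5) m with h5 | h5
    · exact (S.tau_lt h5 le_rfl).le.trans S.tips.last
    · have : i + 5 = m := by omega
      rw [this]; exact S.tips.last
  refine ⟨L ++ [E1, E2, E3], ?_, ?_, ?_, ?_, ?_, ?_⟩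
  · have := h.len
    simp only [List.length_append, List.length_cons, List.length_nil]
    omega
  · rw [alts_append]
    refine ⟨h.alts, ?_⟩
    rw [hiL]
    rcases hd : dir s i with _ | _
    · rw [hd] at h1 h2 h3
      have e1 : sg false x = fun t => - x t := by
        funext t; simp [sg]
      rw [e1] at h1 h2 h3
      rw [noDrop_neg] at h1 h3
      rw [noRise_neg] at h2
      exact ⟨h1, h2, h3, trivial⟩
    · rw [hd] at h1 h2 h3
      have e1 : sg true x = x := by
        funext t; simp [sg]
      rw [e1] at h1 h2 h3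
      exact ⟨h1, h2, h3, trivial⟩
  · intro t
    rw [hfl, List.mem_append, h.mem, hmem]
    omega
  · rw [hfl]
    refine adj_append h.adj (adj_sg.mp hadj) h.last hhead ?_
    have hx := S.stepx (τ i) (by omega)
    have hy := S.stepy (τ i) (by omega)
    have hs := S.small
    rw [abs_sub_comm] at hx hy
    exact ⟨by linarith, by linarith⟩
  · rw [hfl, List.getLast?_append, hlast]
    rfl
  · intro w k hz
    rw [hfl]
    have e2 : iv 0 (τ (i + 5)) ++ w = iv 0 (τ i) ++ (iv (τ i + 1) (τ (i + 5)) ++ w) := by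
      rw [← List.append_assoc, iv_append (by omega) (by omega)]
    rw [e2] at hz
    have h4 := h.yy _ _ hz
    rw [← List.append_assoc] at h4
    have h5 := hyy _ _ _ h4
    have e3 : k + 2 * (q + 1) = k + 2 * q + 2 := by ring
    rw [e3]
    exact h5

end Pool.Agent.Lib.MP_04143b_an
end

section

/-! # Routes up to a tip: a leg without change, the end -/

open Set

namespace Pool.Agent.Lib.MP_04143b_an

variable {x y : ℕ → ℝ} {N m : ℕ} {s : Bool} {τ e g : ℕ → ℕ} {η : ℝ}

private theorem ps_tau_le (S : Setup x y N m s τ e g η) {i : ℕ} (hi : i ≤ m) : τ i ≤ N := by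
  rcases Nat.lt_or_ge i m with h5 | h5
  · exact (S.tau_lt h5 le_rfl).le.trans S.tips.last
  · have : i = m := by omega
    rw [this]; exact S.tips.last

/-- the alternation for one more piece -/
private theorem ps_alts {L : List (List ℕ)} {P : List ℕ} {i q : ℕ} (h : Pre x y s τ i q L)
    (hP : NoDrop (sg (dir s i) x) P) : Alts x s (L ++ [P]) := by
  rw [alts_append]
  refine ⟨h.alts, ?_⟩
  have hiL : dir s L.length = dir s i := by
    have := h.len
    rw [← this, dir_add, dir_two_mul]
  rw [hiL]
  rcases hd : dir s i with _ | _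
  · rw [hd] at hP
    have e1 : sg false x = fun t => - x t := by
      funext t; simp [sg]
    rw [e1, noDrop_neg] at hP
    exact ⟨hP, trivial⟩
  · rw [hd] at hP
    have e1 : sg true x = x := by
      funext t; simp [sg]
    rw [e1] at hP
    exact ⟨hP, trivial⟩

/-- Pairs in an interval list are ordered. -/
private theorem ps_noDrop {f : ℕ → ℝ} {a b : ℕ}
    (h : ∀ s t, a ≤ s → s < t → t ≤ b → f s - f t ≤ 2) : NoDrop f (iv a b) := by
  unfold NoDrop
  refine List.Pairwise.imp_of_mem ?_ (iv_pairwise a b)
  intro u v hu hv huv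
  rw [mem_iv] at hu hv
  exact h u v hu.1 huv hv.2

private theorem ps_adj (S : Setup x y N m s τ e g η) {i q b : ℕ} {L : List (List ℕ)}
    (h : Pre x y s τ i q L) (hb : b ≤ N) (hi : τ i < b) :
    Adj x y (L.flatten ++ iv (τ i + 1) b) := by
  refine adj_append h.adj (adj_iv S hb) h.last (iv_head (by omega)) ?_
  have hx := S.stepx (τ i) (by omega)
  have hy := S.stepy (τ i) (by omega)
  have hs := S.small
  rw [abs_sub_comm] at hx hy
  exact ⟨by linarith, by linarith⟩

theorem pre_step (S : Setup x y N m s τ e g η) {i q : ℕ} {L : List (List ℕ)}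
    (h : Pre x y s τ i q L) (hi : i < m) :
    Pre x y s τ (i + 1) q (L ++ [iv (τ i + 1) (τ (i + 1))]) := by
  have hfl : (L ++ [iv (τ i + 1) (τ (i + 1))]).flatten
      = L.flatten ++ iv (τ i + 1) (τ (i + 1)) := by
    simp [List.flatten_append]
  have htau : τ i < τ (i + 1) := S.tau_lt (by omega) hi
  have hN : τ (i + 1) ≤ N := ps_tau_le S hi
  refine ⟨?_, ?_, ?_, ?_, ?_, ?_⟩
  · have := h.len
    simp only [List.length_append, List.length_cons, List.length_nil]
    omega
  · refine ps_alts h (ps_noDrop ?_)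
    intro u v hu huv hv
    exact (S.tips.leg i hi).nodrop u v (by omega) huv.le hv
  · intro t
    rw [hfl, List.mem_append, h.mem, mem_iv]
    omega
  · rw [hfl]
    exact ps_adj S h hN htau
  · rw [hfl, List.getLast?_append, iv_getLast (by omega)]
    rfl
  · intro w k hz
    rw [hfl]
    have e2 : iv 0 (τ (i + 1)) ++ w = iv 0 (τ i) ++ (iv (τ i + 1) (τ (i + 1)) ++ w) := by
      rw [← List.append_assoc, iv_append (by omega) (by omega)]
    rw [e2] at hz
    have h4 := h.yy _ _ hz
    rw [← List.append_assoc] at h4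
    exact h4

theorem pre_fin (S : Setup x y N m s τ e g η) {q : ℕ} {L : List (List ℕ)} (hm : 2 ≤ m)
    (h : Pre x y s τ (m - 1) q L) :
    ∃ r : List ℕ, (∀ t, t ∈ r ↔ t ≤ N) ∧ Adj x y r ∧ ZLe x r (m + 1 - 2 * q) ∧
      ∀ k, ZLe y (iv 0 N) k → ZLe y r (k + 2 * q) := by
  have hfl : (L ++ [iv (τ (m - 1) + 1) N]).flatten = L.flatten ++ iv (τ (m - 1) + 1) N := by
    simp [List.flatten_append]
  have hm1 : m - 1 + 1 = m := by omega
  have htau : τ (m - 1) < τ m := S.tau_lt (by omega) le_rfl
  have hN : τ m ≤ N := S.tips.last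
  refine ⟨L.flatten ++ iv (τ (m - 1) + 1) N, ?_, ?_, ?_, ?_⟩
  · intro t
    rw [List.mem_append, h.mem, mem_iv]
    omega
  · exact ps_adj S h le_rfl (by omega)
  · have hlen := h.len
    have e1 : m + 1 - 2 * q = (L ++ [iv (τ (m - 1) + 1) N]).length + 1 := by
      simp only [List.length_append, List.length_cons, List.length_nil]
      omega
    rw [e1, ← hfl]
    apply zle_alts
    refine ps_alts h (ps_noDrop ?_)
    have hleg := S.tips.leg (m - 1) (by omega)
    rw [hm1] at hleg
    have htail := S.tips.tail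
    intro u v hu huv hv
    rcases Nat.lt_or_ge (τ m) v with h1 | h1
    · rcases Nat.lt_or_ge (τ m) u with h2 | h2
      · have h3 := htail u (by omega) (by omega)
        have h4 := htail v (by omega) hv
        linarith
      · have h3 := hleg.high u (by omega) h2
        have h4 := htail v (by omega) hv
        linarith
    · exact hleg.nodrop u v (by omega) huv.le h1
  · intro k hz
    have e2 : iv 0 N = iv 0 (τ (m - 1)) ++ iv (τ (m - 1) + 1) N := by
      rw [iv_append (by omega) (by omega)]
    rw [e2] at hz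
    exact h.yy _ _ hz

end Pool.Agent.Lib.MP_04143b_an
end

section

/-! # Routes with many merges -/

open Set

namespace Pool.Agent.Lib.MP_04143b_an

variable {x y : ℕ → ℝ} {N m : ℕ} {s : Bool} {τ e g : ℕ → ℕ} {η : ℝ}

theorem pre_many (S : Setup x y N m s τ e g η) {i : ℕ} (hi : 1 ≤ i) (him : i + 1 ≤ m)
    (J : Finset ℕ) (hJ : ∀ j ∈ J, 3 ≤ j ∧ j + 3 ≤ i ∧ Mg x y s τ e g η j)
    (hsep : ∀ j ∈ J, ∀ j' ∈ J, j < j' → j + 5 ≤ j') :
    ∃ L, Pre x y s τ i J.card L := by
  induction i using Nat.strong_induction_on generalizing J with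
  | _ i ih =>
    rcases Nat.lt_or_ge i 2 with h2 | h2
    · have hi1 : i = 1 := by omega
      subst hi1
      have hJe : J = ∅ := by
        rw [Finset.eq_empty_iff_forall_notMem]
        intro j hj
        have := hJ j hj
        omega
      subst hJe
      exact ⟨_, pre_one S⟩
    · by_cases hmem : i - 3 ∈ J
      · have h3 := hJ _ hmem
        have hlt : ∀ j ∈ J.erase (i - 3), j + 5 ≤ i - 3 := by
          intro j hj
          rw [Finset.mem_erase] at hj
          have := hJ j hj.2
          exact hsep j hj.2 _ hmem (by omega)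
        obtain ⟨L, hL⟩ := ih (i - 5) (by omega) (by omega) (by omega) (J.erase (i - 3))
          (by
            intro j hj
            have h4 := hlt j hj
            rw [Finset.mem_erase] at hj
            have := hJ j hj.2
            exact ⟨this.1, by omega, this.2.2⟩)
          (by
            intro j hj j' hj' hjj
            exact hsep j (Finset.mem_of_mem_erase hj) j' (Finset.mem_of_mem_erase hj') hjj)
        obtain ⟨L', hL'⟩ := pre_block S hL (by omega) (by
          have : i - 5 + 2 = i - 3 := by omega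
          rw [this]
          exact h3.2.2)
        refine ⟨L', ?_⟩
        have hc : (J.erase (i - 3)).card + 1 = J.card := Finset.card_erase_add_one hmem
        have hi5 : i - 5 + 5 = i := by omega
        rw [hc, hi5] at hL'
        exact hL'
      · obtain ⟨L, hL⟩ := ih (i - 1) (by omega) (by omega) (by omega) J
          (by
            intro j hj
            have := hJ j hj
            have hne : j ≠ i - 3 := fun h => hmem (h ▸ hj)
            exact ⟨this.1, by omega, this.2.2⟩) hsep
        have h4 := pre_step S hL (by omega)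
        have hi1 : i - 1 + 1 = i := by omega
        rw [hi1] at h4
        exact ⟨_, h4⟩

end Pool.Agent.Lib.MP_04143b_an
end

section

/-! # The exchange theorem -/

open Set

namespace Pool.Agent.Lib.MP_04143b_an

variable {x y : ℕ → ℝ} {N m : ℕ} {s : Bool} {τ e g : ℕ → ℕ} {η : ℝ}

open Classical in
/-- The exchange theorem: `q` merges decrease the number of `x`-turns by `2 q` and increase the
number of `y`-turns by at most `2 q`. -/
theorem exchange (S : Setup x y N m s τ e g η) (hm : 2 ≤ m) {q : ℕ}
    (hq : 5 * q ≤ ((Finset.Ico 1 (m - 1)).filter (fun j => Mg x y s τ e g η j)).card) :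
    ∃ r : List ℕ, (∀ t, t ∈ r ↔ t ≤ N) ∧ Adj x y r ∧ ZLe x r (m + 1 - 2 * q) ∧
      ∀ k, ZLe y (iv 0 N) k → ZLe y r (k + 2 * q) := by
  set A := (Finset.Ico 1 (m - 1)).filter (fun j => Mg x y s τ e g η j) with hA
  set B := A.filter (fun j => 3 ≤ j ∧ j + 3 ≤ m - 1) with hB
  have h1 : A ⊆ B ∪ {1, 2, m - 3, m - 2} := by
    intro j hj
    rw [Finset.mem_union]
    by_cases h : 3 ≤ j ∧ j + 3 ≤ m - 1
    · exact Or.inl (Finset.mem_filter.2 ⟨hj, h⟩)
    · right
      have h2 := Finset.mem_Ico.1 (Finset.mem_filter.1 hj).1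
      simp only [Finset.mem_insert, Finset.mem_singleton]
      omega
  have h2 : A.card ≤ B.card + 4 :=
    calc A.card ≤ (B ∪ {1, 2, m - 3, m - 2}).card := Finset.card_le_card h1
      _ ≤ B.card + ({1, 2, m - 3, m - 2} : Finset ℕ).card := Finset.card_union_le _ _
      _ ≤ B.card + 4 := by
        have := Finset.card_le_four (a := 1) (b := 2) (c := m - 3) (d := m - 2)
        omega
  obtain ⟨J, hJB, hJc, hJ⟩ := sep_subset B q (by omega)
  obtain ⟨L, hL⟩ := pre_many S (i := m - 1) (by omega) (by omega) J
    (by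
      intro j hj
      have h3 := Finset.mem_filter.1 (hJB hj)
      have h4 := Finset.mem_filter.1 h3.1
      exact ⟨h3.2.1, h3.2.2, h4.2⟩) hJ
  rw [hJc] at hL
  exact pre_fin S hm hL

end Pool.Agent.Lib.MP_04143b_an
end
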