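import Pool.Agent.Lib.MP_04143b_an.Mg.G006
import Pool.Agent.Lib.MP_04143b_an.Mg.G005

section

namespace Pool.Agent.Lib.MP_04143b_an

theorem notch_exists {F : ℕ → ℝ} {a c b : ℕ} (h1 : Leg (fun t => - F t) a c) (h2 : Leg F c b) :
    ∃ e g, Notch F a c b e g := by
  classical
  have g1 := h1.gap
  have g2 := h2.gap
  have hac := h1.lt
  have hcb := h2.lt
  set H := min (F a) (F b) with hH
  have hHa : H ≤ F a := min_le_left _ _
  have hHb : H ≤ F b := min_le_right _ _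
  have hc : F c < H - 2 := by
    rcases le_total (F a) (F b) with h | h
    · rw [hH, min_eq_left h]; linarith
    · rw [hH, min_eq_right h]; linarith
  have ex1 : ∃ t, a ≤ t ∧ F t < H - 2 := ⟨c, hac.le, hc⟩
  have ex2 : ∃ t, c ≤ t ∧ ∀ s, t ≤ s → s ≤ b → H - 2 ≤ F s := by
    refine ⟨b, hcb.le, fun s hs hs' => ?_⟩
    rw [le_antisymm hs' hs]
    linarith
  obtain ⟨ha1, hF1⟩ := Nat.find_spec ex1
  have hmin1 : ∀ {m : ℕ}, m < Nat.find ex1 → ¬ (a ≤ m ∧ F m < H - 2) := Nat.find_min ex1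
  have hle1 : Nat.find ex1 ≤ c := Nat.find_min' ex1 ⟨hac.le, hc⟩
  obtain ⟨hc2, hF2⟩ := Nat.find_spec ex2
  have hmin2 : ∀ {m : ℕ}, m < Nat.find ex2 → ¬ (c ≤ m ∧ ∀ s, m ≤ s → s ≤ b → H - 2 ≤ F s) :=
    Nat.find_min ex2
  have hle2 : Nat.find ex2 ≤ b := Nat.find_min' ex2 ⟨hcb.le, fun s hs hs' => by
    rw [le_antisymm hs' hs]
    linarith⟩
  set p := Nat.find ex1 with hp
  set q := Nat.find ex2 with hq
  have hpa : a < p := by
    rcases lt_or_eq_of_le ha1 with h | h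
    · exact h
    · rw [← h] at hF1
      linarith
  have hqc : c < q := by
    rcases lt_or_eq_of_le hc2 with h | h
    · exact h
    · have := hF2 c h.symm.le hcb.le
      linarith
  refine ⟨p - 1, q, ?_⟩
  constructor
  · omega
  · omega
  · exact hqc
  · exact hle2
  · intro t hat htp
    by_contra hcon
    exact hmin1 (show t < p by omega) ⟨hat, not_le.1 hcon⟩
  · exact hF2
  · rw [show p - 1 + 1 = p by omega]
    exact hF1
  · by_contra hcon
    refine hmin2 (show q - 1 < q by omega) ⟨by omega, fun s hs hs' => ?_⟩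
    rcases Nat.lt_or_ge s q with h | h
    · rw [show s = q - 1 by omega]
      exact not_lt.1 hcon
    · exact hF2 s h hs'

theorem setup_exists {x y : ℕ → ℝ} {N m : ℕ} {s : Bool} {τ : ℕ → ℕ} {η : ℝ}
    (T : Tips x N m s τ) (pos : 0 < η) (small : η ≤ 1 / 20)
    (stepx : ∀ t < N, |x (t + 1) - x t| ≤ η) (stepy : ∀ t < N, |y (t + 1) - y t| ≤ η) :
    ∃ e g, Setup x y N m s τ e g η := by
  have key : ∀ i : ℕ, ∃ e g, 1 ≤ i → i < m →
      Notch (sg (dir s i) x) (τ (i - 1)) (τ i) (τ (i + 1)) e g := by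
    intro i
    by_cases hi : 1 ≤ i ∧ i < m
    · obtain ⟨hi1, hi2⟩ := hi
      have l1 := T.leg (i - 1) (by omega)
      have l2 := T.leg i hi2
      rw [show i - 1 + 1 = i by omega] at l1
      have e1 : sg (dir s (i - 1)) x = fun t => - sg (dir s i) x t := by
        obtain ⟨j, rfl⟩ : ∃ j, i = j + 1 := ⟨i - 1, by omega⟩
        rw [Nat.add_sub_cancel]
        funext t
        show sg (dir s j) x t = - sg (!(dir s j)) x t
        cases dir s j <;> simp [sg]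
      rw [e1] at l1
      obtain ⟨e, g, h⟩ := notch_exists l1 l2
      exact ⟨e, g, fun _ _ => h⟩
    · exact ⟨0, 0, fun h1 h2 => (hi ⟨h1, h2⟩).elim⟩
  choose e g h using key
  exact ⟨e, g, ⟨T, pos, small, stepx, stepy, fun i h1 h2 => h i h1 h2⟩⟩

end Pool.Agent.Lib.MP_04143b_an
end

section

/-! # A fine subdivision of a curve -/

open Set

namespace Pool.Agent.Lib.MP_04143b_an

/-- A fine subdivision of a short curve, rescaled by `1 / r`. -/
theorem exists_chain {f : ℝ → ℝ × ℝ} (hf : ContinuousOn f (Icc 0 1)) (hl : length f ≤ 1)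
    {r η : ℝ} (hr : 0 < r) (hη : 0 < η) :
    ∃ N : ℕ, 1 ≤ N ∧
      (∀ t ∈ Icc (0 : ℝ) 1, ∃ i ≤ N, dist (f t) (f ((i : ℝ) / N)) ≤ η * r) ∧
      (∀ t < N, |(f (((t + 1 : ℕ) : ℝ) / N)).1 / r - (f ((t : ℝ) / N)).1 / r| ≤ η) ∧
      (∀ t < N, |(f (((t + 1 : ℕ) : ℝ) / N)).2 / r - (f ((t : ℝ) / N)).2 / r| ≤ η) ∧
      ln (fun t : ℕ => (f ((t : ℝ) / N)).1 / r) (fun t : ℕ => (f ((t : ℝ) / N)).2 / r) 0 N ≤
        1 / r := by
  have huc := isCompact_Icc.uniformContinuousOn_of_continuous hf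
  rw [Metric.uniformContinuousOn_iff] at huc
  obtain ⟨δ, hδ, hfδ⟩ := huc (η * r) (by positivity)
  obtain ⟨N₀, hN₀⟩ := exists_nat_one_div_lt hδ
  obtain ⟨N, hN⟩ : ∃ N : ℕ, N = N₀ + 1 := ⟨_, rfl⟩
  have hN1 : 1 ≤ N := by omega
  have hN0 : (0 : ℝ) < N := by exact_mod_cast hN1
  have hNδ : 1 / (N : ℝ) < δ := by
    rw [hN]
    push_cast
    exact hN₀
  have hmem : ∀ i : ℕ, i ≤ N → (i : ℝ) / N ∈ Icc (0 : ℝ) 1 := by
    intro i hi
    have hi' : (i : ℝ) ≤ N := by exact_mod_cast hi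
    exact ⟨by positivity, (div_le_one hN0).2 hi'⟩
  have hstep : ∀ t < N, dist (f (((t + 1 : ℕ) : ℝ) / N)) (f ((t : ℝ) / N)) ≤ η * r := by
    intro t ht
    refine (hfδ _ (hmem (t + 1) ht) _ (hmem t ht.le) ?_).le
    rw [Real.dist_eq]
    have h1 : ((t + 1 : ℕ) : ℝ) / N - (t : ℝ) / N = 1 / N := by
      push_cast
      ring
    rw [h1, abs_of_pos (by positivity)]
    exact hNδ
  refine ⟨N, hN1, ?_, ?_, ?_, ?_⟩
  · intro t ht
    have h1 : 0 ≤ t * N := mul_nonneg ht.1 hN0.le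
    have h2 : ⌊t * N⌋₊ ≤ N := by
      refine Nat.floor_le_of_le ?_
      nlinarith [ht.2]
    refine ⟨⌊t * N⌋₊, h2, (hfδ _ ht _ (hmem _ h2) ?_).le⟩
    have h3 := Nat.floor_le h1
    have h4 := Nat.lt_floor_add_one (t * N)
    rw [Real.dist_eq, abs_of_nonneg]
    · refine lt_of_le_of_lt ?_ hNδ
      rw [sub_le_iff_le_add, ← add_div, le_div_iff₀ hN0]
      linarith
    · rw [sub_nonneg, div_le_iff₀ hN0]
      exact h3
  · intro t ht
    have h1 := hstep t ht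
    rw [Prod.dist_eq] at h1
    have h2 := (le_max_left _ _).trans h1
    rw [Real.dist_eq] at h2
    rw [← sub_div, abs_div, abs_of_pos hr, div_le_iff₀ hr]
    exact h2
  · intro t ht
    have h1 := hstep t ht
    rw [Prod.dist_eq] at h1
    have h2 := (le_max_right _ _).trans h1
    rw [Real.dist_eq] at h2
    rw [← sub_div, abs_div, abs_of_pos hr, div_le_iff₀ hr]
    exact h2
  · -- the length
    have h1 : ∀ t : ℕ, √(((f (((t + 1 : ℕ) : ℝ) / N)).1 / r - (f ((t : ℝ) / N)).1 / r) ^ 2 +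
        ((f (((t + 1 : ℕ) : ℝ) / N)).2 / r - (f ((t : ℝ) / N)).2 / r) ^ 2) =
        dist (WithLp.toLp 2 (f (((t + 1 : ℕ) : ℝ) / N))) (WithLp.toLp 2 (f ((t : ℝ) / N))) *
          (1 / r) := by
      intro t
      rw [WithLp.prod_dist_eq_of_L2, Real.dist_eq, Real.dist_eq, sq_abs, sq_abs]
      have h2 : ((f (((t + 1 : ℕ) : ℝ) / N)).1 / r - (f ((t : ℝ) / N)).1 / r) ^ 2 +
          ((f (((t + 1 : ℕ) : ℝ) / N)).2 / r - (f ((t : ℝ) / N)).2 / r) ^ 2 =
          (((f (((t + 1 : ℕ) : ℝ) / N)).1 - (f ((t : ℝ) / N)).1) ^ 2 +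
          ((f (((t + 1 : ℕ) : ℝ) / N)).2 - (f ((t : ℝ) / N)).2) ^ 2) * (1 / r) ^ 2 := by
        ring
      rw [h2, Real.sqrt_mul (by positivity), Real.sqrt_sq (by positivity)]
      rfl
    unfold ln
    rw [← Finset.range_eq_Ico, Finset.sum_congr rfl fun t _ => h1 t, ← Finset.sum_mul]
    have hmono : MonotoneOn (fun i : ℕ => (i : ℝ) / N) (Iic N) := by
      intro a _ b _ hab
      have hab' : (a : ℝ) ≤ b := by exact_mod_cast hab
      exact div_le_div_of_nonneg_right hab' hN0.le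
    have h3 := eVariationOn.sum_le_of_monotoneOn_Iic (f := fun t => WithLp.toLp 2 (f t))
      (s := Icc (0 : ℝ) 1) hmono hmem
    have h4 : ENNReal.ofReal (∑ i ∈ Finset.range N,
        dist (WithLp.toLp 2 (f (((i + 1 : ℕ) : ℝ) / N))) (WithLp.toLp 2 (f ((i : ℝ) / N)))) ≤
        1 := by
      rw [ENNReal.ofReal_sum_of_nonneg fun i _ => dist_nonneg]
      refine le_trans (le_of_eq ?_) (h3.trans hl)
      refine Finset.sum_congr rfl fun i _ => ?_
      rw [edist_dist]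
    rw [ENNReal.ofReal_le_one] at h4
    have h5 : 0 < 1 / r := by positivity
    nlinarith

end Pool.Agent.Lib.MP_04143b_an
end
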