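import Pool.Agent.Lib.MP_04143b_an.Mg.G014
import Pool.Agent.Lib.MP_04143b_an.Mg.G010
import Pool.Agent.Lib.MP_04143b_an.TipsEx
import Pool.Agent.Lib.MP_04143b_an.TipsZ
import Pool.Agent.Lib.MP_04143b_an.Mg.G015
import Pool.Agent.Lib.MP_04143b_an.Mg.G008
import Pool.Agent.Lib.MP_04143b_an.UpWalk
import Pool.Agent.Lib.MP_04143b_an.Mg.G001

section

/-! # Many `x`-turns: merge -/

namespace Pool.Agent.Lib.MP_04143b_an

/-- `k` is the maximal length of a zigzag -/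
theorem exists_zmax (f : ℕ → ℝ) (N : ℕ) :
    ∃ k, 1 ≤ k ∧ ZLe f (iv 0 N) k ∧ ¬ ZLe f (iv 0 N) (k - 1) := by
  classical
  have hex : ∃ k, ZLe f (iv 0 N) k := ⟨_, zle_length f _⟩
  have h0 : ¬ ZLe f (iv 0 N) 0 := by
    intro h
    have h1 := h true [0] (by
      rw [List.singleton_sublist, mem_iv]
      omega) (by trivial)
    simp at h1
  have h1 : 1 ≤ Nat.find hex := by
    by_contra hlt
    apply h0
    have h2 : Nat.find hex = 0 := by omega
    have h3 := Nat.find_spec hex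
    rwa [h2] at h3
  exact ⟨Nat.find hex, h1, Nat.find_spec hex, Nat.find_min hex (by omega)⟩

/-- Many `x`-turns: merge. -/
theorem core_merge {x y : ℕ → ℝ} {N kx ky : ℕ} {η L : ℝ} (pos : 0 < η) (small : η ≤ 1 / 20)
    (stepx : ∀ t < N, |x (t + 1) - x t| ≤ η) (stepy : ∀ t < N, |y (t + 1) - y t| ≤ η)
    (hL : ln x y 0 N ≤ L) (hx : ZLe x (iv 0 N) kx) (hx' : ¬ ZLe x (iv 0 N) (kx - 1))
    (hy : ZLe y (iv 0 N) ky) (hsum : (kx : ℝ) + ky ≤ 2 / 3 * L)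
    (hk : L / (3 - 2 * η) + 40 < kx) :
    ∃ (r : List ℕ) (k : ℕ), (∀ t, t ∈ r ↔ t ≤ N) ∧ Adj x y r ∧ ZLe x r k ∧ ZLe y r k ∧
      (k : ℝ) ≤ L / (3 - 2 * η) + 40 := by
  classical
  have hL0 : 0 ≤ L := ln_nonneg.trans hL
  have hη3 : (0 : ℝ) < 3 - 2 * η := by linarith
  have hLd : 0 ≤ L / (3 - 2 * η) := div_nonneg hL0 hη3.le
  have hk40 : (40 : ℝ) < kx := by linarith
  have hk40' : 40 < kx := by exact_mod_cast hk40
  rcases tips_exists x N with hosc | ⟨m, s, τ, T⟩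
  · exact absurd (zle_mono (zle_one_of_osc hosc) (by omega)) hx'
  have hm1 : m + 1 ≤ kx := tips_le T hx
  have hm2 : kx ≤ m + 1 := by
    by_contra h
    exact hx' (zle_mono (tips_zle T) (by omega))
  have hkm : kx = m + 1 := le_antisymm hm2 hm1
  obtain ⟨e, g, S⟩ := setup_exists T pos small stepx stepy
  have hcost := cost S (by omega)
  set M := ((Finset.Ico 1 (m - 1)).filter (fun j => Mg x y s τ e g η j)).card with hM
  set T₀ : ℝ := L / (3 - 2 * η) + 40 with hT₀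
  set q : ℕ := ⌈((kx : ℝ) - T₀) / 2⌉₊ with hq
  have hq1 : ((kx : ℝ) - T₀) / 2 ≤ q := Nat.le_ceil _
  have hq2 : (q : ℝ) < ((kx : ℝ) - T₀) / 2 + 1 := Nat.ceil_lt_add_one (by linarith)
  have hmk : (m : ℝ) = kx - 1 := by
    have : ((m + 1 : ℕ) : ℝ) = kx := by rw [hkm]
    push_cast at this
    linarith
  have hLeq : L = (3 - 2 * η) * (T₀ - 40) := by
    rw [hT₀]
    field_simp
    ring
  have h5q : 5 * q ≤ M := by
    have h1 : (3 - 2 * η) * ((kx : ℝ) - T₀ + 37) ≤ M := by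
      have h2 : (3 - 2 * η) * ((m : ℝ) - 2) ≤ L + M := hcost.trans (by linarith)
      rw [hmk] at h2
      rw [hLeq] at h2
      nlinarith
    have h3 : (29 / 10 : ℝ) * ((kx : ℝ) - T₀ + 37) ≤ (3 - 2 * η) * ((kx : ℝ) - T₀ + 37) := by
      apply mul_le_mul_of_nonneg_right
      · linarith
      · linarith
    have h4 : (5 * q : ℝ) ≤ M := by linarith
    exact_mod_cast h4
  obtain ⟨r, hr, hadj, hzx, hzy⟩ := exchange S (by omega) (hM ▸ h5q)
  refine ⟨r, max (m + 1 - 2 * q) (ky + 2 * q), hr, hadj, zle_mono hzx (le_max_left _ _),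
    zle_mono (hzy ky hy) (le_max_right _ _), ?_⟩
  rw [Nat.cast_max, max_le_iff]
  constructor
  · rcases le_total (2 * q) (m + 1) with h | h
    · rw [Nat.cast_sub h]
      push_cast
      linarith
    · rw [Nat.sub_eq_zero_of_le h]
      push_cast
      linarith
  · push_cast
    have h6 : L ≤ 3 * (L / (3 - 2 * η)) := by
      have : L / (3 - 2 * η) * (3 - 2 * η) = L := div_mul_cancel₀ _ hη3.ne'
      nlinarith
    linarith

end Pool.Agent.Lib.MP_04143b_an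
end

section

/-! # The combinatorial core -/

namespace Pool.Agent.Lib.MP_04143b_an

theorem core {x y : ℕ → ℝ} {N : ℕ} {η L : ℝ} (pos : 0 < η) (small : η ≤ 1 / 20)
    (stepx : ∀ t < N, |x (t + 1) - x t| ≤ η) (stepy : ∀ t < N, |y (t + 1) - y t| ≤ η)
    (hL : ln x y 0 N ≤ L) :
    ∃ (r : List ℕ) (k : ℕ), (∀ t, t ∈ r ↔ t ≤ N) ∧ Adj x y r ∧ ZLe x r k ∧ ZLe y r k ∧
      (k : ℝ) ≤ L / (3 - 2 * η) + 40 := by
  obtain ⟨kx, hkx, hx, hx'⟩ := exists_zmax x N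
  obtain ⟨ky, hky, hy, hy'⟩ := exists_zmax y N
  rcases lt_or_ge (2 / 3 * L) ((kx : ℝ) + ky) with h | h
  · exact core_cells pos small stepx stepy hL hx' hy' hkx hky h
  rcases lt_or_ge (L / (3 - 2 * η) + 40) (kx : ℝ) with h1 | h1
  · exact core_merge pos small stepx stepy hL hx hx' hy h h1
  rcases lt_or_ge (L / (3 - 2 * η) + 40) (ky : ℝ) with h2 | h2
  · obtain ⟨r, k, hr1, hr2, hr3, hr4, hr5⟩ :=
      core_merge pos small stepy stepx (ln_swap.trans_le hL) hy hy' hx (by linarith) h2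
    exact ⟨r, k, hr1, adj_swap.1 hr2, hr4, hr3, hr5⟩
  · refine ⟨iv 0 N, max kx ky, fun t => by rw [mem_iv]; simp, ?_, zle_mono hx (le_max_left _ _),
      zle_mono hy (le_max_right _ _), ?_⟩
    · apply iv_isChain
      intro t _ ht
      have hx1 := stepx t ht
      have hy1 := stepy t ht
      rw [abs_sub_comm (x t), abs_sub_comm (y t)]
      exact ⟨by linarith, by linarith⟩
    · rw [Nat.cast_max]
      exact max_le h1 h2

end Pool.Agent.Lib.MP_04143b_an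
end

section

/-! # Approximation -/

open Set

namespace Pool.Agent.Lib.MP_04143b_an

theorem hasSections_mul {k : ℕ} {φ : ℝ → ℝ} (h : HasSections k φ) {r : ℝ} (hr : 0 < r) :
    HasSections k (fun t => r * φ t) := by
  obtain ⟨k', hk', t, h0, h1, h2, h3⟩ := h
  refine ⟨k', hk', t, h0, h1, h2, fun i hi => ?_⟩
  rcases h3 i hi with h4 | h4
  · exact Or.inl fun a ha b hb hab => mul_le_mul_of_nonneg_left (h4 ha hb hab) hr.le
  · exact Or.inr fun a ha b hb hab => mul_le_mul_of_nonneg_left (h4 ha hb hab) hr.le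

theorem hasSections_mono {k n : ℕ} (hk : k ≤ n) {φ : ℝ → ℝ} (h : HasSections k φ) :
    HasSections n φ := by
  obtain ⟨k', hk', h⟩ := h
  exact ⟨k', hk'.trans hk, h⟩

private theorem UpApprox_dist {p : ℝ × ℝ} {r a b : ℝ} (hr : 0 < r) (h1 : |a - p.1 / r| ≤ 1)
    (h2 : |b - p.2 / r| ≤ 1) : dist p (r * a, r * b) ≤ r := by
  have h3 : ∀ z c : ℝ, |c - z / r| ≤ 1 → |z - r * c| ≤ r := by
    intro z c h
    have h4 : z - r * c = r * (z / r - c) := by
      field_simp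
    rw [h4, abs_mul, abs_of_pos hr, abs_sub_comm]
    nlinarith
  rw [Prod.dist_eq, Real.dist_eq, Real.dist_eq]
  exact max_le (h3 _ _ h1) (h3 _ _ h2)

theorem approx {f : ℝ → ℝ × ℝ} (hf : ContinuousOn f (Icc 0 1)) (hl : length f ≤ 1)
    {r η : ℝ} (hr : 0 < r) (hη : 0 < η) (hη' : η ≤ 1 / 20) {n : ℕ}
    (hn : 1 / r / (3 - 2 * η) + 40 ≤ n) :
    ∃ G ∈ MnSq n, Metric.hausdorffDist (f '' Icc 0 1) G ≤ (1 + η) * r := by
  obtain ⟨N, hN, h1, h2, h3, h4⟩ := exists_chain hf hl hr hη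
  have hN0 : (0 : ℝ) < N := by exact_mod_cast hN
  obtain ⟨rt, k, hrt, hadj, hx, hy, hk⟩ := core hη hη' h2 h3 h4
  have hkn : k ≤ n := by
    have h5 : (k : ℝ) ≤ n := hk.trans hn
    exact_mod_cast h5
  obtain ⟨φ, ψ, hφ, hψ, hφs, hψs, h5, h6⟩ := walk hN hrt hadj hx hy
  refine ⟨(fun t => (r * φ t, r * ψ t)) '' Icc (0 : ℝ) 1, ⟨fun t => r * φ t,
    ⟨(continuous_const.mul hφ).continuousOn, hasSections_mono hkn (hasSections_mul hφs hr)⟩,
    fun t => r * ψ t,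
    ⟨(continuous_const.mul hψ).continuousOn, hasSections_mono hkn (hasSections_mul hψs hr)⟩,
    rfl⟩, ?_⟩
  refine Metric.hausdorffDist_le_of_mem_dist (by positivity) ?_ ?_
  · rintro _ ⟨t, ht, rfl⟩
    obtain ⟨i, hi, hd⟩ := h1 t ht
    obtain ⟨t', ht', h7, h8⟩ := h5 i hi
    refine ⟨_, ⟨t', ht', rfl⟩, ?_⟩
    have h9 : dist (f ((i : ℝ) / N)) (r * φ t', r * ψ t') ≤ r := UpApprox_dist hr h7 h8
    calc dist (f t) (r * φ t', r * ψ t') ≤ dist (f t) (f ((i : ℝ) / N)) +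
          dist (f ((i : ℝ) / N)) (r * φ t', r * ψ t') := dist_triangle _ _ _
      _ ≤ (1 + η) * r := by linarith
  · rintro _ ⟨t, ht, rfl⟩
    obtain ⟨i, hi, h7, h8⟩ := h6 t ht
    have hi' : (i : ℝ) ≤ N := by exact_mod_cast hi
    refine ⟨f ((i : ℝ) / N), ⟨(i : ℝ) / N, ⟨by positivity, (div_le_one hN0).2 hi'⟩, rfl⟩, ?_⟩
    have h9 : dist (f ((i : ℝ) / N)) (r * φ t, r * ψ t) ≤ r := UpApprox_dist hr h7 h8
    change dist (r * φ t, r * ψ t) (f ((i : ℝ) / N)) ≤ (1 + η) * r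
    rw [dist_comm]
    nlinarith

end Pool.Agent.Lib.MP_04143b_an
end

section

/-! # The upper bound -/

open Set

namespace Pool.Agent.Lib.MP_04143b_an

theorem upper {η : ℝ} (hη : 0 < η) (hη' : η ≤ 1 / 20) {n : ℕ} (hn : 42 ≤ n) :
    EE n ≤ (1 + η) / ((3 - 2 * η) * ((n : ℝ) - 40)) := by
  have hn' : (42 : ℝ) ≤ n := by exact_mod_cast hn
  have h3 : 0 < 3 - 2 * η := by linarith
  have h40 : 0 < (n : ℝ) - 40 := by linarith
  obtain ⟨r, hr⟩ : ∃ r : ℝ, r = 1 / ((3 - 2 * η) * ((n : ℝ) - 40)) := ⟨_, rfl⟩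
  have hr0 : 0 < r := by rw [hr]; positivity
  have hrn : 1 / r / (3 - 2 * η) + 40 ≤ n := by
    have h1 : 1 / r / (3 - 2 * η) = (n : ℝ) - 40 := by
      rw [hr]
      field_simp
    rw [h1]
    linarith
  have hgoal : (1 + η) / ((3 - 2 * η) * ((n : ℝ) - 40)) = (1 + η) * r := by
    rw [hr]
    ring
  rw [hgoal]
  refine csSup_le ?_ ?_
  · obtain ⟨F, hF⟩ := gamma1_nonempty
    exact ⟨EF n F, F, hF, rfl⟩
  · rintro b ⟨F, ⟨f, hf, hl, rfl⟩, rfl⟩
    obtain ⟨G, hG, hGd⟩ := approx hf hl hr0 hη hη' hrn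
    exact (EF_le hG).trans hGd

end Pool.Agent.Lib.MP_04143b_an
end
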